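import Pool.Agent.Lib.MP_1a91b9_ntT.Base

/-!
# Extension of valuations

PROOF. `exists_val_ext`: `A = ` the image in `F'` of the valuation ring of `v`, a local subring; Mathlib:
`LocalSubring.exists_le_valuationSubring` gives a valuation subring `B` of `F'` which dominates it: `A ≤ B` and the nonunits of
`A` are nonunits of `B` (`LocalSubring` order). If `v x ≤ 1` then `x ∈ B`; if `v x > 1` then `x⁻¹` is a nonunit of `A`, so a nonunit
of `B` and `x ∉ B` (`x x⁻¹ = 1`). `ValuationSubring.valuation_le_one_iff`. (Universe: `B.valuation : Valuation F' B.ValueGroup`.)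
-/

set_option autoImplicit false

namespace Pool.Agent.Lib.MP_1a91b9_ntX.DB

open NumberField IsDedekindDomain Pool.Agent.Lib.MP_1a91b9_ntT

/-- extension of a valuation to a larger field -/
theorem exists_val_ext {F F' : Type*} [Field F] [Field F'] [Algebra F F'] {Γ : Type*}
    [LinearOrderedCommGroupWithZero Γ] (v : Valuation F Γ) :
    ∃ B : ValuationSubring F', ∀ x : F, B.valuation (algebraMap F F' x) ≤ 1 ↔ v x ≤ 1 := by
  obtain ⟨B, hB, hloc⟩ := IsLocalRing.exists_factor_valuationRing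
    ((algebraMap F F').comp v.valuationSubring.subtype)
  refine ⟨B, fun x => ?_⟩
  rw [ValuationSubring.valuation_le_one_iff]
  constructor
  · intro hx
    by_contra hv
    have hv1 : 1 < v x := not_le.1 hv
    have hx0 : x ≠ 0 := by
      rintro rfl
      rw [map_zero] at hv1
      exact absurd hv1 (not_lt.2 zero_le_one)
    have hy : v x⁻¹ ≤ 1 := by
      rw [map_inv₀]
      exact inv_le_one_of_one_le₀ hv1.le
    have hu : IsUnit (((algebraMap F F').comp v.valuationSubring.subtype).codRestrict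
        B.toSubring hB ⟨x⁻¹, hy⟩) := by
      refine isUnit_iff_exists_inv.2 ⟨⟨algebraMap F F' x, hx⟩, Subtype.ext ?_⟩
      show algebraMap F F' x⁻¹ * algebraMap F F' x = 1
      rw [← map_mul, inv_mul_cancel₀ hx0, map_one]
    have hu2 := hloc.map_nonunit _ hu
    obtain ⟨z, hz⟩ := isUnit_iff_exists_inv.1 hu2
    have hz1 : x⁻¹ * (z : F) = 1 := congrArg Subtype.val hz
    have hz2 : (z : F) = x := by
      field_simp at hz1
      exact hz1
    have hz3 : v (z : F) ≤ 1 := z.2
    rw [hz2] at hz3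
    exact hv hz3
  · intro hx
    exact hB ⟨x, hx⟩

theorem val_ext_lt {F F' : Type*} [Field F] [Field F'] [Algebra F F'] {Γ Γ' : Type*}
    [LinearOrderedCommGroupWithZero Γ] [LinearOrderedCommGroupWithZero Γ'] (v : Valuation F Γ)
    (v' : Valuation F' Γ') (h : ∀ x : F, v' (algebraMap F F' x) ≤ 1 ↔ v x ≤ 1) (x : F) :
    v' (algebraMap F F' x) < 1 ↔ v x < 1 := by
  rcases eq_or_ne x 0 with rfl | hx
  · rw [map_zero, map_zero, map_zero]
    exact ⟨fun _ => zero_lt_one, fun _ => zero_lt_one⟩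
  · have h1 := h x⁻¹
    rw [map_inv₀, map_inv₀, map_inv₀] at h1
    have a1 : v x ≠ 0 := (Valuation.ne_zero_iff v).2 hx
    have a2 : v' (algebraMap F F' x) ≠ 0 :=
      (Valuation.ne_zero_iff v').2 (by rwa [Ne, map_eq_zero])
    rw [inv_le_one₀ (zero_lt_iff.2 a2), inv_le_one₀ (zero_lt_iff.2 a1)] at h1
    rw [← not_le, ← not_le, h1]

theorem val_ext_eq {F F' : Type*} [Field F] [Field F'] [Algebra F F'] {Γ Γ' : Type*}
    [LinearOrderedCommGroupWithZero Γ] [LinearOrderedCommGroupWithZero Γ'] (v : Valuation F Γ)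
    (v' : Valuation F' Γ') (h : ∀ x : F, v' (algebraMap F F' x) ≤ 1 ↔ v x ≤ 1) (x : F) :
    v' (algebraMap F F' x) = 1 ↔ v x = 1 := by
  rw [eq_iff_le_not_lt, eq_iff_le_not_lt, h, val_ext_lt v v' h]


end Pool.Agent.Lib.MP_1a91b9_ntX.DB
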