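import Pool.Agent.Lib.MP_1a91b9_ntX.DB.Tor2
import Pool.Agent.Lib.MP_1a91b9_ntX.DB.VExt

/-!
# Extension of number fields by `δ`, `16 δ⁶ = D`

PROOF. `exists_delta_ext`: like `MP_1a91b9_ntT.DB.exists_ext` (DB/Ext.lean) with `L0 = IntermediateField.adjoin k {δ}` in
`AlgebraicClosure k`, `δ ^ 6 = D/16`: an automorphism `σ` over `k0` maps `δ` to a root of `X ^ 6 - D/16`, `(σ δ/δ) ^ 6 = 1`, so
`σ δ = z δ` with `z` one of `± om^i` (image of `K`; `z^6 = 1` gives `(z^2)^3 = 1` so `z^2 = om^j`, `z = ± om^(2j)`), in `L0`.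
-/

set_option autoImplicit false

namespace Pool.Agent.Lib.MP_1a91b9_ntX.DB

open NumberField IsDedekindDomain WeierstrassCurve Pool.Agent.Lib.MP_1a91b9_ntT

universe u

variable [DD]

omit [DD] in
private theorem DExt_cube {F : Type*} [Field F] {w z : F} (hw : w ^ 2 + w + 1 = 0) (hz : z ^ 3 = 1) :
    z = 1 ∨ z = w ∨ z = w ^ 2 := by
  have h : (z - 1) * ((z - w) * (z - w ^ 2)) = 0 := by
    linear_combination hz + (-z ^ 2 + z * w - w + 1) * hw
  rcases mul_eq_zero.1 h with h1 | h1
  · exact Or.inl (sub_eq_zero.1 h1)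
  · rcases mul_eq_zero.1 h1 with h2 | h2
    · exact Or.inr (Or.inl (sub_eq_zero.1 h2))
    · exact Or.inr (Or.inr (sub_eq_zero.1 h2))

omit [DD] in
private theorem DExt_six {F : Type*} [Field F] (S : Subfield F) {w z : F} (hw : w ^ 2 + w + 1 = 0) (hwS : w ∈ S)
    (hz : z ^ 6 = 1) : z ∈ S := by
  have h1 : (z ^ 3 - 1) * (z ^ 3 + 1) = 0 := by
    linear_combination hz
  rcases mul_eq_zero.1 h1 with h2 | h2
  · rcases DExt_cube hw (sub_eq_zero.1 h2) with h3 | h3 | h3
    · rw [h3]
      exact S.one_mem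
    · rw [h3]
      exact hwS
    · rw [h3]
      exact S.pow_mem hwS 2
  · have h4 : (-z) ^ 3 = 1 := by
      linear_combination -h2
    have h5 : -z ∈ S := by
      rcases DExt_cube hw h4 with h3 | h3 | h3
      · rw [h3]
        exact S.one_mem
      · rw [h3]
        exact hwS
      · rw [h3]
        exact S.pow_mem hwS 2
    have h6 := S.neg_mem h5
    rwa [neg_neg] at h6

open scoped Classical in
/-- a number field which contains `δ` -/
theorem exists_delta_ext (k0 k : Type u) [Field k0] [NumberField k0] [Algebra K k0] [Field k]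
    [NumberField k] [Algebra K k] [Algebra k0 k] [IsScalarTower K k0 k] [IsGalois k0 k] :
    ∃ (L : Type u) (_ : Field L) (_ : NumberField L) (_ : Algebra K L) (_ : Algebra k0 L)
      (_ : Algebra k L) (_ : IsScalarTower K k0 L) (_ : IsScalarTower K k L)
      (_ : IsScalarTower k0 k L), IsGalois k0 L ∧ IsGalois k L ∧
      ∃ δ : L, 16 * δ ^ 6 = dD L := by
  have hk0k : Algebra.IsAlgebraic k0 k := by
    have h1 : Normal k0 k := IsGalois.to_normal
    exact h1.toIsAlgebraic
  have hT : IsScalarTower K k0 (AlgebraicClosure k) := by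
    refine IsScalarTower.of_algebraMap_eq fun x => ?_
    rw [IsScalarTower.algebraMap_apply K k (AlgebraicClosure k),
      IsScalarTower.algebraMap_apply k0 k (AlgebraicClosure k),
      IsScalarTower.algebraMap_apply K k0 k]
  have hk0Ω : Algebra.IsAlgebraic k0 (AlgebraicClosure k) := Algebra.IsAlgebraic.trans k0 k _
  have hC : IsAlgClosure k0 (AlgebraicClosure k) := ⟨inferInstance, hk0Ω⟩
  have hN : Normal k0 (AlgebraicClosure k) := IsAlgClosure.normal k0 _
  have hchar : CharZero (AlgebraicClosure k) :=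
    charZero_of_injective_algebraMap (algebraMap k (AlgebraicClosure k)).injective
  obtain ⟨δ, hδ⟩ := IsAlgClosed.exists_pow_nat_eq (dD (AlgebraicClosure k) / 16) (n := 6) (by norm_num)
  have h16 : (16 : AlgebraicClosure k) ≠ 0 := by norm_num
  have hδ' : 16 * δ ^ 6 = dD (AlgebraicClosure k) := by
    rw [hδ, mul_div_cancel₀ _ h16]
  have hδ0 : δ ≠ 0 := by
    rintro rfl
    rw [zero_pow (by norm_num), mul_zero] at hδ'
    exact (Int.cast_ne_zero.2 DD.ne : dD (AlgebraicClosure k) ≠ 0) hδ'.symm
  set L0 : IntermediateField k (AlgebraicClosure k) :=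
    IntermediateField.adjoin k {δ} with hL0
  have hdm : δ ∈ L0 := IntermediateField.subset_adjoin _ _ (by simp)
  have hwm : MP_1a91b9_ntT.DB.omF (AlgebraicClosure k) ∈ L0 := by
    rw [MP_1a91b9_ntT.DB.omF, IsScalarTower.algebraMap_apply K k (AlgebraicClosure k)]
    exact L0.algebraMap_mem _
  have hfin : FiniteDimensional k L0 := by
    refine IntermediateField.finiteDimensional_adjoin fun x _ => ?_
    exact (Algebra.IsAlgebraic.isAlgebraic (R := k) x).isIntegral
  have hNF : NumberField L0 := NumberField.of_module_finite k L0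
  have t1 : IsScalarTower K k L0 := by
    refine IsScalarTower.of_algebraMap_eq fun x => Subtype.ext ?_
    exact IsScalarTower.algebraMap_apply K k (AlgebraicClosure k) x
  have t2 : IsScalarTower k0 k L0 := by
    refine IsScalarTower.of_algebraMap_eq fun x => Subtype.ext ?_
    exact IsScalarTower.algebraMap_apply k0 k (AlgebraicClosure k) x
  have t3 : IsScalarTower K k0 L0 := by
    refine IsScalarTower.of_algebraMap_eq fun x => Subtype.ext ?_
    exact IsScalarTower.algebraMap_apply K k0 (AlgebraicClosure k) x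
  have hstab : ∀ (σ : AlgebraicClosure k ≃ₐ[k0] AlgebraicClosure k) (z : AlgebraicClosure k),
      z ∈ IntermediateField.adjoin k {δ} → σ z ∈ L0 := by
    intro σ z hz
    induction hz using IntermediateField.adjoin_induction with
    | mem z hz =>
      rw [Set.mem_singleton_iff] at hz
      rw [hz]
      have h1 : 16 * (σ δ) ^ 6 = dD (AlgebraicClosure k) := by
        have h2 := congrArg σ hδ'
        rw [map_mul, map_pow, map_ofNat, map_intCast] at h2
        exact h2
      have h3 : (σ δ / δ) ^ 6 = 1 := by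
        rw [div_pow, div_eq_one_iff_eq (pow_ne_zero 6 hδ0)]
        exact mul_left_cancel₀ h16 (h1.trans hδ'.symm)
      have h4 : σ δ / δ ∈ L0 := DExt_six L0.toSubfield
        (MP_1a91b9_ntT.DB.omF_quad (AlgebraicClosure k)) hwm h3
      have h5 : σ δ = σ δ / δ * δ := (div_mul_cancel₀ _ hδ0).symm
      rw [h5]
      exact L0.mul_mem h4 hdm
    | algebraMap x =>
      rw [← AlgEquiv.restrictNormal_commutes]
      exact IntermediateField.algebraMap_mem _ _
    | add x y hx hy h1 h2 => rw [map_add]; exact add_mem h1 h2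
    | inv x hx h1 => rw [map_inv₀]; exact inv_mem h1
    | mul x y hx hy h1 h2 => rw [map_mul]; exact mul_mem h1 h2
  have hNL : Normal k0 (L0.restrictScalars k0) := by
    rw [IntermediateField.normal_iff_forall_map_le']
    intro σ z hz
    rw [IntermediateField.mem_map] at hz
    obtain ⟨w, hw, rfl⟩ := hz
    exact hstab σ w hw
  have hNL' : Normal k0 L0 := hNL
  have hG0 : IsGalois k0 L0 := ⟨⟩
  have hG : IsGalois k L0 := IsGalois.tower_top_of_isGalois k0 k L0
  refine ⟨L0, L0.toField, hNF, L0.algebra', L0.algebra', L0.algebra', t3, t1, t2, hG0, hG,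
    ⟨δ, hdm⟩, ?_⟩
  refine Subtype.ext ?_
  have e : ((dD L0 : L0) : AlgebraicClosure k) = dD (AlgebraicClosure k) := by
    exact map_intCast (algebraMap L0 (AlgebraicClosure k)) DD.D
  rw [e, ← hδ']
  rfl

end Pool.Agent.Lib.MP_1a91b9_ntX.DB
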