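import Pool.Agent.Lib.MP_1a91b9_ntX.Base

/-!
# The curves `y² = x³ + D`: points over fields which are `K`-algebras (`K = ℚ(√-3)`), coordinates,
the kernel of reduction at a valuation (port of MP_1a91b9_ntT/DB/Defs.lean)
-/

set_option autoImplicit false

namespace Pool.Agent.Lib.MP_1a91b9_ntX.DB

open NumberField IsDedekindDomain WeierstrassCurve Pool.Agent.Lib.MP_1a91b9_ntT

noncomputable section

variable [DD]

/-- Points of `y² = x³ + D` over a `K`-algebra `F`. -/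
abbrev Pt (F : Type*) [Field F] [Algebra K F] : Type _ := (Affine.baseChange (E K) F).Point

section
variable {F : Type*} [Field F] [Algebra K F]

/-- the abscissa (`0` at infinity) -/
def xc : Pt F → F
  | .zero => 0
  | .some x _ _ => x

/-- the ordinate (`0` at infinity) -/
def yc : Pt F → F
  | .zero => 0
  | .some _ y _ => y

/-- the local parameter `-x/y` at infinity (`0` at infinity) -/
def tc (P : Pt F) : F := -(xc P) / yc P

omit [DD] in
theorem two_ne : (2 : F) ≠ 0 := by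
  have : CharZero F := charZero_of_injective_algebraMap (algebraMap K F).injective
  norm_num

omit [DD] in
theorem three_ne : (3 : F) ≠ 0 := by
  have : CharZero F := charZero_of_injective_algebraMap (algebraMap K F).injective
  norm_num

theorem dD_ne : dD F ≠ 0 := by
  have : CharZero F := charZero_of_injective_algebraMap (algebraMap K F).injective
  exact Int.cast_ne_zero.2 DD.ne

theorem bD_ne : bD F ≠ 0 := by
  have : CharZero F := charZero_of_injective_algebraMap (algebraMap K F).injective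
  exact Int.cast_ne_zero.2 (mul_ne_zero (by norm_num) DD.ne)

theorem eqn_iff (x y : F) : (Affine.baseChange (E K) F).Equation x y ↔ y ^ 2 = x ^ 3 + dD F := by
  rw [Affine.equation_iff]
  simp [E]

theorem nons_iff (x y : F) : (Affine.baseChange (E K) F).Nonsingular x y ↔
    y ^ 2 = x ^ 3 + dD F := by
  rw [Affine.nonsingular_iff, eqn_iff]
  constructor
  · exact fun h => h.1
  · intro h
    refine ⟨h, ?_⟩
    by_contra hc
    push Not at hc
    obtain ⟨h1, h2⟩ := hc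
    simp [E] at h1 h2
    have h5 : x = 0 := h1.resolve_left three_ne
    have h4 : (2 : F) * y = 0 := by linear_combination h2
    have h6 : y = 0 := (mul_eq_zero.1 h4).resolve_left two_ne
    rw [h5, h6] at h
    exact dD_ne (F := F) (by linear_combination -h)

/-- the affine point with given coordinates -/
def mkPt (x y : F) (h : y ^ 2 = x ^ 3 + dD F) : Pt F := .some x y ((nons_iff x y).2 h)

@[simp] theorem xc_mk (x y : F) (h : y ^ 2 = x ^ 3 + dD F) : xc (mkPt x y h) = x := rfl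
@[simp] theorem yc_mk (x y : F) (h : y ^ 2 = x ^ 3 + dD F) : yc (mkPt x y h) = y := rfl
@[simp] theorem xc_zero : xc (0 : Pt F) = 0 := rfl
@[simp] theorem yc_zero : yc (0 : Pt F) = 0 := rfl
@[simp] theorem tc_zero : tc (0 : Pt F) = 0 := by simp [tc]

theorem mk_ne_zero (x y : F) (h : y ^ 2 = x ^ 3 + dD F) : mkPt x y h ≠ 0 :=
  Affine.Point.some_ne_zero _

/-- every point is `0` or affine -/
theorem cases_pt (P : Pt F) : P = 0 ∨ ∃ (x y : F) (h : y ^ 2 = x ^ 3 + dD F), P = mkPt x y h := by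
  cases P with
  | zero => exact Or.inl rfl
  | some x y h => exact Or.inr ⟨x, y, (nons_iff x y).1 h, rfl⟩

theorem exists_mk {P : Pt F} (hP : P ≠ 0) :
    ∃ h : yc P ^ 2 = xc P ^ 3 + dD F, P = mkPt (xc P) (yc P) h := by
  rcases cases_pt P with h | ⟨x, y, h, rfl⟩
  · exact absurd h hP
  · exact ⟨h, rfl⟩

theorem mk_inj {x y x' y' : F} {h : y ^ 2 = x ^ 3 + dD F} {h' : y' ^ 2 = x' ^ 3 + dD F} :
    mkPt x y h = mkPt x' y' h' ↔ x = x' ∧ y = y' := by
  constructor
  · intro e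
    exact ⟨congrArg xc e, congrArg yc e⟩
  · rintro ⟨rfl, rfl⟩
    rfl

/-- two affine points with the same coordinates are equal -/
theorem pt_ext {P Q : Pt F} (hP : P ≠ 0) (hQ : Q ≠ 0) (hx : xc P = xc Q) (hy : yc P = yc Q) :
    P = Q := by
  obtain ⟨h1, e1⟩ := exists_mk hP
  obtain ⟨h2, e2⟩ := exists_mk hQ
  rw [e1, e2, mk_inj]
  exact ⟨hx, hy⟩

theorem neg_mk (x y : F) (h : y ^ 2 = x ^ 3 + dD F) :
    -mkPt x y h = mkPt x (-y) (by linear_combination h) := by
  rw [mkPt, Affine.Point.neg_some, mkPt]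
  congr 1
  simp [Affine.negY, E]

variable [DecidableEq F]

theorem mk_add_neg {x y : F} (h : y ^ 2 = x ^ 3 + dD F) {y' : F} (h' : y' ^ 2 = x ^ 3 + dD F)
    (e : y' = -y) : mkPt x y h + mkPt x y' h' = 0 := by
  have : mkPt x y' h' = -mkPt x y h := by
    rw [neg_mk, mk_inj]
    exact ⟨rfl, e⟩
  rw [this, add_neg_cancel]

theorem mk_add (x₁ y₁ x₂ y₂ : F) (h₁ : y₁ ^ 2 = x₁ ^ 3 + dD F) (h₂ : y₂ ^ 2 = x₂ ^ 3 + dD F)
    (hx : x₁ ≠ x₂) : ∃ h, mkPt x₁ y₁ h₁ + mkPt x₂ y₂ h₂ =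
      mkPt (((y₁ - y₂) / (x₁ - x₂)) ^ 2 - x₁ - x₂)
        (-((y₁ - y₂) / (x₁ - x₂) * ((((y₁ - y₂) / (x₁ - x₂)) ^ 2 - x₁ - x₂) - x₁) + y₁)) h := by
  have hs : (Affine.baseChange (E K) F).slope x₁ x₂ y₁ y₂ = (y₁ - y₂) / (x₁ - x₂) :=
    Affine.slope_of_X_ne hx
  have key : mkPt x₁ y₁ h₁ + mkPt x₂ y₂ h₂ = .some _ _ _ := Affine.Point.add_of_X_ne hx
  have hX : (Affine.baseChange (E K) F).addX x₁ x₂ ((y₁ - y₂) / (x₁ - x₂)) =
      ((y₁ - y₂) / (x₁ - x₂)) ^ 2 - x₁ - x₂ := by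
    simp [Affine.addX, E]
  have hY : (Affine.baseChange (E K) F).addY x₁ x₂ y₁ ((y₁ - y₂) / (x₁ - x₂)) =
      -((y₁ - y₂) / (x₁ - x₂) * ((((y₁ - y₂) / (x₁ - x₂)) ^ 2 - x₁ - x₂) - x₁) + y₁) := by
    rw [Affine.addY, Affine.negAddY, Affine.negY, hX]
    simp [E]
  obtain ⟨x₃, y₃, h₃, e₃⟩ : ∃ x₃ y₃ h₃, mkPt x₁ y₁ h₁ + mkPt x₂ y₂ h₂ = mkPt x₃ y₃ h₃ := by
    refine ⟨_, _, ?_, key⟩
    exact (nons_iff _ _).1 (Affine.nonsingular_add ((nons_iff _ _).2 h₁) ((nons_iff _ _).2 h₂)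
      (fun h => hx h.1))
  have ex : x₃ = ((y₁ - y₂) / (x₁ - x₂)) ^ 2 - x₁ - x₂ := by
    have h1 := congrArg xc (e₃.symm.trans key)
    rw [xc_mk] at h1
    rw [h1, ← hX, ← hs]
    rfl
  have ey : y₃ = -((y₁ - y₂) / (x₁ - x₂) * ((((y₁ - y₂) / (x₁ - x₂)) ^ 2 - x₁ - x₂) - x₁) +
      y₁) := by
    have h1 := congrArg yc (e₃.symm.trans key)
    rw [yc_mk] at h1
    rw [h1, ← hY, ← hs]
    rfl
  subst ex
  subst ey
  exact ⟨h₃, e₃⟩

theorem mk_dbl (x y : F) (h : y ^ 2 = x ^ 3 + dD F) (hy : y ≠ 0) :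
    ∃ h', mkPt x y h + mkPt x y h =
      mkPt ((3 * x ^ 2 / (2 * y)) ^ 2 - x - x)
        (-(3 * x ^ 2 / (2 * y) * (((3 * x ^ 2 / (2 * y)) ^ 2 - x - x) - x) + y)) h' := by
  have hn : y ≠ (Affine.baseChange (E K) F).negY x y := by
    intro e
    rw [Affine.negY] at e
    simp [E] at e
    have h2 : (2 : F) * y = 0 := by linear_combination e
    exact hy ((mul_eq_zero.1 h2).resolve_left two_ne)
  have hs : (Affine.baseChange (E K) F).slope x x y y = 3 * x ^ 2 / (2 * y) := by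
    rw [Affine.slope_of_Y_ne rfl hn]
    simp [E, Affine.negY]
    ring_nf
  have key : mkPt x y h + mkPt x y h = .some _ _ _ := Affine.Point.add_self_of_Y_ne hn
  have hX : (Affine.baseChange (E K) F).addX x x (3 * x ^ 2 / (2 * y)) =
      (3 * x ^ 2 / (2 * y)) ^ 2 - x - x := by
    simp [Affine.addX, E]
  have hY : (Affine.baseChange (E K) F).addY x x y (3 * x ^ 2 / (2 * y)) =
      -(3 * x ^ 2 / (2 * y) * (((3 * x ^ 2 / (2 * y)) ^ 2 - x - x) - x) + y) := by
    rw [Affine.addY, Affine.negAddY, Affine.negY, hX]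
    simp [E]
  obtain ⟨x₃, y₃, h₃, e₃⟩ : ∃ x₃ y₃ h₃, mkPt x y h + mkPt x y h = mkPt x₃ y₃ h₃ := by
    refine ⟨_, _, ?_, key⟩
    exact (nons_iff _ _).1 (Affine.nonsingular_add ((nons_iff _ _).2 h) ((nons_iff _ _).2 h)
      (fun h => hn h.2))
  have ex : x₃ = (3 * x ^ 2 / (2 * y)) ^ 2 - x - x := by
    have h1 := congrArg xc (e₃.symm.trans key)
    rw [xc_mk] at h1
    rw [h1, ← hX, ← hs]
    rfl
  have ey : y₃ = -(3 * x ^ 2 / (2 * y) * (((3 * x ^ 2 / (2 * y)) ^ 2 - x - x) - x) + y) := by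
    have h1 := congrArg yc (e₃.symm.trans key)
    rw [yc_mk] at h1
    rw [h1, ← hY, ← hs]
    rfl
  subst ex
  subst ey
  exact ⟨h₃, e₃⟩

end

/-- the map on points induced by a homomorphism of `K`-algebras -/
abbrev pm {F F' : Type*} [Field F] [Algebra K F] [Field F'] [Algebra K F'] [DecidableEq F]
    [DecidableEq F'] (f : F →ₐ[K] F') : Pt F →+ Pt F' := Affine.Point.map (W' := E K) f

/-- the action on points of an automorphism over an intermediate field -/
abbrev ga {k F : Type*} [Field k] [Algebra K k] [Field F] [Algebra K F] [Algebra k F]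
    [IsScalarTower K k F] [DecidableEq F] (σ : F ≃ₐ[k] F) : Pt F →+ Pt F :=
  pm ((σ : F →ₐ[k] F).restrictScalars K)

section
variable {F F' : Type*} [Field F] [Algebra K F] [Field F'] [Algebra K F'] [DecidableEq F]
  [DecidableEq F']

theorem pm_mk (f : F →ₐ[K] F') (x y : F) (h : y ^ 2 = x ^ 3 + dD F) :
    ∃ h', pm f (mkPt x y h) = mkPt (f x) (f y) h' := by
  refine ⟨?_, rfl⟩
  rw [← map_pow, h, map_add, map_pow, map_intCast]

theorem xc_pm (f : F →ₐ[K] F') (P : Pt F) : xc (pm f P) = f (xc P) := by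
  rcases cases_pt P with rfl | ⟨x, y, h, rfl⟩
  · rw [map_zero, xc_zero, xc_zero, map_zero]
  · rfl

theorem yc_pm (f : F →ₐ[K] F') (P : Pt F) : yc (pm f P) = f (yc P) := by
  rcases cases_pt P with rfl | ⟨x, y, h, rfl⟩
  · rw [map_zero, yc_zero, yc_zero, map_zero]
  · rfl

theorem tc_pm (f : F →ₐ[K] F') (P : Pt F) : tc (pm f P) = f (tc P) := by
  rw [tc, tc, xc_pm, yc_pm, map_div₀, map_neg]

theorem pm_inj (f : F →ₐ[K] F') : Function.Injective (pm f) := Affine.Point.map_injective f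

end

/-- the kernel of reduction at a valuation -/
def Ker {F : Type*} [Field F] [Algebra K F] {Γ : Type*} [LinearOrderedCommGroupWithZero Γ]
    (v : Valuation F Γ) (P : Pt F) : Prop := P = 0 ∨ 1 < v (xc P)

end

end Pool.Agent.Lib.MP_1a91b9_ntX.DB
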