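import Pool.Agent.Lib.MP_1a91b9_ntX.DB.Ext

/-!
# The curves `y² = x³ + D`: isotypic elements, the group `V` (port of MP_1a91b9_ntT/DB/El.lean)
-/

set_option autoImplicit false

namespace Pool.Agent.Lib.MP_1a91b9_ntX.DB

open NumberField IsDedekindDomain WeierstrassCurve Pool.Agent.Lib.MP_1a91b9_ntT

universe u

variable [DD]

noncomputable section

/-- the prime element `ϖ` above `ℓ`, `ℓ` prime to `6 D` -/
structure PD (ϖ : 𝓞 K) (ℓ q : ℕ) : Prop extends MP_1a91b9_ntT.DB.PD ϖ ℓ q where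
  good : ¬ (ℓ : ℤ) ∣ 6 * DD.D

section
variable {ϖ : 𝓞 K} {ℓ q : ℕ} (h : PD ϖ ℓ q)
include h

theorem PD.dvd_int_iff (n : ℤ) : ϖ ∣ (n : 𝓞 K) ↔ (ℓ : ℤ) ∣ n :=
  MP_1a91b9_ntT.DB.PD.dvd_int_iff h.toPD n

theorem PD.q_five : 5 ≤ q := MP_1a91b9_ntT.DB.PD.q_five h.toPD

theorem PD.dvd_q : (ℓ - 1) ∣ (q - 1) := MP_1a91b9_ntT.DB.PD.dvd_q h.toPD

theorem PD.coprime_q : Nat.Coprime (q - 1) ℓ := MP_1a91b9_ntT.DB.PD.coprime_q h.toPD

/-- inverses modulo `ϖ` -/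
theorem PD.inv {c : 𝓞 K} (hc : ¬ ϖ ∣ c) : ∃ d : 𝓞 K, ϖ ∣ c * d - 1 :=
  MP_1a91b9_ntT.DB.PD.inv h.toPD hc

variable {F : Type u} [Field F] [NumberField F] [Algebra K F] {w : HeightOneSpectrum (𝓞 F)}
  (hw : w.valuation F (algebraMap K F (ϖ : K)) < 1)
include hw

theorem PD.val {c : 𝓞 K} (hc : ϖ ∣ c) : w.valuation F (algebraMap K F (c : K)) ≤
    w.valuation F (algebraMap K F (ϖ : K)) :=
  MP_1a91b9_ntT.DB.PD.val h.toPD hw hc

theorem PD.val_iff (c : 𝓞 K) : w.valuation F (algebraMap K F (c : K)) < 1 ↔ ϖ ∣ c :=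
  MP_1a91b9_ntT.DB.PD.val_iff h.toPD hw c

theorem PD.val_ell : w.valuation F (ℓ : F) = w.valuation F (algebraMap K F (ϖ : K)) :=
  MP_1a91b9_ntT.DB.PD.val_ell h.toPD hw

/-- an `ℓ`-th power which is `1` modulo `w` is `1` modulo `w ^ 2` -/
theorem pow_loc {z : F} (hz : w.valuation F (z ^ ℓ - 1) < 1) :
    w.valuation F (z ^ ℓ - 1) ≤ WithZero.exp (-2 : ℤ) :=
  MP_1a91b9_ntT.DB.pow_loc h.toPD hw hz

end

section
variable {ϖ : 𝓞 K} {ℓ q : ℕ} (h : PD ϖ ℓ q) {F : Type u} [Field F] [NumberField F] [Algebra K F]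
  {w : HeightOneSpectrum (𝓞 F)}
include h

/-- `6 D` is a unit at the places above `ℓ` -/
theorem PD.bad_ell (hw : w.valuation F (ℓ : F) < 1) : w.valuation F (bD F) = 1 := by
  refine le_antisymm (v_int_le _ _) ?_
  by_contra hc
  rw [not_le] at hc
  have hp : IsCoprime (ℓ : ℤ) (6 * DD.D) :=
    ((Nat.prime_iff_prime_int.1 h.hl).coprime_iff_not_dvd).2 h.good
  obtain ⟨a, b, hab⟩ := hp
  have h1 : (1 : F) = (a : F) * (ℓ : F) + (b : F) * bD F := by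
    have := congrArg (fun n : ℤ => (n : F)) hab
    push_cast at this
    push_cast
    exact this.symm
  have h2 : w.valuation F (1 : F) < 1 := by
    rw [h1]
    refine Valuation.map_add_lt _ ?_ ?_
    · rw [map_mul]
      exact (mul_le_of_le_one_left' (v_int_le _ _)).trans_lt hw
    · rw [map_mul]
      exact (mul_le_of_le_one_left' (v_int_le _ _)).trans_lt hc
  rw [map_one] at h2
  exact lt_irrefl _ h2

theorem PD.bad_pi (hw : w.valuation F (algebraMap K F (ϖ : K)) < 1) :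
    w.valuation F (bD F) = 1 :=
  h.bad_ell (by rw [h.val_ell hw]; exact hw)

theorem PD.bad_od (hw : MP_1a91b9_ntT.DB.od w (algebraMap K F (ϖ : K)) = 1) :
    w.valuation F (bD F) = 1 := by
  refine h.bad_pi ?_
  have h0 : algebraMap K F (ϖ : K) ≠ 0 := by
    intro h0
    rw [h0] at hw
    unfold MP_1a91b9_ntT.DB.od at hw
    rw [map_zero] at hw
    simp at hw
  rw [val_lt_one_iff w h0, hw]
  norm_num

end

section
variable (k : Type u) {N : Type u} [Field k] [NumberField k] [Algebra K k] [Field N] [NumberField N]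
  [Algebra K N] [Algebra k N] [IsScalarTower K k N] [DecidableEq N]

/-- `y` is isotypic modulo `ℓ`-th powers: `c ↦ σ_c y` is additive -/
def Iso (ℓ : ℕ) (P : Pt N) (y : Nˣ) : Prop :=
  ∃ A : 𝓞 K →+ El ℓ N, ∀ (σ : Gal(N/k)) (c : 𝓞 K), ga σ P = sm N c P → el ℓ (sg σ y) = A c

/-- the function `h` on the places is isotypic -/
def IsoPl (ℓ : ℕ) (P : Pt N) (h : HeightOneSpectrum (𝓞 N) → ZMod ℓ) : Prop :=
  ∀ w : HeightOneSpectrum (𝓞 N), ∃ H : 𝓞 K →+ ZMod ℓ, ∀ (σ : Gal(N/k)) (c : 𝓞 K),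
    ga σ P = sm N c P → h (gpl σ w) = H c

/-- the Selmer group in Kummer form -/
structure VV (ϖ : 𝓞 K) (ℓ : ℕ) (P : Pt N) (y : Nˣ) : Prop where
  od : ∀ w : HeightOneSpectrum (𝓞 N), (ℓ : ℤ) ∣ od w (y : N)
  iso : Iso k ℓ P y
  loc : ∀ w : HeightOneSpectrum (𝓞 N), w.valuation N (algebraMap K N (ϖ : K)) < 1 →
    WLoc ℓ w (y : N)

/-- `N` is the field of the points killed by `ϖ` over `k`, with full Galois group -/
structure Full (ϖ : 𝓞 K) (P : Pt N) : Prop where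
  ord : Ord ϖ P
  gen : ∀ σ : Gal(N/k), ga σ P = P → σ = 1
  all : ∀ c : 𝓞 K, ¬ ϖ ∣ c → ∃ σ : Gal(N/k), ga σ P = sm N c P

variable {k} {ϖ : 𝓞 K} {ℓ q : ℕ} (h : PD ϖ ℓ q) {P : Pt N} (hF : Full k ϖ P)
include h hF

private theorem elc_mul {σ τ : Gal(N/k)} {c d : 𝓞 K} (hc : ga σ P = sm N c P)
    (hd : ga τ P = sm N d P) : ga (σ * τ) P = sm N (d * c) P := by
  rw [ga_mul, hd, ga_sm, hc, map_mul]
  rfl

private theorem elc_one : ga (1 : Gal(N/k)) P = sm N (1 : 𝓞 K) P := by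
  rw [ga_one, map_one]
  rfl

private theorem elc_cong (c : 𝓞 K) (hc : ϖ ∣ c) : sm N (1 - c) P = sm N (1 : 𝓞 K) P := by
  rw [hF.ord.sm_eq_iff]
  have : (1 : 𝓞 K) - c - 1 = -c := by ring
  rw [this]
  exact (dvd_neg).2 hc

theorem Full.c_ne {σ : Gal(N/k)} {c : 𝓞 K} (hc : ga σ P = sm N c P) : ¬ ϖ ∣ c := by
  intro hd
  rw [(hF.ord c).2 hd] at hc
  have hP : P = 0 := by
    have h1 : ga σ P = ga σ 0 := by rw [hc, map_zero]
    exact pm_inj _ h1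
  have h2 : ϖ ∣ 1 := (hF.ord 1).1 (by rw [hP, map_zero])
  exact h.prime.not_isUnit (isUnit_of_dvd_one h2)

theorem Full.comm (σ τ : Gal(N/k)) : σ * τ = τ * σ := by
  obtain ⟨c, -, hc⟩ := gal_sm h.prime.ne_zero hF.ord σ
  obtain ⟨d, -, hd⟩ := gal_sm h.prime.ne_zero hF.ord τ
  have h1 := elc_mul h hF hc hd
  have h2 := elc_mul h hF hd hc
  have h3 : ga ((τ * σ)⁻¹ * (σ * τ)) P = P := by
    rw [ga_mul, h1, mul_comm, ← h2, ← ga_mul, inv_mul_cancel, ga_one]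
  have h4 := hF.gen _ h3
  exact (inv_mul_eq_one.1 h4).symm

theorem Full.card [IsGalois k N] : Module.finrank k N + 1 = q := by
  obtain ⟨T, hT, hcard⟩ := exists_isRes h.prime.ne_zero
  rw [← h.norm, ← hcard, ← IsGalois.card_aut_eq_finrank k N, add_left_inj]
  have hex : ∀ a : T, ∃ σ : Gal(N/k), ga σ P = sm N (a : 𝓞 K) P := fun a =>
    hF.all a (hT.nz a a.2)
  choose f hf using hex
  have hbij : Function.Bijective f := by
    constructor
    · intro a b hab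
      have h1 : sm N (a : 𝓞 K) P = sm N (b : 𝓞 K) P := by
        rw [← hf a, ← hf b, hab]
      exact Subtype.ext (hT.uniq a a.2 b b.2 ((hF.ord.sm_eq_iff _ _).1 h1))
    · intro σ
      obtain ⟨c, -, hc⟩ := gal_sm h.prime.ne_zero hF.ord σ
      obtain ⟨a, ha, hca⟩ := hT.ex c (Full.c_ne h hF hc)
      refine ⟨⟨a, ha⟩, ?_⟩
      have h1 : ga (f ⟨a, ha⟩) P = ga σ P := by
        rw [hf, hc]
        exact ((hF.ord.sm_eq_iff _ _).2 hca).symm
      have h2 : ga (σ⁻¹ * f ⟨a, ha⟩) P = P := by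
        rw [ga_mul, h1, ← ga_mul, inv_mul_cancel, ga_one]
      exact (inv_mul_eq_one.1 (hF.gen _ h2)).symm
  rw [← Nat.card_eq_of_bijective f hbij]
  simp

/-- additive maps which come from isotypic elements kill the multiples of `ϖ` -/
theorem Iso.map_dvd {y : Nˣ} {A : 𝓞 K →+ El ℓ N} (hA : ∀ (σ : Gal(N/k)) (c : 𝓞 K),
    ga σ P = sm N c P → el ℓ (sg σ y) = A c) {c : 𝓞 K} (hc : ϖ ∣ c) : A c = 0 := by
  have h1 := hA 1 1 (elc_one h hF)
  have h2 := hA 1 (1 - c) (by rw [elc_cong h hF c hc]; exact elc_one h hF)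
  rw [h1, map_sub, eq_comm, sub_eq_self] at h2
  exact h2

theorem Iso.one : Iso k ℓ P (1 : Nˣ) := by
  refine ⟨0, fun σ c _ => ?_⟩
  have : MP_1a91b9_ntT.DB.sg σ (1 : Nˣ) = 1 := map_one _
  rw [this, el_one]
  rfl

theorem Iso.mul {a b : Nˣ} (ha : Iso k ℓ P a) (hb : Iso k ℓ P b) : Iso k ℓ P (a * b) := by
  obtain ⟨A, hA⟩ := ha
  obtain ⟨B, hB⟩ := hb
  refine ⟨AddMonoidHom.mk' (fun c => A c + B c) (fun x y => ?_), fun σ c hc => ?_⟩
  · rw [map_add, map_add]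
    exact add_add_add_comm _ _ _ _
  · rw [sg_mul, el_mul, hA σ c hc, hB σ c hc]
    rfl

theorem Iso.inv {a : Nˣ} (ha : Iso k ℓ P a) : Iso k ℓ P a⁻¹ := by
  obtain ⟨A, hA⟩ := ha
  refine ⟨AddMonoidHom.mk' (fun c => -A c) (fun x y => ?_), fun σ c hc => ?_⟩
  · rw [map_add]
    exact neg_add (α := El ℓ N) _ _
  · rw [sg_inv, el_inv, hA σ c hc]
    rfl

theorem Iso.pow_ell (a : Nˣ) : Iso k ℓ P (a ^ ℓ) := by
  refine ⟨0, fun σ c _ => ?_⟩
  rw [sg_pow, el_pow, nsmul_el]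
  rfl

theorem Iso.sg {a : Nˣ} (ha : Iso k ℓ P a) (σ : Gal(N/k)) : Iso k ℓ P (sg σ a) := by
  obtain ⟨A, hA⟩ := ha
  obtain ⟨d, -, hd⟩ := gal_sm h.prime.ne_zero hF.ord σ
  refine ⟨A.comp (AddMonoidHom.mulLeft d), fun τ c hc => ?_⟩
  rw [← sg_sg, hA (τ * σ) (d * c) (elc_mul h hF hc hd)]
  rfl

/-- the action of `σ_{-1}` -/
theorem Iso.neg_one {a : Nˣ} (ha : Iso k ℓ P a) {σ : Gal(N/k)} (hσ : ga σ P = sm N (-1) P) :
    ∃ z : Nˣ, MP_1a91b9_ntT.DB.sg σ a * a = z ^ ℓ := by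
  obtain ⟨A, hA⟩ := ha
  rw [← el_eq_zero, el_mul, hA σ (-1) hσ]
  have h1 := hA 1 1 (elc_one h hF)
  have h2 : MP_1a91b9_ntT.DB.sg (1 : Gal(N/k)) a = a := by
    apply Units.ext
    rfl
  rw [h2] at h1
  rw [h1, map_neg, neg_add_cancel]

theorem IsoPl.map_dvd {f : HeightOneSpectrum (𝓞 N) → ZMod ℓ} {w : HeightOneSpectrum (𝓞 N)}
    {H : 𝓞 K →+ ZMod ℓ} (hH : ∀ (σ : Gal(N/k)) (c : 𝓞 K), ga σ P = sm N c P →
      f (gpl σ w) = H c) {c : 𝓞 K} (hc : ϖ ∣ c) : H c = 0 := by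
  have h1 := hH 1 1 (elc_one h hF)
  have h2 := hH 1 (1 - c) (by rw [elc_cong h hF c hc]; exact elc_one h hF)
  rw [h1, map_sub, eq_comm, sub_eq_self] at h2
  exact h2

/-- if some place above is fixed by a nontrivial automorphism an isotypic function vanishes -/
theorem IsoPl.fix {f : HeightOneSpectrum (𝓞 N) → ZMod ℓ} (hf : IsoPl k ℓ P f)
    {w : HeightOneSpectrum (𝓞 N)} {σ : Gal(N/k)} (hσ : gpl σ w = w) (hσ1 : σ ≠ 1) : f w = 0 := by
  obtain ⟨c, -, hc⟩ := gal_sm h.prime.ne_zero hF.ord σ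
  obtain ⟨H, hH⟩ := hf w
  have hc1 : ¬ ϖ ∣ c - 1 := by
    intro hd
    apply hσ1
    apply hF.gen
    rw [hc, (hF.ord.sm_eq_iff c 1).2 hd, map_one]
    rfl
  obtain ⟨d, e, he⟩ := h.inv hc1
  have hd0 : ¬ ϖ ∣ d := by
    intro hd
    apply h.prime.not_isUnit
    apply isUnit_of_dvd_one
    have e1 : (1 : 𝓞 K) = (c - 1) * d - ϖ * e := by
      rw [← he]
      ring
    rw [e1]
    exact dvd_sub (hd.mul_left _) (dvd_mul_right _ _)
  obtain ⟨τ, hτ⟩ := hF.all d hd0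
  have h1 := hH τ d hτ
  have h2 := hH (τ * σ) (c * d) (elc_mul h hF hτ hc)
  rw [gpl_mul, hσ, h1] at h2
  have h3 : H ((c - 1) * d) = 0 := by
    have e1 : (c - 1) * d = c * d - d := by ring
    rw [e1, map_sub, ← h2, sub_self]
  have h4 : H (ϖ * e) = 0 := IsoPl.map_dvd h hF hH (dvd_mul_right _ _)
  have h5 : H 1 = 0 := by
    have e1 : (1 : 𝓞 K) = (c - 1) * d - ϖ * e := by
      rw [← he]
      ring
    rw [e1, map_sub, h3, h4, sub_self]
  have h6 := hH 1 1 (elc_one h hF)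
  rw [gpl_one, h5] at h6
  exact h6

/-- the orders of the conjugates of an isotypic element at a fixed place depend additively on `c` -/
theorem Iso.od_hom {a : Nˣ} (ha : Iso k ℓ P a) (w : HeightOneSpectrum (𝓞 N)) :
    ∃ H : 𝓞 K →+ ZMod ℓ, ∀ (σ : Gal(N/k)) (c : 𝓞 K), ga σ P = sm N c P →
      ((MP_1a91b9_ntT.DB.od w ((MP_1a91b9_ntT.DB.sg σ a : Nˣ) : N) : ℤ) : ZMod ℓ) = H c := by
  obtain ⟨A, hA⟩ := ha
  let O : Additive Nˣ →+ ZMod ℓ :=
    { toFun := fun y => ((MP_1a91b9_ntT.DB.od w ((Additive.toMul y : Nˣ) : N) : ℤ) : ZMod ℓ)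
      map_zero' := by
        show ((MP_1a91b9_ntT.DB.od w ((1 : Nˣ) : N) : ℤ) : ZMod ℓ) = 0
        rw [Units.val_one, od_one, Int.cast_zero]
      map_add' := fun x y => by
        show ((MP_1a91b9_ntT.DB.od w (((Additive.toMul x * Additive.toMul y : Nˣ)) : N) : ℤ) : ZMod ℓ) = _
        rw [Units.val_mul, od_mul w (Units.ne_zero _) (Units.ne_zero _), Int.cast_add] }
  have hO : (nsmulAddMonoidHom (α := Additive Nˣ) ℓ).range ≤ O.ker := by
    rintro _ ⟨y, rfl⟩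
    rw [AddMonoidHom.mem_ker]
    show O (ℓ • y) = 0
    rw [map_nsmul, nsmul_eq_mul, ZMod.natCast_self, zero_mul]
  refine ⟨(QuotientAddGroup.lift _ O hO).comp A, fun σ c hc => ?_⟩
  rw [AddMonoidHom.comp_apply, ← hA σ c hc]
  rfl

/-- if a nontrivial automorphism fixes the place `w`, the order at `w` of an isotypic element is
divisible by `ℓ` -/
theorem Iso.od_fix {a : Nˣ} (ha : Iso k ℓ P a) {w : HeightOneSpectrum (𝓞 N)} {σ : Gal(N/k)}
    (hσ : gpl σ w = w) (hσ1 : σ ≠ 1) : (ℓ : ℤ) ∣ MP_1a91b9_ntT.DB.od w (a : N) := by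
  obtain ⟨c, -, hc⟩ := gal_sm h.prime.ne_zero hF.ord σ
  obtain ⟨H, hH⟩ := Iso.od_hom h hF ha w
  have hone : ga (1 : Gal(N/k)) P = sm N 1 P := elc_one h hF
  have hdvd : ∀ x : 𝓞 K, ϖ ∣ x → H x = 0 := by
    intro x hx
    have e1 : sm N (1 - x) P = sm N 1 P := by
      refine (hF.ord.sm_eq_iff _ _).2 ?_
      have : (1 - x) - 1 = -x := by ring
      rw [this]
      exact (dvd_neg).2 hx
    have h1 := hH 1 1 hone
    have h2 := hH 1 (1 - x) (hone.trans e1.symm)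
    rw [map_sub] at h2
    rw [h1] at h2
    have h3 : H 1 = H 1 - H x := h2
    calc H x = H 1 - (H 1 - H x) := by ring
      _ = 0 := by rw [← h3, sub_self]
  have hc1 : ¬ ϖ ∣ c - 1 := by
    intro hd
    apply hσ1
    apply hF.gen
    rw [hc, (hF.ord.sm_eq_iff c 1).2 hd, map_one]
    rfl
  obtain ⟨d, e, he⟩ := h.inv hc1
  have hd0 : ¬ ϖ ∣ d := by
    intro hd
    apply h.prime.not_isUnit
    apply isUnit_of_dvd_one
    have e1 : (1 : 𝓞 K) = (c - 1) * d - ϖ * e := by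
      rw [← he]
      ring
    rw [e1]
    exact dvd_sub (hd.mul_left _) (dvd_mul_right _ _)
  obtain ⟨τ, hτ⟩ := hF.all d hd0
  have h1 := hH τ d hτ
  have h2 := hH (σ * τ) (d * c) (elc_mul h hF hc hτ)
  have h3 : MP_1a91b9_ntT.DB.od w ((MP_1a91b9_ntT.DB.sg (σ * τ) a : Nˣ) : N) = MP_1a91b9_ntT.DB.od w ((MP_1a91b9_ntT.DB.sg τ a : Nˣ) : N) := by
    rw [sg_sg, sg_coe]
    nth_rewrite 1 [← hσ]
    exact gpl_od σ w _
  rw [h3, h1] at h2
  have h4 : H ((c - 1) * d) = 0 := by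
    have e1 : (c - 1) * d = d * c - d := by ring
    rw [e1, map_sub, ← h2, sub_self]
  have h5 : H (ϖ * e) = 0 := hdvd _ (dvd_mul_right _ _)
  have h6 : H 1 = 0 := by
    have e1 : (1 : 𝓞 K) = (c - 1) * d - ϖ * e := by
      rw [← he]
      ring
    rw [e1, map_sub, h4, h5, sub_self]
  have h7 := hH 1 1 hone
  rw [h6] at h7
  exact (ZMod.intCast_zmod_eq_zero_iff_dvd _ _).1 h7

end

end

end Pool.Agent.Lib.MP_1a91b9_ntX.DB
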