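import Pool.Agent.Lib.MP_1a91b9_ntX.DB.Ram
import Pool.Agent.Lib.MP_1a91b9_ntT.DB.Ext

/-!
# The curves `y² = x³ + D`: the field generated over a number field by a point killed by a prime
element (port of MP_1a91b9_ntT/DB/Ext.lean)
-/

set_option autoImplicit false

namespace Pool.Agent.Lib.MP_1a91b9_ntX.DB

open NumberField IsDedekindDomain WeierstrassCurve Pool.Agent.Lib.MP_1a91b9_ntT

universe u

variable [DD]

theorem ext_point (Ω : Type u) [Field Ω] [Algebra K Ω] [IsAlgClosed Ω] [DecidableEq Ω]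
    {β : 𝓞 K} (hβ : Prime β) (hβ1 : (3 : 𝓞 K) ∣ β - 1) : ∃ R : Pt Ω, Ord β R := by
  obtain ⟨R, hR, -, -⟩ := MP_1a91b9_ntT.DB.ext_point Ω hβ hβ1
  obtain ⟨δ, h⟩ := IsAlgClosed.exists_pow_nat_eq (dD Ω / 16) (n := 6) (by norm_num)
  have h16 : (16 : Ω) ≠ 0 := by
    have : CharZero Ω := charZero_of_injective_algebraMap (algebraMap K Ω).injective
    norm_num
  have hδ : 16 * δ ^ 6 = dD Ω := by
    rw [h]
    field_simp
  exact ⟨phi Ω δ hδ R, (phi_ord hδ).2 hR⟩

private theorem exb_tower {k Ω : Type u} [Field k] [Algebra K k] [Field Ω] [Algebra K Ω]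
    [Algebra k Ω] [IsScalarTower K k Ω] (L : IntermediateField k Ω) : IsScalarTower K L Ω :=
  IsScalarTower.of_algebraMap_eq fun _ => rfl

/-- the subfield generated by the coordinates of a point -/
private theorem exb_mem {k Ω : Type u} [Field k] [Algebra K k] [Field Ω] [Algebra K Ω]
    [Algebra k Ω] [IsScalarTower K k Ω] [DecidableEq Ω] (L : IntermediateField k Ω)
    {R : Pt Ω} (hx : xc R ∈ L) (hy : yc R ∈ L) (c : 𝓞 K) :
    xc (sm Ω c R) ∈ L ∧ yc (sm Ω c R) ∈ L := by
  classical
  have hsc : IsScalarTower K L Ω := exb_tower L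
  let f : L →ₐ[K] Ω := IsScalarTower.toAlgHom K L Ω
  rcases cases_pt R with rfl | ⟨x, y, h, rfl⟩
  · rw [map_zero, xc_zero, yc_zero]
    exact ⟨L.zero_mem, L.zero_mem⟩
  · rw [xc_mk] at hx
    rw [yc_mk] at hy
    have h0 : (⟨y, hy⟩ : L) ^ 2 = (⟨x, hx⟩ : L) ^ 3 + dD L := Subtype.ext (by
      push_cast
      exact h)
    have e : pm f (mkPt (⟨x, hx⟩ : L) ⟨y, hy⟩ h0) = mkPt x y h := by
      obtain ⟨h', e'⟩ := pm_mk f (⟨x, hx⟩ : L) ⟨y, hy⟩ h0
      rw [e', mk_inj]
      exact ⟨rfl, rfl⟩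
    rw [← e, ← pm_sm, xc_pm, yc_pm]
    exact ⟨Subtype.property _, Subtype.property _⟩

/-- stability of the generated field under automorphisms over `k0` -/
private theorem exb_stable {k0 k Ω : Type u} [Field k0] [Algebra K k0] [Field k]
    [Algebra K k] [Algebra k0 k] [IsScalarTower K k0 k] [Normal k0 k] [Field Ω] [Algebra K Ω]
    [Algebra k Ω] [Algebra k0 Ω] [IsScalarTower K k Ω] [IsScalarTower K k0 Ω]
    [IsScalarTower k0 k Ω] [DecidableEq Ω] (g : Ω →ₐ[K] ℂ) {β : 𝓞 K} (hβ : β ≠ 0)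
    {R : Pt Ω} (hR : Ord β R) (σ : Ω ≃ₐ[k0] Ω) {z : Ω}
    (hz : z ∈ IntermediateField.adjoin k {xc R, yc R}) :
    σ z ∈ IntermediateField.adjoin k {xc R, yc R} := by
  have hxm : xc R ∈ IntermediateField.adjoin k {xc R, yc R} :=
    IntermediateField.subset_adjoin _ _ (by simp)
  have hym : yc R ∈ IntermediateField.adjoin k {xc R, yc R} :=
    IntermediateField.subset_adjoin _ _ (by simp)
  have hσR : sm Ω β (ga σ R) = 0 := ((Ord.ga σ hR) β).2 dvd_rfl
  obtain ⟨c, hc⟩ := ord_cases g hβ hR hσR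
  have hm := exb_mem (IntermediateField.adjoin k {xc R, yc R}) hxm hym c
  rw [← hc, xc_ga, yc_ga] at hm
  induction hz using IntermediateField.adjoin_induction with
  | mem z hz =>
    rcases hz with rfl | hz
    · exact hm.1
    · rw [Set.mem_singleton_iff] at hz
      rw [hz]
      exact hm.2
  | algebraMap x =>
    rw [← AlgEquiv.restrictNormal_commutes]
    exact IntermediateField.algebraMap_mem _ _
  | add x y hx hy h1 h2 => rw [map_add]; exact add_mem h1 h2
  | inv x hx h1 => rw [map_inv₀]; exact inv_mem h1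
  | mul x y hx hy h1 h2 => rw [map_mul]; exact mul_mem h1 h2

open scoped Classical in
/-- the field generated over `k` by a point with annihilator `(β)` -/
theorem exists_ext (k0 k : Type u) [Field k0] [NumberField k0] [Algebra K k0] [Field k]
    [NumberField k] [Algebra K k] [Algebra k0 k] [IsScalarTower K k0 k] [IsGalois k0 k]
    {β : 𝓞 K} (hβ : Prime β) (hβ1 : (3 : 𝓞 K) ∣ β - 1) :
    ∃ (L : Type u) (_ : Field L) (_ : NumberField L) (_ : Algebra K L) (_ : Algebra k0 L)
      (_ : Algebra k L) (_ : IsScalarTower K k0 L) (_ : IsScalarTower K k L)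
      (_ : IsScalarTower k0 k L), IsGalois k0 L ∧ IsGalois k L ∧
      ∃ R : Pt L, Ord β R ∧ ∀ σ : Gal(L/k), ga σ R = R → σ = 1 := by
  have hKk : Algebra.IsAlgebraic K k := by
    have : FiniteDimensional K k := Module.Finite.of_restrictScalars_finite ℚ K k
    exact Algebra.IsAlgebraic.of_finite K k
  have hk0k : Algebra.IsAlgebraic k0 k := by
    have h1 : Normal k0 k := IsGalois.to_normal
    exact h1.toIsAlgebraic
  have hT : IsScalarTower K k0 (AlgebraicClosure k) := by
    refine IsScalarTower.of_algebraMap_eq fun x => ?_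
    rw [IsScalarTower.algebraMap_apply K k (AlgebraicClosure k),
      IsScalarTower.algebraMap_apply k0 k (AlgebraicClosure k),
      IsScalarTower.algebraMap_apply K k0 k]
  have hKΩ : Algebra.IsAlgebraic K (AlgebraicClosure k) := Algebra.IsAlgebraic.trans K k _
  have hk0Ω : Algebra.IsAlgebraic k0 (AlgebraicClosure k) := Algebra.IsAlgebraic.trans k0 k _
  have hC : IsAlgClosure k0 (AlgebraicClosure k) := ⟨inferInstance, hk0Ω⟩
  have hN : Normal k0 (AlgebraicClosure k) := IsAlgClosure.normal k0 _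
  let g : AlgebraicClosure k →ₐ[K] ℂ := IsAlgClosed.lift
  obtain ⟨R, hR⟩ := ext_point (AlgebraicClosure k) hβ hβ1
  have hR0 : R ≠ 0 := by
    rintro rfl
    have h1 : β ∣ 1 := (hR 1).1 (map_zero _)
    exact hβ.not_isUnit (isUnit_of_dvd_one h1)
  obtain ⟨hE, hRe⟩ := exists_mk hR0
  set L0 : IntermediateField k (AlgebraicClosure k) :=
    IntermediateField.adjoin k {xc R, yc R} with hL0
  have hxm : xc R ∈ L0 := IntermediateField.subset_adjoin _ _ (by simp)
  have hym : yc R ∈ L0 := IntermediateField.subset_adjoin _ _ (by simp)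
  have hfin : FiniteDimensional k L0 := by
    refine IntermediateField.finiteDimensional_adjoin fun x _ => ?_
    exact (Algebra.IsAlgebraic.isAlgebraic (R := k) x).isIntegral
  have hNF : NumberField L0 := NumberField.of_module_finite k L0
  have t1 : IsScalarTower K k L0 := by
    refine IsScalarTower.of_algebraMap_eq fun x => Subtype.ext ?_
    exact IsScalarTower.algebraMap_apply K k (AlgebraicClosure k) x
  have t2 : IsScalarTower k0 k L0 := by
    refine IsScalarTower.of_algebraMap_eq fun x => Subtype.ext ?_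
    exact IsScalarTower.algebraMap_apply k0 k (AlgebraicClosure k) x
  have t3 : IsScalarTower K k0 L0 := by
    refine IsScalarTower.of_algebraMap_eq fun x => Subtype.ext ?_
    exact IsScalarTower.algebraMap_apply K k0 (AlgebraicClosure k) x
  have t4 : IsScalarTower K L0 (AlgebraicClosure k) := exb_tower L0
  have hNL : Normal k0 (L0.restrictScalars k0) := by
    rw [IntermediateField.normal_iff_forall_map_le']
    intro σ z hz
    rw [IntermediateField.mem_map] at hz
    obtain ⟨w, hw, rfl⟩ := hz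
    exact exb_stable g hβ.ne_zero hR σ hw
  have hNL' : Normal k0 L0 := hNL
  have hG0 : IsGalois k0 L0 := ⟨⟩
  have hG : IsGalois k L0 := IsGalois.tower_top_of_isGalois k0 k L0
  let dL : DecidableEq L0 := fun a b => Classical.propDecidable (a = b)
  refine ⟨L0, L0.toField, hNF, L0.algebra', L0.algebra', L0.algebra', t3, t1, t2, hG0, hG,
    ?_⟩
  have h0 : (⟨yc R, hym⟩ : L0) ^ 2 = (⟨xc R, hxm⟩ : L0) ^ 3 + dD L0 := Subtype.ext (by
    push_cast
    exact hE)
  refine ⟨mkPt (⟨xc R, hxm⟩ : L0) ⟨yc R, hym⟩ h0, ?_, ?_⟩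
  · rw [← Ord.map (IsScalarTower.toAlgHom K L0 (AlgebraicClosure k))]
    obtain ⟨h', e'⟩ := pm_mk (IsScalarTower.toAlgHom K L0 (AlgebraicClosure k))
      (⟨xc R, hxm⟩ : L0) ⟨yc R, hym⟩ h0
    rw [e']
    have e2 : mkPt ((IsScalarTower.toAlgHom K L0 (AlgebraicClosure k)) ⟨xc R, hxm⟩)
      ((IsScalarTower.toAlgHom K L0 (AlgebraicClosure k)) ⟨yc R, hym⟩) h' = R := by
      refine (mk_inj.2 ⟨rfl, rfl⟩ : _ = mkPt (xc R) (yc R) hE).trans hRe.symm
    rw [e2]
    exact hR
  · intro σ hσ
    have hx := congrArg xc hσ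
    have hy := congrArg yc hσ
    rw [xc_ga, xc_mk] at hx
    rw [yc_ga, yc_mk] at hy
    have key : (σ : L0 →ₐ[k] L0) = AlgHom.id k L0 := by
      refine IntermediateField.algHom_ext_of_eq_adjoin k hL0 ?_
      intro z hz
      rcases hz with rfl | hz
      · exact hx
      · rw [Set.mem_singleton_iff] at hz
        subst hz
        exact hy
    ext z
    exact congrArg Subtype.val (DFunLike.congr_fun key z)

end Pool.Agent.Lib.MP_1a91b9_ntX.DB
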