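import Pool.Agent.Lib.MP_1a91b9_ntX.DB.Defs
import Pool.Agent.Lib.MP_1a91b9_ntT.DB.Om

/-!
# The action of `𝓞 K` on the points of `y² = x³ + D` (port of MP_1a91b9_ntT/DB/Om.lean)
-/

set_option autoImplicit false

namespace Pool.Agent.Lib.MP_1a91b9_ntX.DB

open NumberField IsDedekindDomain WeierstrassCurve Pool.Agent.Lib.MP_1a91b9_ntT

export Pool.Agent.Lib.MP_1a91b9_ntT.DB (omF omF_quad omF_cube omF_ne_one omF_ne_zero sqrt_neg_three)

noncomputable section

variable [DD]

section
variable (F : Type*) [Field F] [Algebra K F]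

variable [DecidableEq F]

private theorem oma_add (f : Pt F → Pt F) (hf0 : f 0 = 0)
    (hf : ∀ (x y : F) (h : y ^ 2 = x ^ 3 + dD F) (h' : y ^ 2 = (omF F * x) ^ 3 + dD F),
      f (mkPt x y h) = mkPt (omF F * x) y h') (P Q : Pt F) : f (P + Q) = f P + f Q := by
  have hc := omF_cube F
  have h0 := omF_ne_zero F
  have hcv : ∀ x y : F, y ^ 2 = x ^ 3 + dD F → y ^ 2 = (omF F * x) ^ 3 + dD F := by
    intro x y h
    linear_combination h - x ^ 3 * hc
  rcases cases_pt P with rfl | ⟨x₁, y₁, h₁, rfl⟩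
  · rw [zero_add, hf0, zero_add]
  rcases cases_pt Q with rfl | ⟨x₂, y₂, h₂, rfl⟩
  · rw [add_zero, hf0, add_zero]
  rw [hf x₁ y₁ h₁ (hcv _ _ h₁), hf x₂ y₂ h₂ (hcv _ _ h₂)]
  by_cases hx : x₁ = x₂
  · subst hx
    have hneg : y₂ = -y₁ → f (mkPt x₁ y₁ h₁ + mkPt x₁ y₂ h₂) =
        mkPt (omF F * x₁) y₁ (hcv _ _ h₁) + mkPt (omF F * x₁) y₂ (hcv _ _ h₂) := by
      intro e
      rw [mk_add_neg h₁ h₂ e, mk_add_neg _ _ e, hf0]
    have hy : (y₁ - y₂) * (y₁ + y₂) = 0 := by linear_combination h₁ - h₂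
    rcases mul_eq_zero.1 hy with hy | hy
    · have hy' : y₁ = y₂ := sub_eq_zero.1 hy
      subst hy'
      by_cases h2y : y₁ = 0
      · exact hneg (by linear_combination 2 * h2y)
      · obtain ⟨h', e⟩ := mk_dbl x₁ y₁ h₁ h2y
        obtain ⟨h'', e'⟩ := mk_dbl (omF F * x₁) y₁ (hcv _ _ h₁) h2y
        have hm : 3 * (omF F * x₁) ^ 2 / (2 * y₁)
            = omF F ^ 2 * (3 * x₁ ^ 2 / (2 * y₁)) := by ring
        rw [e, e', hf _ _ h' (hcv _ _ h'), mk_inj, hm]
        set m := 3 * x₁ ^ 2 / (2 * y₁)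
        constructor
        · linear_combination (-omF F * m ^ 2) * hc
        · linear_combination (m ^ 3 * (omF F ^ 3 + 1) - 3 * m * x₁) * hc
    · exact hneg (by linear_combination hy)
  · have hx' : omF F * x₁ ≠ omF F * x₂ := fun h => hx (mul_left_cancel₀ h0 h)
    have hd : x₁ - x₂ ≠ 0 := sub_ne_zero.2 hx
    obtain ⟨h', e⟩ := mk_add x₁ y₁ x₂ y₂ h₁ h₂ hx
    obtain ⟨h'', e'⟩ := mk_add (omF F * x₁) y₁ (omF F * x₂) y₂ (hcv _ _ h₁) (hcv _ _ h₂) hx'
    have hm : (y₁ - y₂) / (omF F * x₁ - omF F * x₂) = omF F ^ 2 * ((y₁ - y₂) / (x₁ - x₂)) := by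
      have hd' : (y₁ - y₂) / (x₁ - x₂) * (x₁ - x₂) = y₁ - y₂ := div_mul_cancel₀ _ hd
      rw [← mul_sub, div_eq_iff (mul_ne_zero h0 hd)]
      linear_combination (-omF F ^ 3) * hd' - (y₁ - y₂) * hc
    rw [e, e', hf _ _ h' (hcv _ _ h'), mk_inj, hm]
    set m := (y₁ - y₂) / (x₁ - x₂)
    constructor
    · linear_combination (-omF F * m ^ 2) * hc
    · linear_combination (m ^ 3 * (omF F ^ 3 + 1) - m * x₂ - 2 * m * x₁) * hc

/-- the automorphism `(x, y) ↦ (om x, y)` -/
def omH : Pt F →+ Pt F where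
  toFun P := match P with
    | .zero => 0
    | .some x y h => mkPt (omF F * x) y (by
        have h1 := (nons_iff x y).1 h
        linear_combination h1 - x ^ 3 * omF_cube F)
  map_zero' := rfl
  map_add' := by
    refine oma_add F (fun P => match P with
      | .zero => 0
      | .some x y h => mkPt (omF F * x) y (by
          have h1 := (nons_iff x y).1 h
          linear_combination h1 - x ^ 3 * omF_cube F)) ?_ ?_
    · rfl
    · intro x y h h'
      rfl

end

section
variable {F : Type*} [Field F] [Algebra K F] [DecidableEq F]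

theorem xc_omH (P : Pt F) : xc (omH F P) = omF F * xc P := by
  rcases cases_pt P with rfl | ⟨x, y, h, rfl⟩
  · rw [map_zero, xc_zero, mul_zero]
  · rfl

theorem yc_omH (P : Pt F) : yc (omH F P) = yc P := by
  rcases cases_pt P with rfl | ⟨x, y, h, rfl⟩
  · rw [map_zero]
  · rfl

theorem omH_quad (P : Pt F) : omH F (omH F P) + omH F P + P = 0 := by
  have hc := omF_cube F
  have hq := omF_quad F
  have h0 := omF_ne_zero F
  rcases cases_pt P with rfl | ⟨x, y, h, rfl⟩
  · rw [map_zero, map_zero, add_zero, add_zero]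
  have h1 : y ^ 2 = (omF F * x) ^ 3 + dD F := by linear_combination h - x ^ 3 * hc
  have h2 : y ^ 2 = (omF F * (omF F * x)) ^ 3 + dD F := by
    linear_combination h - x ^ 3 * (omF F ^ 3 + 1) * hc
  have e1 : omH F (mkPt x y h) = mkPt (omF F * x) y h1 := rfl
  have e2 : omH F (mkPt (omF F * x) y h1) = mkPt (omF F * (omF F * x)) y h2 := rfl
  rw [e1, e2]
  suffices hs : mkPt (omF F * (omF F * x)) y h2 + mkPt (omF F * x) y h1 = -mkPt x y h by
    rw [hs, neg_add_cancel]
  rw [neg_mk]
  by_cases hx : x = 0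
  · subst hx
    have h2y : y ≠ 0 := by
      intro h3
      rw [h3] at h
      exact dD_ne (F := F) (by linear_combination -h)
    have e3 : mkPt (omF F * (omF F * 0)) y h2 = mkPt 0 y h := by
      rw [mk_inj]
      exact ⟨by ring, rfl⟩
    have e4 : mkPt (omF F * 0) y h1 = mkPt 0 y h := by
      rw [mk_inj]
      exact ⟨by ring, rfl⟩
    obtain ⟨h', e⟩ := mk_dbl 0 y h h2y
    rw [e3, e4, e, mk_inj]
    constructor
    · simp
    · simp
  · have hne : omF F * (omF F * x) ≠ omF F * x := by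
      intro h3
      have h4 := mul_left_cancel₀ h0 h3
      have h5 : (omF F - 1) * x = 0 := by linear_combination h4
      rcases mul_eq_zero.1 h5 with h6 | h6
      · exact omF_ne_one F (sub_eq_zero.1 h6)
      · exact hx h6
    obtain ⟨h', e⟩ := mk_add (omF F * (omF F * x)) y (omF F * x) y h2 h1 hne
    rw [e, mk_inj, sub_self, zero_div]
    constructor
    · linear_combination (-x) * hq
    · ring

end

private theorem omb_unique (m n m' n' : ℤ) (h : (m : K) + n * om = m' + n' * om) :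
    m = m' ∧ n = n' := by
  have hn : n = n' := by
    by_contra hne
    have h1 : ((n : K) - n') ≠ 0 := by
      intro h2
      apply hne
      have h3 : (n : K) = n' := sub_eq_zero.1 h2
      exact_mod_cast h3
    have h2 : om = (((m' - m : ℚ) / (n - n') : ℚ) : K) := by
      push_cast
      rw [eq_div_iff h1]
      linear_combination h
    have h3 := S3.om_quad
    rw [h2] at h3
    have h4 : ((m' - m : ℚ) / (n - n')) ^ 2 + (m' - m : ℚ) / (n - n') + 1 = 0 := by
      exact_mod_cast h3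
    nlinarith [sq_nonneg (2 * ((m' - m : ℚ) / (n - n')) + 1)]
  refine ⟨?_, hn⟩
  rw [hn] at h
  have h5 : (m : K) = m' := by linear_combination h
  exact_mod_cast h5

/-- the first coordinate of an element of `𝓞 K` -/
def omb_m (a : 𝓞 K) : ℤ := (S3.exists_coords a).choose

/-- the second coordinate of an element of `𝓞 K` -/
def omb_n (a : 𝓞 K) : ℤ := (S3.exists_coords a).choose_spec.choose

private theorem omb_spec (a : 𝓞 K) : (a : K) = omb_m a + omb_n a * om :=
  (S3.exists_coords a).choose_spec.choose_spec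

private theorem omb_eq (a : 𝓞 K) (m n : ℤ) (h : (a : K) = m + n * om) :
    omb_m a = m ∧ omb_n a = n :=
  omb_unique _ _ _ _ ((omb_spec a).symm.trans h)

/-- the action of one element -/
def omb_fun (F : Type*) [Field F] [Algebra K F] [DecidableEq F] (a : 𝓞 K) :
    AddMonoid.End (Pt F) :=
  (omb_m a • (AddMonoidHom.id (Pt F)) + omb_n a • omH F : Pt F →+ Pt F)

private theorem omb_fun_apply (F : Type*) [Field F] [Algebra K F] [DecidableEq F] (a : 𝓞 K)
    (P : Pt F) : omb_fun F a P = omb_m a • P + omb_n a • omH F P := rfl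

private theorem omb_fun_coords (F : Type*) [Field F] [Algebra K F] [DecidableEq F] (a : 𝓞 K)
    (m n : ℤ) (h : (a : K) = m + n * om) (P : Pt F) :
    omb_fun F a P = m • P + n • omH F P := by
  obtain ⟨h1, h2⟩ := omb_eq a m n h
  rw [omb_fun_apply, h1, h2]

private theorem omb_coe_add (a b : 𝓞 K) : ((a + b : 𝓞 K) : K) = (a : K) + (b : K) :=
  map_add (algebraMap (𝓞 K) K) a b

private theorem omb_coe_mul (a b : 𝓞 K) : ((a * b : 𝓞 K) : K) = (a : K) * (b : K) :=
  map_mul (algebraMap (𝓞 K) K) a b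

private theorem omb_fun_one (F : Type*) [Field F] [Algebra K F] [DecidableEq F] :
    omb_fun F 1 = 1 := by
  refine AddMonoidHom.ext fun P => ?_
  have h : ((1 : 𝓞 K) : K) = ((1 : ℤ) : K) + ((0 : ℤ) : K) * om := by
    push_cast
    rw [zero_mul, add_zero]
  refine (omb_fun_coords F 1 1 0 h P).trans ?_
  rw [one_smul, zero_smul, add_zero]
  rfl

private theorem omb_fun_zero (F : Type*) [Field F] [Algebra K F] [DecidableEq F] :
    omb_fun F 0 = 0 := by
  refine AddMonoidHom.ext fun P => ?_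
  have h : ((0 : 𝓞 K) : K) = ((0 : ℤ) : K) + ((0 : ℤ) : K) * om := by
    push_cast
    rw [zero_mul, add_zero]
  refine (omb_fun_coords F 0 0 0 h P).trans ?_
  rw [zero_smul, zero_smul, add_zero]
  rfl

private theorem omb_fun_add (F : Type*) [Field F] [Algebra K F] [DecidableEq F] (a b : 𝓞 K) :
    omb_fun F (a + b) = omb_fun F a + omb_fun F b := by
  refine AddMonoidHom.ext fun P => ?_
  have h : ((a + b : 𝓞 K) : K) =
      ((omb_m a + omb_m b : ℤ) : K) + ((omb_n a + omb_n b : ℤ) : K) * om := by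
    rw [omb_coe_add]
    push_cast
    linear_combination omb_spec a + omb_spec b
  refine (omb_fun_coords F (a + b) _ _ h P).trans ?_
  change _ = omb_fun F a P + omb_fun F b P
  rw [omb_fun_apply, omb_fun_apply, add_smul, add_smul]
  abel

private theorem omb_fun_mul (F : Type*) [Field F] [Algebra K F] [DecidableEq F] (a b : 𝓞 K) :
    omb_fun F (a * b) = omb_fun F a * omb_fun F b := by
  refine AddMonoidHom.ext fun P => ?_
  have h : ((a * b : 𝓞 K) : K) =
      ((omb_m a * omb_m b - omb_n a * omb_n b : ℤ) : K) +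
      ((omb_m a * omb_n b + omb_n a * omb_m b - omb_n a * omb_n b : ℤ) : K) * om := by
    rw [omb_coe_mul, omb_spec a, omb_spec b]
    push_cast
    linear_combination (omb_n a : K) * omb_n b * S3.om_quad
  refine (omb_fun_coords F (a * b) _ _ h P).trans ?_
  change _ = omb_fun F a (omb_fun F b P)
  rw [omb_fun_apply, omb_fun_apply, map_add, map_zsmul, map_zsmul]
  have hq : omH F (omH F P) = -omH F P - P := by
    have h1 := omH_quad P
    rw [add_assoc] at h1
    rw [eq_neg_of_add_eq_zero_left h1]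
    abel
  rw [hq]
  module

/-- the action of `𝓞 K` on the points -/
def sm (F : Type*) [Field F] [Algebra K F] [DecidableEq F] : 𝓞 K →+* AddMonoid.End (Pt F) where
  toFun := omb_fun F
  map_one' := omb_fun_one F
  map_mul' := omb_fun_mul F
  map_zero' := omb_fun_zero F
  map_add' := omb_fun_add F

/-- the action in coordinates -/
theorem omb_apply {F : Type*} [Field F] [Algebra K F] [DecidableEq F] (a : 𝓞 K)
    (m n : ℤ) (h : (a : K) = m + n * om) (P : Pt F) :
    sm F a P = m • P + n • omH F P := omb_fun_coords F a m n h P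

private theorem omb_pm_omH {F F' : Type*} [Field F] [Algebra K F] [DecidableEq F] [Field F']
    [Algebra K F'] [DecidableEq F'] (f : F →ₐ[K] F') (P : Pt F) :
    pm f (omH F P) = omH F' (pm f P) := by
  have hom : f (omF F) = omF F' := by
    rw [omF, omF, AlgHom.commutes]
  rcases cases_pt P with rfl | ⟨x, y, h, rfl⟩
  · rw [map_zero, map_zero, map_zero]
  · have h1 : y ^ 2 = (omF F * x) ^ 3 + dD F := by linear_combination h - x ^ 3 * omF_cube F
    have e1 : omH F (mkPt x y h) = mkPt (omF F * x) y h1 := rfl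
    obtain ⟨h2, e2⟩ := pm_mk f (omF F * x) y h1
    obtain ⟨h3, e3⟩ := pm_mk f x y h
    have h4 : f y ^ 2 = (omF F' * f x) ^ 3 + dD F' := by
      linear_combination h3 - (f x) ^ 3 * omF_cube F'
    have e4 : omH F' (mkPt (f x) (f y) h3) = mkPt (omF F' * f x) (f y) h4 := rfl
    rw [e1, e2, e3, e4, mk_inj, map_mul, hom]
    exact ⟨rfl, rfl⟩

section
variable {F F' : Type*} [Field F] [Algebra K F] [DecidableEq F] [Field F'] [Algebra K F']
  [DecidableEq F']

theorem sm_om (P : Pt F) : sm F S3.omO P = omH F P := by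
  have h : (S3.omO : K) = ((0 : ℤ) : K) + ((1 : ℤ) : K) * om := by
    rw [S3.coe_omO]
    push_cast
    ring
  rw [omb_apply _ 0 1 h, zero_smul, one_smul, zero_add]

theorem sm_int (n : ℤ) (P : Pt F) : sm F (n : 𝓞 K) P = n • P := by
  have h : (((n : ℤ) : 𝓞 K) : K) = (n : K) + ((0 : ℤ) : K) * om := by
    push_cast
    rw [zero_mul, add_zero]
    exact map_intCast (algebraMap (𝓞 K) K) n
  rw [omb_apply _ n 0 h, zero_smul, add_zero]

theorem sm_nat (n : ℕ) (P : Pt F) : sm F (n : 𝓞 K) P = n • P := by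
  have h := sm_int (F := F) (n : ℤ) P
  rw [natCast_zsmul] at h
  rw [← h]
  congr 2

theorem pm_sm (f : F →ₐ[K] F') (a : 𝓞 K) (P : Pt F) : pm f (sm F a P) = sm F' a (pm f P) := by
  obtain ⟨m, n, h⟩ := S3.exists_coords a
  rw [omb_apply a m n h, omb_apply a m n h, map_add, map_zsmul, map_zsmul, omb_pm_omH]

end

end

end Pool.Agent.Lib.MP_1a91b9_ntX.DB
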