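import Pool.Agent.Lib.MP_1a91b9_ntT.DB.Base
import Pool.Agent.Lib.MP_1a91b9_ntX.DB.Om

/-!
# Names of MP_1a91b9_ntT/DB which do not depend on the curve
-/

set_option autoImplicit false

namespace Pool.Agent.Lib.MP_1a91b9_ntX.DB

export Pool.Agent.Lib.MP_1a91b9_ntT.DB (dv dv_apply CC finite_cc tauD tauD_apply tauD_dv tauC
  tauC_single tauC_mul naka exists_fun
  exists_kummer not_pow_up dvd_nrm spl_of_pow rc_of_princ exists_place
  IsRes
  El el el_surj el_mul el_one el_inv el_zpow el_pow el_prod el_eq_zero el_eq nsmul_el zsmul_el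
  el_coprime pow_coprime sg sg_coe sg_mul sg_pow sg_inv sg_sg WLoc
  mem_all_integral
  od od_one od_mul od_inv od_pow od_zpow od_prod val_eq val_lt_one_iff val_le_one_iff
  val_eq_one_iff val_le_val_iff od_eq_ord od_finite exists_od_one exists_unit_of_od
  exists_val_lt_of_int od_map ramIdx_pos val_map_lt val_map_le val_map_eq gpl gpl_val gpl_od
  gpl_mul gpl_one gpl_under gpl_trans od_norm
  exists_emb res_field raD_gpl raD_val
  exists_prim
  PrincZero autZ_res od_gen thaine
  exists_isRes isRes_deg1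
  Deg1 Deg1.exists_int Deg1.dvd_int_iff Deg1.isPrime Deg1.mod_three Deg1.seven_le
  TrD exists_trD TrD.zero TrD.sum_zero TrD.reindex lin_tr exists_primgen
  charpoly_eq det_quad card_le_of_det count_abs
  inf_places log_dom minkowski unit_norm unit_rank
  v_int_le v_nat_le v_om v_alg_le)

end Pool.Agent.Lib.MP_1a91b9_ntX.DB
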