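import Pool.Agent.Lib.MP_1a91b9_ntX.DB.FrobU
import Pool.Agent.Lib.MP_1a91b9_ntX.OF.FrobA

/-!
# The curves `y² = x³ + D`: the Frobenius acts on torsion as the Hecke character

PROOF. `frob`: `L` from `exists_delta_ext k N`, `δ`; `W'` above `W`, `τ` from `lift_frob_norm`. `P' = (phi L δ hδ).symm (pm P)`, killed by `γ` for the old curve (`phi_sm`).
`OF.frob_all`: `ga τ P' = sm (S4.psi k v) P'`. `τ δ` : `(τ δ)^6 = δ^6` (`D/16` is rational), so `τ δ = z δ`, `z^6 = 1`, `z = ` image of a unit `u1` of `𝓞 K`;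
`z = δ^(N v - 1)` modulo `W'` (`δ` is a unit at `W'`: `v_delta`; `τ δ - δ^(N v)` has `W' < 1` (approximate `δ` by an integer)), and
`δ^(N v - 1) = (D/16)^((N v - 1)/6)`, `(4 D)^((N v - 1)/6) = (D/16)^(..) 2^(N v - 1)`, `2^(N v - 1) = 1` modulo `v`. So `u1 = u` (`psi_sym`, `unit_inj`).
`pm (ga σ P) = ga τ (pm P) = ga τ (phi δ P') = phi (τ δ) (ga τ P')` (`phi_pm` with `f = τ`) `= phi (u δ) (sm (u psi) P')` and by `phi_unit`
`= sm u⁻¹ (phi δ (sm (u psi) P')) = sm psi (phi δ P')`. `pm_inj`.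
`frob_psi`: `frob` with `γ = n`. `exists_frobW`: an automorphism as in `frob` exists for every place (`CF.exists_fr`).
-/

set_option autoImplicit false

namespace Pool.Agent.Lib.MP_1a91b9_ntX.DB

open NumberField IsDedekindDomain WeierstrassCurve Pool.Agent.Lib.MP_1a91b9_ntT

universe u


section
variable {F : Type*} [Field F] [Algebra K F]

/-- a sixth root of unity is a unit of `𝓞 K` -/
private theorem Frob_unit {z : F} (hz : z ^ 6 = 1) :
    ∃ u : (𝓞 K)ˣ, algebraMap K F ((u : 𝓞 K) : K) = z := by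
  have ho2 : (S3.omO : 𝓞 K) ^ 2 + S3.omO + 1 = 0 := by
    apply RingOfIntegers.ext
    have h := S3.om_quad
    exact h
  have ho3 : (S3.omO : 𝓞 K) * S3.omO ^ 2 = 1 := by linear_combination (S3.omO - 1) * ho2
  let w : (𝓞 K)ˣ := ⟨S3.omO, S3.omO ^ 2, ho3, by rw [mul_comm]; exact ho3⟩
  have hw : ((w : 𝓞 K) : K) = om := S3.coe_omO
  have hq := MP_1a91b9_ntT.DB.omF_quad F
  have hwF : algebraMap K F ((w : 𝓞 K) : K) = MP_1a91b9_ntT.DB.omF F := by
    rw [hw]; rfl
  have hw2F : algebraMap K F (((w ^ 2 : (𝓞 K)ˣ) : 𝓞 K) : K) = MP_1a91b9_ntT.DB.omF F ^ 2 := by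
    rw [← hwF, ← map_pow]
    rfl
  have hneg : ∀ u : (𝓞 K)ˣ, algebraMap K F (((-u : (𝓞 K)ˣ) : 𝓞 K) : K) =
      -algebraMap K F ((u : 𝓞 K) : K) := by
    intro u
    rw [← map_neg]
    rfl
  have h1F : algebraMap K F (((1 : (𝓞 K)ˣ) : 𝓞 K) : K) = 1 := by
    rw [← map_one (algebraMap K F)]
    rfl
  set o := MP_1a91b9_ntT.DB.omF F with ho
  have hprod : (z - 1) * ((z + 1) * ((z - o) * ((z - o ^ 2) * ((z + o) * (z + o ^ 2))))) = 0 := by
    have hc : o ^ 3 = 1 := MP_1a91b9_ntT.DB.omF_cube F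
    have e1 : (z - o) * (z - o ^ 2) = z ^ 2 + z + 1 := by
      linear_combination hc - z * hq
    have e2 : (z + o) * (z + o ^ 2) = z ^ 2 - z + 1 := by
      linear_combination hc + z * hq
    have e3 : (z - 1) * ((z + 1) * ((z - o) * ((z - o ^ 2) * ((z + o) * (z + o ^ 2))))) =
        (z - 1) * (z + 1) * ((z - o) * (z - o ^ 2)) * ((z + o) * (z + o ^ 2)) := by ring
    rw [e3, e1, e2]
    linear_combination hz
  rcases mul_eq_zero.1 hprod with h | h
  · exact ⟨1, by rw [h1F]; exact (sub_eq_zero.1 h).symm⟩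
  rcases mul_eq_zero.1 h with h | h
  · exact ⟨-1, by rw [hneg, h1F]; exact (eq_neg_of_add_eq_zero_left h).symm⟩
  rcases mul_eq_zero.1 h with h | h
  · exact ⟨w, by rw [hwF]; exact (sub_eq_zero.1 h).symm⟩
  rcases mul_eq_zero.1 h with h | h
  · exact ⟨w ^ 2, by rw [hw2F]; exact (sub_eq_zero.1 h).symm⟩
  rcases mul_eq_zero.1 h with h | h
  · exact ⟨-w, by rw [hneg, hwF]; exact (eq_neg_of_add_eq_zero_left h).symm⟩
  · exact ⟨-w ^ 2, by rw [hneg, hw2F]; exact (eq_neg_of_add_eq_zero_left h).symm⟩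

end

/-- Fermat in the residue field of a place -/
private theorem Frob_fermat {k : Type u} [Field k] [NumberField k] (v : HeightOneSpectrum (𝓞 k))
    (y : 𝓞 k) : y - y ^ Ideal.absNorm v.asIdeal ∈ v.asIdeal := by
  classical
  have i1 : v.asIdeal.IsMaximal := v.isMaximal
  let _ : Field (𝓞 k ⧸ v.asIdeal) := Ideal.Quotient.field _
  have i2 : Finite (𝓞 k ⧸ v.asIdeal) := Ideal.finiteQuotientOfFreeOfNeBot _ v.ne_bot
  let _ : Fintype (𝓞 k ⧸ v.asIdeal) := Fintype.ofFinite _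
  have h1 : Fintype.card (𝓞 k ⧸ v.asIdeal) = Ideal.absNorm v.asIdeal := by
    rw [← Nat.card_eq_fintype_card]
    rfl
  rw [← Ideal.Quotient.eq_zero_iff_mem, map_sub, map_pow, ← h1, FiniteField.pow_card, sub_self]

/-- congruent integral elements have congruent powers -/
private theorem Frob_pow {F : Type*} [Field F] {Γ : Type*} [LinearOrderedCommGroupWithZero Γ]
    (v : Valuation F Γ) {a b : F} (ha : v a ≤ 1) (hb : v b ≤ 1) (h : v (a - b) < 1) (n : ℕ) :
    v (a ^ n - b ^ n) < 1 := by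
  induction n with
  | zero => simp
  | succ n ih =>
    have e : a ^ (n + 1) - b ^ (n + 1) = a * (a ^ n - b ^ n) + (a - b) * b ^ n := by ring
    rw [e]
    refine Valuation.map_add_lt _ ?_ ?_
    · rw [map_mul]
      exact (mul_le_of_le_one_left zero_le ha).trans_lt ih
    · rw [map_mul, map_pow]
      exact (mul_le_of_le_one_right zero_le (pow_le_one₀ zero_le hb)).trans_lt h

/-- the Frobenius on integral elements -/
private theorem Frob_frob {k N : Type u} [Field k] [NumberField k] [Field N] [NumberField N]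
    [Algebra k N] (w : HeightOneSpectrum (𝓞 N)) (σ : Gal(N/k)) {q : ℕ} (hq : 0 < q)
    (hσ : ∀ x : 𝓞 N, σ • x - x ^ q ∈ w.asIdeal) {a : N} (ha : w.valuation N a ≤ 1) :
    w.valuation N (a ^ q - σ a) < 1 := by
  obtain ⟨x, hx⟩ := exists_val_lt_of_int w ha 1
  have hx1 : w.valuation N (a - (x : N)) < 1 := by
    refine hx.trans_lt ?_
    rw [← WithZero.exp_zero, WithZero.exp_lt_exp]
    norm_num
  have hxi : w.valuation N (x : N) ≤ 1 := w.valuation_le_one x
  have hgp : gpl σ⁻¹ w = w := by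
    apply HeightOneSpectrum.ext
    have hle : w.asIdeal ≤ (gpl σ⁻¹ w).asIdeal := by
      intro y hy
      change (σ⁻¹)⁻¹ • y ∈ w.asIdeal
      rw [inv_inv]
      have h1 := hσ y
      have h2 : y ^ q ∈ w.asIdeal := Ideal.pow_mem_of_mem _ hy q hq
      have h3 := Ideal.add_mem _ h1 h2
      rwa [sub_add_cancel] at h3
    exact (w.isMaximal.eq_of_le (gpl σ⁻¹ w).isPrime.ne_top hle).symm
  have hgp' : gpl σ w = w := by
    have h1 := gpl_mul σ σ⁻¹ w
    rw [mul_inv_cancel, gpl_one, hgp] at h1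
    exact h1.symm
  have hvσ : ∀ y : N, w.valuation N (σ y) = w.valuation N y := by
    intro y
    have h1 := gpl_val σ w y
    rw [hgp'] at h1
    exact h1
  have hE : w.valuation N (((σ • x : 𝓞 N) : N) - (x : N) ^ q) < 1 := by
    have h1 := (w.valuation_lt_one_iff_mem (K := N) (σ • x - x ^ q)).2 (hσ x)
    exact h1
  have hx2 : ((σ • x : 𝓞 N) : N) = σ (x : N) := rfl
  have hG := Frob_pow (w.valuation N) ha hxi hx1 q
  have e : a ^ q - σ a = (a ^ q - (x : N) ^ q) +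
      (-(((σ • x : 𝓞 N) : N) - (x : N) ^ q) + -σ (a - (x : N))) := by
    rw [map_sub, hx2]
    ring
  rw [e]
  have hI : w.valuation N (-σ (a - (x : N))) < 1 := by
    rw [Valuation.map_neg, hvσ]
    exact hx1
  rw [← Valuation.map_neg] at hE
  exact Valuation.map_add_lt _ hG (Valuation.map_add_lt _ hE hI)

private theorem Frob_under {k N L : Type u} [Field k] [NumberField k] [Field N] [NumberField N]
    [Field L] [NumberField L] [Algebra k N] [Algebra k L] [Algebra N L] [IsScalarTower k N L]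
    (W : HeightOneSpectrum (𝓞 L)) : (W.under (𝓞 N)).under (𝓞 k) = W.under (𝓞 k) := by
  apply HeightOneSpectrum.ext
  exact Ideal.under_under W.asIdeal

variable [DD] [HC]

section
variable {k N : Type u} [Field k] [NumberField k] [Algebra K k] [Field N] [NumberField N]
  [Algebra K N] [Algebra k N] [IsScalarTower K k N] [DecidableEq N] [IsGalois k N]

/-- the Frobenius at a place `w` prime to `6 D` acts as `ψ` on the points killed by `γ` prime to
`w` -/
theorem frob (w : HeightOneSpectrum (𝓞 N)) (hb : w.valuation N (bD N) = 1) (σ : Gal(N/k))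
    (hσ : ∀ x : 𝓞 N, σ • x - x ^ (Ideal.absNorm (w.under (𝓞 k)).asIdeal) ∈ w.asIdeal)
    {γ : 𝓞 K} (hγ : w.valuation N (algebraMap K N (γ : K)) = 1) {P : Pt N}
    (hP : sm N γ P = 0) : ga σ P = sm N (psi k (w.under (𝓞 k)).asIdeal) P := by
  classical
  obtain ⟨L, iL1, iL2, iL3, iL4, iL5, iL6, iL7, iL8, hG1, hG2, δ, hδ⟩ := exists_delta_ext k N
  have hcast : algebraMap N L (bD N) = bD L := map_intCast _ _
  obtain ⟨W, hW⟩ := CF.exists_over (k := N) (N := L) w
  have hWk : W.under (𝓞 k) = w.under (𝓞 k) := by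
    rw [← hW]
    exact (Frob_under (k := k) (N := N) W).symm
  obtain ⟨τ, hτ1, hτ2⟩ := OF.lift_frob_norm (k := k) (N := N) W σ (by
    rw [hWk, hW]
    exact hσ)
  obtain ⟨m, hm⟩ : ∃ m, m = Ideal.absNorm (w.under (𝓞 k)).asIdeal := ⟨_, rfl⟩
  have hm0 : 0 < m := by
    rw [hm, Nat.pos_iff_ne_zero, Ne, Ideal.absNorm_eq_zero_iff]
    exact (w.under (𝓞 k)).ne_bot
  -- the valuation at `W`
  obtain ⟨v, hv⟩ : ∃ v, v = W.valuation L := ⟨_, rfl⟩
  have hmap : ∀ a : N, v (algebraMap N L a) = 1 ↔ w.valuation N a = 1 := by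
    intro a
    rw [hv, val_map_eq (k := N) W a, hW]
  have hbL : v (bD L) = 1 := by
    rw [← hcast]
    exact (hmap _).2 hb
  have hint : ∀ n : ℤ, v ((n : ℤ) : L) ≤ 1 := by
    intro n
    have h1 := W.valuation_le_one (K := L) ((n : ℤ) : 𝓞 L)
    rw [← hv] at h1
    have e : algebraMap (𝓞 L) L ((n : ℤ) : 𝓞 L) = (n : L) := map_intCast (algebraMap (𝓞 L) L) n
    rw [← e]
    exact h1
  have hprod : ∀ a b : ℤ, v ((a * b : ℤ) : L) = 1 → v ((a : ℤ) : L) = 1 := by
    intro a b h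
    rw [Int.cast_mul, map_mul] at h
    refine le_antisymm (hint a) ?_
    by_contra hc
    have h1 : v ((a : ℤ) : L) * v ((b : ℤ) : L) < 1 :=
      (mul_le_of_le_one_right zero_le (hint b)).trans_lt (not_le.1 hc)
    rw [h] at h1
    exact lt_irrefl _ h1
  have h6 : v (6 : L) = 1 := by
    have h := hprod 6 DD.D hbL
    exact_mod_cast h
  have h3 : v (3 : L) = 1 := by
    have h := hprod 3 2 (by exact_mod_cast h6)
    exact_mod_cast h
  have h2 : v (2 : L) = 1 := by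
    have h := hprod 2 3 (by exact_mod_cast h6)
    exact_mod_cast h
  have hvδ : v δ = 1 := v_delta hδ v hbL
  have hδ0 : δ ≠ 0 := delta_ne L hδ
  -- the old curve
  let f : N →ₐ[K] L := IsScalarTower.toAlgHom K N L
  obtain ⟨P', hP'⟩ : ∃ P', phi L δ hδ P' = pm f P := (phi L δ hδ).surjective _
  have hP0 : MP_1a91b9_ntT.DB.sm L γ P' = 0 := by
    apply (phi L δ hδ).injective
    rw [phi_sm, hP', ← pm_sm, hP, map_zero, map_zero]
  have hγL : W.valuation L (algebraMap K L (γ : K)) = 1 := by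
    rw [← hv, IsScalarTower.algebraMap_apply K N L]
    exact (hmap _).2 hγ
  have key := OF.frob_all (k := k) (N := L) W (by rw [← hv]; exact h3) τ hτ2 hγL hP0
  rw [hWk] at key
  -- the unit
  obtain ⟨u, hu1, hu2, hu3⟩ := psi_sym (k := k) (w.under (𝓞 k)) (by
    have h1 := (val_map_eq (k := k) (L := N) w (bD k)).1
    rw [map_intCast] at h1
    exact h1 hb)
  rw [← hm] at hu1 hu3
  have hτδ : v (δ ^ m - τ δ) < 1 := by
    rw [hv]
    refine Frob_frob W τ hm0 ?_ ?_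
    · intro x
      have h := hτ2 x
      rwa [hWk, ← hm] at h
    · rw [← hv, hvδ]
  have hτ6 : 16 * (τ δ) ^ 6 = dD L := delta_map hδ ((τ : L →ₐ[k] L).restrictScalars K)
  have h16 : (16 : L) ≠ 0 := by norm_num
  obtain ⟨u1, hu1z⟩ := Frob_unit (F := L) (z := τ δ / δ) (by
    rw [div_pow, div_eq_one_iff_eq (pow_ne_zero 6 hδ0)]
    exact mul_left_cancel₀ h16 (hτ6.trans hδ.symm))
  have hzδ : algebraMap K L ((u1 : 𝓞 K) : K) * δ = τ δ := by
    rw [hu1z, div_mul_cancel₀ _ hδ0]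
  have huu : u1 = u := by
    refine unit_inj v h6 u1 u ?_
    obtain ⟨j, hj⟩ : ∃ j, j = (m - 1) / 6 := ⟨_, rfl⟩
    have hmj : m = 6 * j + 1 := by omega
    rw [← hj] at hu1
    -- `u = (4 D) ^ j` modulo `W`
    have e1 : v (algebraMap K L ((u : 𝓞 K) : K) - (4 * dD L) ^ j) < 1 := by
      have h1 := (val_map_lt (k := k) (L := L) W _).2 (by rw [hWk]; exact hu1)
      rw [← hv] at h1
      rw [map_sub, map_pow, map_mul, map_intCast, map_ofNat,
        ← IsScalarTower.algebraMap_apply K k L] at h1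
      exact h1
    -- `δ ^ (6 j) = z` modulo `W`
    have e2 : v (δ ^ (6 * j) - algebraMap K L ((u1 : 𝓞 K) : K)) < 1 := by
      have h1 : v ((δ ^ (6 * j) - algebraMap K L ((u1 : 𝓞 K) : K)) * δ) < 1 := by
        rw [sub_mul, hzδ, ← pow_succ, ← hmj]
        exact hτδ
      rwa [map_mul, hvδ, mul_one] at h1
    -- `2 ^ (6 j) = 1` modulo `W`
    have e3 : v (1 - (2 : L) ^ (6 * j)) < 1 := by
      have h1 : v ((2 : L) - 2 ^ m) < 1 := by
        have h4 := Frob_fermat (w.under (𝓞 k)) (2 : 𝓞 k)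
        rw [← hm, ← (w.under (𝓞 k)).valuation_lt_one_iff_mem (K := k), ← hWk,
          ← val_map_lt (k := k) (L := L) W, ← hv] at h4
        have e : algebraMap k L (algebraMap (𝓞 k) k (2 - 2 ^ m)) = 2 - 2 ^ m := by
          rw [map_sub, map_pow, map_ofNat, map_sub, map_pow, map_ofNat]
        rw [← e]
        exact h4
      have h4 : v ((2 : L) * (1 - 2 ^ (6 * j))) < 1 := by
        have e : (2 : L) * (1 - 2 ^ (6 * j)) = 2 - 2 ^ m := by
          rw [hmj, pow_succ]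
          ring
        rw [e]
        exact h1
      rwa [map_mul, h2, one_mul] at h4
    have e4 : (4 * dD L) ^ j = δ ^ (6 * j) * 2 ^ (6 * j) := by
      rw [← hδ, pow_mul, pow_mul, ← mul_pow]
      congr 1
      ring
    have e5 : v (δ ^ (6 * j) * (1 - (2 : L) ^ (6 * j))) < 1 := by
      rw [map_mul, map_pow, hvδ, one_pow, one_mul]
      exact e3
    have e6 : algebraMap K L ((u1 : 𝓞 K) : K) - algebraMap K L ((u : 𝓞 K) : K) =
        -(δ ^ (6 * j) - algebraMap K L ((u1 : 𝓞 K) : K)) +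
        (δ ^ (6 * j) * (1 - (2 : L) ^ (6 * j)) +
          -(algebraMap K L ((u : 𝓞 K) : K) - (4 * dD L) ^ j)) := by
      rw [e4]
      ring
    rw [e6]
    refine Valuation.map_add_lt _ ?_ (Valuation.map_add_lt _ e5 ?_)
    · rw [Valuation.map_neg]
      exact e2
    · rw [Valuation.map_neg]
      exact e1
  subst huu
  -- the transport
  let τK : L →ₐ[K] L := ((τ : L →ₐ[k] L).restrictScalars K)
  have hpsi := hu2
  have c1 : pm f (ga σ P) = pm τK (pm f P) := by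
    have hx : ∀ x : N, f (σ x) = τK (f x) := fun x => (hτ1 x).symm
    rcases cases_pt P with rfl | ⟨x, y, h, rfl⟩
    · rw [map_zero, map_zero, map_zero]
    · obtain ⟨a1, b1⟩ := pm_mk ((σ : N →ₐ[k] N).restrictScalars K) x y h
      obtain ⟨a2, b2⟩ := pm_mk f _ _ a1
      obtain ⟨a3, b3⟩ := pm_mk f x y h
      obtain ⟨a4, b4⟩ := pm_mk τK _ _ a3
      rw [ga, b1, b2, b3, b4, mk_inj]
      exact ⟨hx x, hx y⟩
  apply pm_inj f
  rw [c1, ← hP', phi_pm hδ τK P']
  have c2 : MP_1a91b9_ntT.DB.pm τK P' =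
      MP_1a91b9_ntT.DB.sm L (S4.psi k (w.under (𝓞 k)).asIdeal) P' := key
  have c3 : ∀ (δ' : L) (h' : 16 * δ' ^ 6 = dD L) (hh : δ' = algebraMap K L ((u1 : 𝓞 K) : K) * δ)
      (Q : MP_1a91b9_ntT.DB.Pt L), phi L δ' h' Q =
      phi L (algebraMap K L ((u1 : 𝓞 K) : K) * δ) (delta_unit hδ u1) Q := by
    intro δ' h' hh Q
    subst hh
    rfl
  rw [c2, c3 (τK δ) _ hzδ.symm, phi_sm, ← hpsi, mul_comm, map_mul]
  change sm L (psi k (w.under (𝓞 k)).asIdeal) (sm L (u1 : 𝓞 K) _) = _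
  rw [phi_unit hδ, hP', ← pm_sm]

theorem frob_psi (w : HeightOneSpectrum (𝓞 N)) (hb : w.valuation N (bD N) = 1) (σ : Gal(N/k))
    (hσ : ∀ x : 𝓞 N, σ • x - x ^ (Ideal.absNorm (w.under (𝓞 k)).asIdeal) ∈ w.asIdeal)
    {n : ℕ} (hn : w.valuation N (n : N) = 1) {P : Pt N} (hP : n • P = 0) :
    ga σ P = sm N (psi k (w.under (𝓞 k)).asIdeal) P := by
  refine frob w hb σ hσ (γ := (n : 𝓞 K)) ?_ ?_
  · have e : (((n : 𝓞 K)) : K) = (n : K) := map_natCast (algebraMap (𝓞 K) K) n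
    rw [e, map_natCast]
    exact hn
  · rw [sm_nat]
    exact hP

omit [DD] [HC] [Algebra K k] [Algebra K N] [IsScalarTower K k N] [DecidableEq N] in
theorem exists_frobW (w : HeightOneSpectrum (𝓞 N)) : ∃ σ : Gal(N/k),
    (∀ x : 𝓞 N, σ • x - x ^ (Ideal.absNorm (w.under (𝓞 k)).asIdeal) ∈ w.asIdeal) ∧
    gpl σ w = w := by
  obtain ⟨σ, hσ⟩ := CF.exists_fr (k := k) w
  have hm0 : 0 < Ideal.absNorm (w.under (𝓞 k)).asIdeal := by
    rw [Nat.pos_iff_ne_zero, Ne, Ideal.absNorm_eq_zero_iff]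
    exact (w.under (𝓞 k)).ne_bot
  have hσ' : ∀ x : 𝓞 N, σ • x - x ^ (Ideal.absNorm (w.under (𝓞 k)).asIdeal) ∈ w.asIdeal := by
    intro x
    have h := hσ x
    rwa [MP_1a91b9_nt.nrm_eq] at h
  refine ⟨σ, hσ', ?_⟩
  have hgp : gpl σ⁻¹ w = w := by
    apply HeightOneSpectrum.ext
    have hle : w.asIdeal ≤ (gpl σ⁻¹ w).asIdeal := by
      intro y hy
      change (σ⁻¹)⁻¹ • y ∈ w.asIdeal
      rw [inv_inv]
      have h1 := hσ' y
      have h2 : y ^ (Ideal.absNorm (w.under (𝓞 k)).asIdeal) ∈ w.asIdeal :=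
        Ideal.pow_mem_of_mem _ hy _ hm0
      have h3 := Ideal.add_mem _ h1 h2
      rwa [sub_add_cancel] at h3
    exact (w.isMaximal.eq_of_le (gpl σ⁻¹ w).isPrime.ne_top hle).symm
  have h1 := gpl_mul σ σ⁻¹ w
  rw [mul_inv_cancel, gpl_one, hgp] at h1
  exact h1.symm

end

end Pool.Agent.Lib.MP_1a91b9_ntX.DB
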