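import Pool.Agent.Lib.MP_1a91b9_ntX.DB.Ext
import Pool.Agent.Lib.MP_1a91b9_ntX.HD

/-!
# The Hecke characters of `y² = x³ + D` and of `y² + y = x³`

PROOF.
`unit_inj`: the units are `± om^i`; `u - u'` for `u ≠ u'` divides `6` in `𝓞 K` (`(u'⁻¹ u) = z` with `z ^ 6 = 1`, `z ≠ 1`: `z - 1` is a root of
`((X + 1)^6 - 1)/X`, constant term `6`, so `z - 1 ∣ 6`), and `v 6 = 1`, `v` of elements of `𝓞 K` is `≤ 1` (`v_alg_le`).
`psi_sym`: `P = v ∩ K`, `q = N P`, `f` the inertia degree, `N v = q^f`, `psi k v = ps P ^ f` (`psi_pow`), `S4.psi k v = β^f` with `β` the generator of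
`P` congruent to `1` modulo `3` (`S4.psiK_span`, `S4.exists_gen`, `Ideal.relNorm_eq_pow_of_isMaximal`). `HDat.sym`: `u_P - (4 D)^((q-1)/6) ∈ P`, `3 ∣ u_P ps P - 1`, and
`(u_P ps P) = P` (`ps_span`), so `u_P ps P = β` (`S4.psiK_unique`). Put `u = u_P ^ f`. `(q^f - 1)/6 = ((q-1)/6)(1 + q + .. + q^(f-1))`
(`6 ∣ q - 1`: `P` is prime to `6`: the six units are distinct modulo `P`, a subgroup of order `6` of `(𝓞 K/P)ˣ`; or norms are `1` modulo `3` and odd), so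
`(4 D)^((N v - 1)/6) = u_P^(1 + q + ..) = u_P^f` modulo `P` (`u_P^6 = 1`, `q = 1` modulo `6`).
-/

set_option autoImplicit false

namespace Pool.Agent.Lib.MP_1a91b9_ntX.DB

open NumberField IsDedekindDomain WeierstrassCurve Pool.Agent.Lib.MP_1a91b9_ntT

universe u

private theorem frobU_six (u : (𝓞 K)ˣ) : u ^ 6 = 1 := by
  have h := IsCyclotomicExtension.Rat.Three.Units.mem om_spec u
  obtain ⟨η, hη⟩ : ∃ η : (𝓞 K)ˣ, η =
    (IsPrimitiveRoot.isUnit (om_spec.toInteger_isPrimitiveRoot) (by decide)).unit := ⟨_, rfl⟩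
  rw [← hη] at h
  have h3 : η ^ 3 = 1 := by
    ext
    rw [Units.val_pow_eq_pow_val, hη, IsUnit.unit_spec, om_spec.toInteger_cube_eq_one,
      Units.val_one]
  have h6 : η ^ 6 = 1 := by
    rw [show 6 = 3 * 2 by rfl, pow_mul, h3, one_pow]
  simp only [List.mem_cons, List.not_mem_nil, or_false] at h
  rcases h with h | h | h | h | h | h
  · rw [h, one_pow]
  · rw [h, Even.neg_pow (by decide), one_pow]
  · rw [h, h6]
  · rw [h, Even.neg_pow (by decide), h6]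
  · rw [h, ← pow_mul, mul_comm, pow_mul, h6, one_pow]
  · rw [h, Even.neg_pow (by decide), ← pow_mul, mul_comm, pow_mul, h6, one_pow]

/-- the six units are distinct at a place prime to `6` -/
theorem unit_inj {F : Type*} [Field F] [Algebra K F] {Γ : Type*}
    [LinearOrderedCommGroupWithZero Γ] (v : Valuation F Γ) (h6 : v (6 : F) = 1) (u u' : (𝓞 K)ˣ)
    (h : v (algebraMap K F ((u : 𝓞 K) : K) - algebraMap K F ((u' : 𝓞 K) : K)) < 1) :
    u = u' := by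
  classical
  by_contra hne
  obtain ⟨z, hz⟩ : ∃ z : (𝓞 K)ˣ, z = u'⁻¹ * u := ⟨_, rfl⟩
  have hz6 : (z : 𝓞 K) ^ 6 = 1 := by
    have h1 := congrArg (Units.val) (frobU_six z)
    rwa [Units.val_pow_eq_pow_val, Units.val_one] at h1
  have hz1 : (z : 𝓞 K) - 1 ≠ 0 := by
    intro h1
    apply hne
    have h2 : z = 1 := Units.ext (by rw [Units.val_one]; exact sub_eq_zero.1 h1)
    rw [hz, inv_mul_eq_one] at h2
    exact h2.symm
  have hS : (z : 𝓞 K) ^ 5 + z ^ 4 + z ^ 3 + z ^ 2 + z + 1 = 0 := by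
    have h1 : ((z : 𝓞 K) - 1) * ((z : 𝓞 K) ^ 5 + z ^ 4 + z ^ 3 + z ^ 2 + z + 1) = 0 := by
      linear_combination hz6
    exact (mul_eq_zero.1 h1).resolve_left hz1
  have h6' : (6 : 𝓞 K) = -((u' : (𝓞 K)ˣ)⁻¹ : (𝓞 K)ˣ) * ((z : 𝓞 K) ^ 4 + 2 * z ^ 3 + 3 * z ^ 2 + 4 * z + 5) *
      ((u : 𝓞 K) - u') := by
    have h1 : ((u' : (𝓞 K)ˣ)⁻¹ : (𝓞 K)ˣ) * ((u : 𝓞 K) - u') = (z : 𝓞 K) - 1 := by
      rw [mul_sub, Units.inv_mul, hz, Units.val_mul]
    linear_combination hS + ((z : 𝓞 K) ^ 4 + 2 * z ^ 3 + 3 * z ^ 2 + 4 * z + 5) * h1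
  have h7 := congrArg (fun y : 𝓞 K => algebraMap K F (y : K)) h6'
  simp only [map_mul, map_sub] at h7
  have h8 : algebraMap K F (((6 : 𝓞 K)) : K) = 6 := by
    have e1 : ((6 : 𝓞 K) : K) = 6 := map_ofNat (algebraMap (𝓞 K) K) 6
    rw [e1, map_ofNat]
  rw [h8, ← map_mul, ← map_mul] at h7
  rw [h7, map_mul] at h6
  exact absurd h6 (ne_of_lt
    (lt_of_le_of_lt (mul_le_of_le_one_left' (MP_1a91b9_ntT.DB.v_alg_le v _)) h))

private theorem frobU_geom (q e : ℕ) (hq : q = 1 + 6 * e) (f : ℕ) :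
    ∃ s, q ^ f = 1 + 6 * (e * s) ∧ s % 6 = f % 6 := by
  induction f with
  | zero => exact ⟨0, by simp, rfl⟩
  | succ f ih =>
    obtain ⟨s, hs, hsm⟩ := ih
    refine ⟨s + 1 + 6 * (e * s), ?_, by omega⟩
    rw [pow_succ, hs, hq]
    ring

private theorem frobU_card (p : HeightOneSpectrum (𝓞 K)) (h2 : (2 : 𝓞 K) ∉ p.asIdeal)
    (h3 : (3 : 𝓞 K) ∉ p.asIdeal) : ∃ e, Ideal.absNorm p.asIdeal = 1 + 6 * e := by
  classical
  have i1 : p.asIdeal.IsMaximal := p.isMaximal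
  let _ : Field (𝓞 K ⧸ p.asIdeal) := Ideal.Quotient.field _
  have i2 : Finite (𝓞 K ⧸ p.asIdeal) := Ideal.finiteQuotientOfFreeOfNeBot _ p.ne_bot
  obtain ⟨η, hη⟩ : ∃ η : 𝓞 K, η = om_spec.toInteger := ⟨_, rfl⟩
  have hη2 : η ^ 2 + η + 1 = 0 := by rw [hη]; exact S4.omO_eq
  have hη3 : η ^ 3 = 1 := by linear_combination (η - 1) * hη2
  obtain ⟨x, hx⟩ : ∃ x : 𝓞 K ⧸ p.asIdeal, x = Ideal.Quotient.mk p.asIdeal (-η) := ⟨_, rfl⟩
  have hx6 : x ^ 6 = 1 := by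
    rw [hx, ← map_pow, show (-η) ^ 6 = 1 by linear_combination (η ^ 3 + 1) * hη3, map_one]
  have hx2 : x ^ 2 ≠ 1 := by
    intro h
    have h5 : η ^ 2 - 1 ∈ p.asIdeal := by
      rw [← Ideal.Quotient.eq_zero_iff_mem, map_sub, map_one, sub_eq_zero,
        show η ^ 2 = (-η) ^ 2 by ring, map_pow, ← hx]
      exact h
    apply h3
    have e1 : (3 : 𝓞 K) = (η - 1) * (η ^ 2 - 1) := by linear_combination -hη3 + hη2
    rw [e1]
    exact Ideal.mul_mem_left _ _ h5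
  have hx3 : x ^ 3 ≠ 1 := by
    intro h
    have h5 : (-η) ^ 3 - 1 ∈ p.asIdeal := by
      rw [← Ideal.Quotient.eq_zero_iff_mem, map_sub, map_one, sub_eq_zero, map_pow, ← hx]
      exact h
    apply h2
    have e1 : (2 : 𝓞 K) = -((-η) ^ 3 - 1) := by linear_combination -hη3
    rw [e1]
    exact (Ideal.neg_mem_iff _).2 h5
  have hx0 : x ≠ 0 := by
    rintro h
    rw [h] at hx6
    simp at hx6
  have hord : orderOf (Units.mk0 x hx0) = 6 := by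
    refine orderOf_eq_of_pow_and_pow_div_prime (by norm_num) ?_ ?_
    · exact Units.ext (by rw [Units.val_pow_eq_pow_val, Units.val_mk0, Units.val_one]; exact hx6)
    · intro r hr hr6 hcon
      have h7 := congrArg Units.val hcon
      rw [Units.val_pow_eq_pow_val, Units.val_mk0, Units.val_one] at h7
      have h8 : r ∣ 2 * 3 := hr6
      rcases (Nat.Prime.dvd_mul hr).1 h8 with h9 | h9
      · rw [(Nat.prime_dvd_prime_iff_eq hr Nat.prime_two).1 h9] at h7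
        exact hx3 h7
      · rw [(Nat.prime_dvd_prime_iff_eq hr Nat.prime_three).1 h9] at h7
        exact hx2 h7
  have hdvd : 6 ∣ Nat.card (𝓞 K ⧸ p.asIdeal)ˣ := by
    rw [← hord]
    exact orderOf_dvd_natCard _
  rw [Nat.card_units] at hdvd
  have hcard : Nat.card (𝓞 K ⧸ p.asIdeal) = Ideal.absNorm p.asIdeal := rfl
  rw [hcard] at hdvd
  have hpos : 0 < Ideal.absNorm p.asIdeal := by
    rw [Nat.pos_iff_ne_zero, Ne, Ideal.absNorm_eq_zero_iff]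
    exact p.ne_bot
  obtain ⟨e, he⟩ := hdvd
  exact ⟨e, by omega⟩

variable [DD] [HC]

/-- the character of `y² = x³ + D` and that of `y² + y = x³` -/
theorem psi_sym {k : Type u} [Field k] [NumberField k] [Algebra K k]
    (v : HeightOneSpectrum (𝓞 k)) (hb : v.valuation k (bD k) = 1) : ∃ u : (𝓞 K)ˣ,
    v.valuation k (algebraMap K k ((u : 𝓞 K) : K) -
      (4 * dD k) ^ ((Ideal.absNorm v.asIdeal - 1) / 6)) < 1 ∧
    (u : 𝓞 K) * psi k v.asIdeal = S4.psi k v.asIdeal ∧ 6 ∣ Ideal.absNorm v.asIdeal - 1 := by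
  classical
  obtain ⟨p, hp⟩ : ∃ p, p = v.under (𝓞 K) := ⟨_, rfl⟩
  have hmem : ∀ b : 𝓞 K, b ∈ p.asIdeal → v.valuation k (algebraMap K k (b : K)) < 1 := by
    intro b hb'
    rw [hp] at hb'
    have h2 : algebraMap (𝓞 K) (𝓞 k) b ∈ v.asIdeal := hb'
    have h3 := (v.valuation_lt_one_iff_mem (K := k) (algebraMap (𝓞 K) (𝓞 k) b)).2 h2
    have e : ((algebraMap (𝓞 K) (𝓞 k) b : 𝓞 k) : k) = algebraMap K k (b : K) := rfl
    rw [← e]
    exact h3
  have hc : ∀ n : ℤ, algebraMap K k (((n : ℤ) : 𝓞 K) : K) = (n : k) := by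
    intro n
    have e1 : (((n : ℤ) : 𝓞 K) : K) = (n : K) := map_intCast (algebraMap (𝓞 K) K) n
    rw [e1, map_intCast]
  have h6D : ((6 * DD.D : ℤ) : 𝓞 K) ∉ p.asIdeal := by
    intro h
    have h1 := hmem _ h
    rw [hc, hb] at h1
    exact lt_irrefl _ h1
  have h2p : (2 : 𝓞 K) ∉ p.asIdeal := by
    intro h
    apply h6D
    have e : ((6 * DD.D : ℤ) : 𝓞 K) = ((3 * DD.D : ℤ) : 𝓞 K) * 2 := by push_cast; ring
    rw [e]
    exact Ideal.mul_mem_left _ _ h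
  have h3p : (3 : 𝓞 K) ∉ p.asIdeal := by
    intro h
    apply h6D
    have e : ((6 * DD.D : ℤ) : 𝓞 K) = ((2 * DD.D : ℤ) : 𝓞 K) * 3 := by push_cast; ring
    rw [e]
    exact Ideal.mul_mem_left _ _ h
  obtain ⟨uP, hu1, hu2⟩ := HC.hd.sym p h6D
  have hspan := ps_span p h6D
  obtain ⟨β, hβ⟩ : ∃ β : 𝓞 K, β = (uP : 𝓞 K) * HC.ps p.asIdeal := ⟨_, rfl⟩
  have hβ1 : (3 : 𝓞 K) ∣ β - 1 := by rw [hβ]; exact hu2
  have hβs : Ideal.span {β} = p.asIdeal := by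
    refine Eq.trans ?_ hspan
    rw [hβ, Ideal.span_singleton_eq_span_singleton]
    exact ⟨uP⁻¹, by rw [mul_comm, ← mul_assoc, Units.inv_mul, one_mul]⟩
  have hum : p.asIdeal.IsMaximal := p.isMaximal
  have hvm : v.asIdeal.IsMaximal := v.isMaximal
  have hlo : v.asIdeal.LiesOver p.asIdeal := ⟨by rw [hp]; rfl⟩
  obtain ⟨f, hf⟩ : ∃ f, f = v.asIdeal.inertiaDeg (𝓞 K) := ⟨_, rfl⟩
  have hrel : Ideal.relNorm (𝓞 K) v.asIdeal = p.asIdeal ^ f := by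
    rw [hf]
    exact Ideal.relNorm_eq_pow_of_isMaximal v.asIdeal p.asIdeal
  have hnrm : Ideal.absNorm p.asIdeal ^ f = Ideal.absNorm v.asIdeal := by
    rw [hf]
    exact Ideal.absNorm_pow_inertiaDeg p.asIdeal v.asIdeal
  have hpow : (3 : 𝓞 K) ∣ β ^ f - 1 := by
    have h1 := sub_dvd_pow_sub_pow β 1 f
    rw [one_pow] at h1
    exact hβ1.trans h1
  have hS4 : S4.psi k v.asIdeal = β ^ f := by
    rw [S4.psi, hrel, ← hβs, Ideal.span_singleton_pow, S4.psiK_span _ hpow]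
  have hpsi : psi k v.asIdeal = HC.ps p.asIdeal ^ f := by
    rw [psi_pow, hf, hp]
  obtain ⟨e, he⟩ := frobU_card p h2p h3p
  obtain ⟨s, hs, hsm⟩ := frobU_geom (Ideal.absNorm p.asIdeal) e he f
  refine ⟨uP ^ f, ?_, ?_, ?_⟩
  · have e1 : (Ideal.absNorm v.asIdeal - 1) / 6 = e * s := by
      rw [← hnrm, hs]
      omega
    have e2 : (Ideal.absNorm p.asIdeal - 1) / 6 = e := by
      rw [he]
      omega
    rw [e2] at hu1
    have e3 : uP ^ f = uP ^ s := by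
      rw [← Nat.div_add_mod f 6, ← Nat.div_add_mod s 6, hsm, pow_add, pow_add, pow_mul, pow_mul,
        frobU_six, one_pow, one_pow]
    have e4 : (uP : 𝓞 K) ^ s - (((4 * DD.D : ℤ) : 𝓞 K) ^ e) ^ s ∈ p.asIdeal :=
      Ideal.mem_of_dvd _ (sub_dvd_pow_sub_pow _ _ _) hu1
    have e5 := hmem _ e4
    rw [e1, e3]
    have e6 : algebraMap K k ((((uP : 𝓞 K) ^ s - (((4 * DD.D : ℤ) : 𝓞 K) ^ e) ^ s : 𝓞 K)) : K) =
        algebraMap K k (((uP ^ s : (𝓞 K)ˣ) : 𝓞 K) : K) - (4 * dD k) ^ (e * s) := by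
      have e7 : algebraMap K k ((((4 * DD.D : ℤ) : 𝓞 K)) : K) = 4 * dD k := by
        rw [hc]; push_cast; rfl
      let c : 𝓞 K →+* k := (algebraMap K k).comp (algebraMap (𝓞 K) K)
      have e8 : c ((4 * DD.D : ℤ) : 𝓞 K) = 4 * dD k := e7
      change c ((uP : 𝓞 K) ^ s - (((4 * DD.D : ℤ) : 𝓞 K) ^ e) ^ s) =
        c ((uP ^ s : (𝓞 K)ˣ) : 𝓞 K) - (4 * dD k) ^ (e * s)
      rw [map_sub, map_pow, map_pow, map_pow, e8, ← pow_mul, Units.val_pow_eq_pow_val, map_pow]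
    rw [← e6]
    exact e5
  · rw [hS4, hpsi, hβ, mul_pow, Units.val_pow_eq_pow_val]
  · rw [← hnrm, hs]
    exact ⟨e * s, by omega⟩

end Pool.Agent.Lib.MP_1a91b9_ntX.DB
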