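import Pool.Agent.Lib.MP_1a91b9_ntX.DB.PhiA

/-!
# The isomorphism of `y² + y = x³` and `y² = x³ + D`: properties

PROOF. `tc_phi`: `P = 0` trivial (`xc 0 = 0`), else `xc_phi`, `yc_phi` (`δ ≠ 0`: `delta_ne`).
`phi_omH`: `cases_pt`; abscissa times `om`, same ordinate. `phi_sm`: `omb_apply` of both curves (coordinates `S3.exists_coords`), `map_add`, `map_zsmul`,
`phi_omH`. `phi_pm`: `cases_pt`. `phi_unit`: `u^3 = e` with `e = 1` or `-1` (`u^6 = 1`; the units of `𝓞 K` are `± om^i`, see `S4.unit_eq_one` and its proof, or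
`IsCyclotomicExtension.Rat.Three.Units.mem`): for `u = ± om^i` compute: `phi (u δ) P = (4 u^2 δ^2 x, 4 u^3 δ^3 (2 y + 1))`, `sm u` multiplies the abscissa by
`om^i` and the ordinate by `±1`.
`phi_ker`: `v (4 δ^2) = 1` (`v_delta`, `v_two`), `phi P = 0` iff `P = 0`, `xc_phi`. `phi_ord`: `phi_sm`, injectivity, `MP_1a91b9_ntT.DB.Ord` unfolded.
`v_delta`: `v (16 δ^6) = v D = 1` (`v_dD`), `v 2 = 1` (`v_two`), so `v δ ^ 6 = 1`, `v δ = 1`.
`v_tc_phi`: `tc_phi`; `v (2 y + 1) = v y` for `P` in the kernel (`1 < v y`, `v 2 = 1`: `v (2 y) > 1 = v 1`), `tc P = -x/y`.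
-/

set_option autoImplicit false

namespace Pool.Agent.Lib.MP_1a91b9_ntX.DB

open NumberField IsDedekindDomain WeierstrassCurve Pool.Agent.Lib.MP_1a91b9_ntT

noncomputable section

variable [DD]

section
variable {F F' : Type*} [Field F] [Algebra K F] [DecidableEq F] [Field F'] [Algebra K F']
  [DecidableEq F'] {δ : F} (hδ : 16 * δ ^ 6 = dD F)

private theorem Phi_mk {x y : F} (h : y ^ 2 + y = x ^ 3) :
    phi F δ hδ (MP_1a91b9_ntT.DB.mkPt x y h) =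
      mkPt (4 * δ ^ 2 * x) (4 * δ ^ 3 * (2 * y + 1)) (phi_eqn F hδ h) := rfl

private theorem Phi_zero_iff (P : MP_1a91b9_ntT.DB.Pt F) : phi F δ hδ P = 0 ↔ P = 0 :=
  (phi F δ hδ).map_eq_zero_iff

omit [DD] [DecidableEq F] in
private theorem Phi_four : (4 : F) ≠ 0 := by
  have h : (4 : F) = 2 * 2 := by norm_num
  rw [h]
  exact mul_ne_zero two_ne two_ne

/-- the local parameters -/
theorem tc_phi (P : MP_1a91b9_ntT.DB.Pt F) :
    tc (phi F δ hδ P) = -(MP_1a91b9_ntT.DB.xc P) / (δ * (2 * MP_1a91b9_ntT.DB.yc P + 1)) := by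
  by_cases hP : P = 0
  · rw [hP, map_zero, tc_zero, MP_1a91b9_ntT.DB.xc_zero, neg_zero, zero_div]
  · have hd : (4 * δ ^ 2 : F) ≠ 0 := mul_ne_zero Phi_four (pow_ne_zero 2 (delta_ne F hδ))
    rw [tc, xc_phi, yc_phi hδ hP]
    have h1 : -(4 * δ ^ 2 * MP_1a91b9_ntT.DB.xc P) =
        (4 * δ ^ 2) * -(MP_1a91b9_ntT.DB.xc P) := by ring
    have h2 : 4 * δ ^ 3 * (2 * MP_1a91b9_ntT.DB.yc P + 1) =
        (4 * δ ^ 2) * (δ * (2 * MP_1a91b9_ntT.DB.yc P + 1)) := by ring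
    rw [h1, h2, mul_div_mul_left _ _ hd]

private theorem Phi_omH (P : MP_1a91b9_ntT.DB.Pt F) :
    phi F δ hδ (MP_1a91b9_ntT.DB.omH F P) = omH F (phi F δ hδ P) := by
  rcases MP_1a91b9_ntT.DB.cases_pt P with rfl | ⟨x, y, h, rfl⟩
  · rw [map_zero, map_zero, map_zero]
  · have h1 : y ^ 2 + y = (omF F * x) ^ 3 := by linear_combination h - x ^ 3 * omF_cube F
    have e1 : MP_1a91b9_ntT.DB.omH F (MP_1a91b9_ntT.DB.mkPt x y h) =
        MP_1a91b9_ntT.DB.mkPt (omF F * x) y h1 := rfl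
    have h2 : (4 * δ ^ 3 * (2 * y + 1)) ^ 2 = (omF F * (4 * δ ^ 2 * x)) ^ 3 + dD F := by
      linear_combination phi_eqn F hδ h - (4 * δ ^ 2 * x) ^ 3 * omF_cube F
    have e2 : omH F (mkPt (4 * δ ^ 2 * x) (4 * δ ^ 3 * (2 * y + 1)) (phi_eqn F hδ h)) =
        mkPt (omF F * (4 * δ ^ 2 * x)) (4 * δ ^ 3 * (2 * y + 1)) h2 := rfl
    rw [e1, Phi_mk, Phi_mk, e2, mk_inj]
    exact ⟨by ring, rfl⟩

theorem phi_sm (c : 𝓞 K) (P : MP_1a91b9_ntT.DB.Pt F) :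
    phi F δ hδ (MP_1a91b9_ntT.DB.sm F c P) = sm F c (phi F δ hδ P) := by
  obtain ⟨m, n, h⟩ := S3.exists_coords c
  rw [MP_1a91b9_ntT.DB.omb_apply c m n h, omb_apply c m n h, map_add, map_zsmul, map_zsmul,
    Phi_omH]

theorem phi_omH (P : MP_1a91b9_ntT.DB.Pt F) :
    phi F δ hδ (MP_1a91b9_ntT.DB.omH F P) = omH F (phi F δ hδ P) := Phi_omH hδ P

include hδ in
theorem delta_map (f : F →ₐ[K] F') : 16 * f δ ^ 6 = dD F' := by
  rw [← map_pow]
  have h := congrArg f hδ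
  rwa [map_mul, map_ofNat, map_intCast] at h

theorem phi_pm (f : F →ₐ[K] F') (P : MP_1a91b9_ntT.DB.Pt F) :
    pm f (phi F δ hδ P) = phi F' (f δ) (delta_map hδ f) (MP_1a91b9_ntT.DB.pm f P) := by
  rcases MP_1a91b9_ntT.DB.cases_pt P with rfl | ⟨x, y, h, rfl⟩
  · rw [map_zero, map_zero, map_zero, map_zero]
  · obtain ⟨h1, e1⟩ := MP_1a91b9_ntT.DB.pm_mk f x y h
    obtain ⟨h2, e2⟩ := pm_mk f (4 * δ ^ 2 * x) (4 * δ ^ 3 * (2 * y + 1)) (phi_eqn F hδ h)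
    rw [e1, Phi_mk, Phi_mk, e2, mk_inj]
    constructor
    · simp only [map_mul, map_pow, map_ofNat]
    · simp only [map_mul, map_pow, map_ofNat, map_add, map_one]

omit [DD] in
/-- the six units -/
private theorem Phi_units (u : (𝓞 K)ˣ) : (u : 𝓞 K) = 1 ∨ (u : 𝓞 K) = -1 ∨
    (u : 𝓞 K) = S3.omO ∨ (u : 𝓞 K) = -S3.omO ∨ (u : 𝓞 K) = S3.omO ^ 2 ∨
    (u : 𝓞 K) = -S3.omO ^ 2 := by
  have h := IsCyclotomicExtension.Rat.Three.Units.mem om_spec u
  simp only [List.mem_cons, List.not_mem_nil, or_false] at h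
  rcases h with h | h | h | h | h | h
  · left
    rw [h]
    rfl
  · right; left
    rw [h]
    rfl
  · right; right; left
    rw [h]
    rfl
  · right; right; right; left
    rw [h]
    rfl
  · right; right; right; right; left
    rw [h]
    rfl
  · right; right; right; right; right
    rw [h]
    rfl

omit [DD] [DecidableEq F] in
private theorem Phi_coe_mul (a b : 𝓞 K) : algebraMap K F ((a * b : 𝓞 K) : K) =
    algebraMap K F (a : K) * algebraMap K F (b : K) := by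
  have h : ((a * b : 𝓞 K) : K) = (a : K) * (b : K) := map_mul (algebraMap (𝓞 K) K) a b
  rw [h, map_mul]

omit [DD] [DecidableEq F] in
private theorem Phi_coe_neg (a : 𝓞 K) : algebraMap K F ((-a : 𝓞 K) : K) =
    -algebraMap K F (a : K) := by
  have h : ((-a : 𝓞 K) : K) = -(a : K) := map_neg (algebraMap (𝓞 K) K) a
  rw [h, map_neg]

omit [DD] [DecidableEq F] in
private theorem Phi_coe_one : algebraMap K F ((1 : 𝓞 K) : K) = 1 := by
  have h : ((1 : 𝓞 K) : K) = 1 := map_one (algebraMap (𝓞 K) K)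
  rw [h, map_one]

omit [DD] [DecidableEq F] in
private theorem Phi_coe_om : algebraMap K F ((S3.omO : 𝓞 K) : K) = omF F := rfl

private theorem Phi_neg_mk {X Y : F} (h : Y ^ 2 = X ^ 3 + dD F) :
    ∃ h', sm F (-1) (mkPt X Y h) = mkPt X (-Y) h' := by
  refine ⟨by linear_combination h, ?_⟩
  rw [map_neg, map_one, ← neg_mk X Y h]
  rfl

private theorem Phi_om_mk {X Y : F} (h : Y ^ 2 = X ^ 3 + dD F) :
    ∃ h', sm F S3.omO (mkPt X Y h) = mkPt (omF F * X) Y h' := by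
  refine ⟨by linear_combination h - X ^ 3 * omF_cube F, ?_⟩
  rw [sm_om]
  rfl

/-- a unit multiplies the coordinates by numbers -/
private theorem Phi_unit_mk (u : (𝓞 K)ˣ) : ∃ c s : F, c ^ 3 = 1 ∧ s ^ 2 = 1 ∧
    algebraMap K F ((u : 𝓞 K) : K) = s * c ∧ ∀ (X Y : F) (h : Y ^ 2 = X ^ 3 + dD F),
      ∃ h', sm F (u : 𝓞 K) (mkPt X Y h) = mkPt (c * X) (s * Y) h' := by
  have hc := omF_cube F
  have hneg : ∀ (a : 𝓞 K) (c s : F), c ^ 3 = 1 → s ^ 2 = 1 →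
      algebraMap K F (a : K) = s * c →
      (∀ (X Y : F) (h : Y ^ 2 = X ^ 3 + dD F),
        ∃ h', sm F a (mkPt X Y h) = mkPt (c * X) (s * Y) h') →
      ∃ c s : F, c ^ 3 = 1 ∧ s ^ 2 = 1 ∧ algebraMap K F ((-a : 𝓞 K) : K) = s * c ∧
        ∀ (X Y : F) (h : Y ^ 2 = X ^ 3 + dD F),
          ∃ h', sm F (-a) (mkPt X Y h) = mkPt (c * X) (s * Y) h' := by
    intro a c s h1 h2 h3 h4
    refine ⟨c, -s, h1, by rw [neg_sq, h2], by rw [Phi_coe_neg, h3]; ring, ?_⟩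
    intro X Y h
    obtain ⟨h5, e5⟩ := h4 X Y h
    obtain ⟨h6, e6⟩ := Phi_neg_mk h5
    have e7 : sm F (-a) (mkPt X Y h) = sm F (-1) (sm F a (mkPt X Y h)) := by
      rw [← neg_one_mul a, map_mul]
      rfl
    rw [e7, e5, e6]
    refine ⟨by rw [neg_mul]; exact h6, ?_⟩
    rw [mk_inj]
    exact ⟨rfl, by ring⟩
  have h1 : (∀ (X Y : F) (h : Y ^ 2 = X ^ 3 + dD F),
        ∃ h', sm F 1 (mkPt X Y h) = mkPt (1 * X) (1 * Y) h') := by
    intro X Y h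
    refine ⟨by rw [one_mul, one_mul]; exact h, ?_⟩
    rw [map_one]
    show mkPt X Y h = _
    rw [mk_inj, one_mul, one_mul]
    exact ⟨rfl, rfl⟩
  have h2 : (∀ (X Y : F) (h : Y ^ 2 = X ^ 3 + dD F),
        ∃ h', sm F S3.omO (mkPt X Y h) = mkPt (omF F * X) (1 * Y) h') := by
    intro X Y h
    obtain ⟨h3, e3⟩ := Phi_om_mk h
    rw [e3]
    refine ⟨by rw [one_mul]; exact h3, ?_⟩
    rw [mk_inj, one_mul]
    exact ⟨rfl, rfl⟩
  have h3 : (∀ (X Y : F) (h : Y ^ 2 = X ^ 3 + dD F),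
        ∃ h', sm F (S3.omO ^ 2) (mkPt X Y h) = mkPt (omF F ^ 2 * X) (1 * Y) h') := by
    intro X Y h
    obtain ⟨h4, e4⟩ := Phi_om_mk h
    obtain ⟨h5, e5⟩ := Phi_om_mk h4
    have e6 : sm F (S3.omO ^ 2) (mkPt X Y h) = sm F S3.omO (sm F S3.omO (mkPt X Y h)) := by
      rw [sq, map_mul]
      rfl
    rw [e6, e4, e5]
    refine ⟨by linear_combination h5, ?_⟩
    rw [mk_inj, one_mul]
    exact ⟨by ring, rfl⟩
  have c2 : algebraMap K F ((S3.omO ^ 2 : 𝓞 K) : K) = 1 * omF F ^ 2 := by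
    rw [sq, Phi_coe_mul, Phi_coe_om]
    ring
  have c3 : (omF F ^ 2) ^ 3 = 1 := by
    rw [← pow_mul, mul_comm, pow_mul, hc, one_pow]
  rcases Phi_units u with h | h | h | h | h | h
  · rw [h]
    exact ⟨1, 1, by ring, by ring, by rw [Phi_coe_one, one_mul], h1⟩
  · rw [h]
    exact hneg 1 1 1 (by ring) (by ring) (by rw [Phi_coe_one, one_mul]) h1
  · rw [h]
    exact ⟨omF F, 1, hc, by ring, by rw [Phi_coe_om, one_mul], h2⟩
  · rw [h]
    exact hneg S3.omO (omF F) 1 hc (by ring) (by rw [Phi_coe_om, one_mul]) h2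
  · rw [h]
    exact ⟨omF F ^ 2, 1, c3, by ring, c2, h3⟩
  · rw [h]
    exact hneg (S3.omO ^ 2) (omF F ^ 2) 1 c3 (by ring) c2 h3

include hδ in
omit [DecidableEq F] in
theorem delta_unit (u : (𝓞 K)ˣ) :
    16 * (algebraMap K F ((u : 𝓞 K) : K) * δ) ^ 6 = dD F := by
  classical
  obtain ⟨c, s, h1, h2, h3, -⟩ := Phi_unit_mk (F := F) u
  rw [h3]
  have h4 : (s * c) ^ 6 = 1 := by
    have e : (s * c) ^ 6 = (s ^ 2) ^ 3 * (c ^ 3) ^ 2 := by ring
    rw [e, h1, h2]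
    ring
  rw [mul_pow, h4, one_mul, hδ]

/-- the change of the isomorphism by a unit -/
theorem phi_unit (u : (𝓞 K)ˣ) (P : MP_1a91b9_ntT.DB.Pt F) :
    sm F (u : 𝓞 K) (phi F (algebraMap K F ((u : 𝓞 K) : K) * δ) (delta_unit hδ u) P) =
      phi F δ hδ P := by
  rcases MP_1a91b9_ntT.DB.cases_pt P with rfl | ⟨x, y, h, rfl⟩
  · rw [map_zero, map_zero, map_zero]
  · obtain ⟨c, s, h1, h2, h3, h4⟩ := Phi_unit_mk (F := F) u
    rw [Phi_mk, Phi_mk]
    obtain ⟨h5, e5⟩ := h4 _ _ (phi_eqn F (delta_unit hδ u) h)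
    rw [e5, mk_inj, h3]
    constructor
    · linear_combination (4 * δ ^ 2 * x * s ^ 2) * h1 + (4 * δ ^ 2 * x) * h2
    · linear_combination (4 * δ ^ 3 * (2 * y + 1) * s ^ 4) * h1 +
        (4 * δ ^ 3 * (2 * y + 1) * (s ^ 2 + 1)) * h2

theorem phi_ord {β : 𝓞 K} {P : MP_1a91b9_ntT.DB.Pt F} :
    (∀ c : 𝓞 K, sm F c (phi F δ hδ P) = 0 ↔ β ∣ c) ↔ MP_1a91b9_ntT.DB.Ord β P := by
  unfold MP_1a91b9_ntT.DB.Ord
  refine forall_congr' fun c => ?_
  rw [← phi_sm, Phi_zero_iff]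

variable {Γ : Type*} [LinearOrderedCommGroupWithZero Γ] (v : Valuation F Γ)

include hδ in
theorem v_delta (hb : v (bD F) = 1) : v δ = 1 := by
  have h1 := congrArg v hδ
  have h2 := v_two v hb
  have h3 : (16 : F) = 2 ^ 4 := by norm_num
  rw [h3, map_mul, map_pow, map_pow, h2, one_pow, one_mul, v_dD v hb] at h1
  exact ((pow_eq_one_iff).1 h1).resolve_right (by norm_num)

private theorem Phi_vx (hb : v (bD F) = 1) (P : MP_1a91b9_ntT.DB.Pt F) :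
    v (xc (phi F δ hδ P)) = v (MP_1a91b9_ntT.DB.xc P) := by
  have h2 := v_two v hb
  have h3 : (4 : F) = 2 ^ 2 := by norm_num
  rw [xc_phi, map_mul, map_mul, h3, map_pow, map_pow, h2, v_delta hδ v hb]
  simp

theorem phi_ker (hb : v (bD F) = 1) (P : MP_1a91b9_ntT.DB.Pt F) :
    Ker v (phi F δ hδ P) ↔ MP_1a91b9_ntT.DB.Ker v P := by
  unfold Ker MP_1a91b9_ntT.DB.Ker
  rw [Phi_zero_iff, Phi_vx hδ v hb]

/-- the valuations of the local parameters in the kernel of reduction -/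
theorem v_tc_phi (hb : v (bD F) = 1) {P : MP_1a91b9_ntT.DB.Pt F}
    (hP : MP_1a91b9_ntT.DB.Ker v P) : v (tc (phi F δ hδ P)) = v (MP_1a91b9_ntT.DB.tc P) := by
  rcases eq_or_ne P 0 with rfl | h0
  · rw [map_zero, tc_zero, MP_1a91b9_ntT.DB.tc_zero]
  · have hx : 1 < v (MP_1a91b9_ntT.DB.xc P) := hP.resolve_left h0
    have hy : 1 < v (MP_1a91b9_ntT.DB.yc P) := (MP_1a91b9_ntT.DB.ker_iff_y v h0).1 hx
    have h2 := v_two v hb
    have h3 : v (2 * MP_1a91b9_ntT.DB.yc P + 1) = v (MP_1a91b9_ntT.DB.yc P) := by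
      have h4 : v (2 * MP_1a91b9_ntT.DB.yc P) = v (MP_1a91b9_ntT.DB.yc P) := by
        rw [map_mul, h2, one_mul]
      rw [Valuation.map_add_eq_of_lt_left, h4]
      rw [h4, map_one]
      exact hy
    rw [tc_phi, MP_1a91b9_ntT.DB.tc, map_div₀, map_div₀, map_mul, v_delta hδ v hb, one_mul, h3]

end

/-- over `ℂ` there is such a number -/
theorem exists_delta : ∃ δ : ℂ, 16 * δ ^ 6 = dD ℂ := by
  obtain ⟨δ, h⟩ := IsAlgClosed.exists_pow_nat_eq (dD ℂ / 16) (n := 6) (by norm_num)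
  exact ⟨δ, by rw [h]; ring⟩

end

end Pool.Agent.Lib.MP_1a91b9_ntX.DB
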