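import Pool.Agent.Lib.MP_1a91b9_ntX.DB.ValE
import Pool.Agent.Lib.MP_1a91b9_ntT.DB.Frob

/-!
# The isomorphism of `y² + y = x³` and `y² = x³ + D` over a field which contains `δ`, `16 δ⁶ = D`

`(x, y) ↦ (4 δ² x, 4 δ³ (2 y + 1))`.

PROOF. `phi_add`: cases of both points (`DB.cases_pt` of the old curve, full name `MP_1a91b9_ntT.DB.cases_pt`): `0`, or `MP_1a91b9_ntT.DB.mkPt x y h`.
Same abscissa: `y' = -y-1` (sum `0` on both sides: `MP_1a91b9_ntT.DB.mk_add_neg`, `mk_add_neg`) or equal points (`MP_1a91b9_ntT.DB.mk_dbl`, `mk_dbl`;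
`2 y + 1 ≠ 0` there); different abscissae: `MP_1a91b9_ntT.DB.mk_add`, `mk_add`. Then `mk_inj` and `field_simp; ring` (`4 δ^2 ≠ 0`; the slope is
multiplied by `2 δ`, `4 δ^2 = (2 δ)^2`).
`phi_bij`: the inverse is `(X, Y) ↦ (X/(4 δ^2), (Y/(4 δ^3) - 1)/2)`.
-/

set_option autoImplicit false

namespace Pool.Agent.Lib.MP_1a91b9_ntX.DB

open NumberField IsDedekindDomain WeierstrassCurve Pool.Agent.Lib.MP_1a91b9_ntT

noncomputable section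

variable [DD]

section
variable (F : Type*) [Field F] [Algebra K F]

theorem phi_eqn {δ : F} (hδ : 16 * δ ^ 6 = dD F) {x y : F} (h : y ^ 2 + y = x ^ 3) :
    (4 * δ ^ 3 * (2 * y + 1)) ^ 2 = (4 * δ ^ 2 * x) ^ 3 + dD F := by
  linear_combination 64 * δ ^ 6 * h + hδ

theorem delta_ne {δ : F} (hδ : 16 * δ ^ 6 = dD F) : δ ≠ 0 := by
  intro h
  rw [h] at hδ
  exact dD_ne (F := F) (by rw [← hδ]; ring)

/-- the map on points -/
def phiF (δ : F) (hδ : 16 * δ ^ 6 = dD F) : MP_1a91b9_ntT.DB.Pt F → Pt F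
  | .zero => 0
  | .some x y h => mkPt (4 * δ ^ 2 * x) (4 * δ ^ 3 * (2 * y + 1))
      (phi_eqn F hδ ((MP_1a91b9_ntT.DB.nons_iff x y).1 h))

variable [DecidableEq F]

omit [DecidableEq F] in
private theorem PhiA_mk (δ : F) (hδ : 16 * δ ^ 6 = dD F) (x y : F) (h : y ^ 2 + y = x ^ 3) :
    phiF F δ hδ (MP_1a91b9_ntT.DB.mkPt x y h) =
      mkPt (4 * δ ^ 2 * x) (4 * δ ^ 3 * (2 * y + 1)) (phi_eqn F hδ h) := rfl

theorem phi_add (δ : F) (hδ : 16 * δ ^ 6 = dD F) (P Q : MP_1a91b9_ntT.DB.Pt F) :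
    phiF F δ hδ (P + Q) = phiF F δ hδ P + phiF F δ hδ Q := by
  have hδ0 : δ ≠ 0 := delta_ne F hδ
  have h20 : (2 : F) ≠ 0 := two_ne
  have h40 : (4 : F) ≠ 0 := by
    have h1 : (4 : F) = 2 * 2 := by norm_num
    rw [h1]
    exact mul_ne_zero h20 h20
  rcases MP_1a91b9_ntT.DB.cases_pt P with rfl | ⟨x₁, y₁, h₁, rfl⟩
  · rw [zero_add]
    exact (zero_add _).symm
  rcases MP_1a91b9_ntT.DB.cases_pt Q with rfl | ⟨x₂, y₂, h₂, rfl⟩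
  · rw [add_zero]
    exact (add_zero _).symm
  by_cases hx : x₁ = x₂
  · subst hx
    by_cases hy : y₂ = -y₁ - 1
    · rw [MP_1a91b9_ntT.DB.mk_add_neg h₁ h₂ hy, PhiA_mk, PhiA_mk, mk_add_neg _ _ (by rw [hy]; ring)]
      rfl
    · have hyy : y₂ = y₁ := by
        have h3 : (y₂ - y₁) * (y₂ - (-y₁ - 1)) = 0 := by linear_combination h₂ - h₁
        rcases mul_eq_zero.1 h3 with h4 | h4
        · exact sub_eq_zero.1 h4
        · exact absurd (sub_eq_zero.1 h4) hy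
      subst hyy
      have hz : 2 * y₂ + 1 ≠ 0 := by
        intro h4
        exact hy (by linear_combination h4)
      obtain ⟨h5, e5⟩ := MP_1a91b9_ntT.DB.mk_dbl x₁ y₂ h₁ hz
      have hY : 4 * δ ^ 3 * (2 * y₂ + 1) ≠ 0 :=
        mul_ne_zero (mul_ne_zero h40 (pow_ne_zero 3 hδ0)) hz
      obtain ⟨h6, e6⟩ := mk_dbl (4 * δ ^ 2 * x₁) (4 * δ ^ 3 * (2 * y₂ + 1)) (phi_eqn F hδ h₁) hY
      have hs : 3 * (4 * δ ^ 2 * x₁) ^ 2 / (2 * (4 * δ ^ 3 * (2 * y₂ + 1))) =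
          2 * δ * (3 * x₁ ^ 2 / (2 * y₂ + 1)) := by
        field_simp
        ring
      rw [e5, PhiA_mk, PhiA_mk, e6, mk_inj, hs]
      constructor <;> ring
  · obtain ⟨h5, e5⟩ := MP_1a91b9_ntT.DB.mk_add x₁ y₁ x₂ y₂ h₁ h₂ hx
    have hX : 4 * δ ^ 2 * x₁ ≠ 4 * δ ^ 2 * x₂ := by
      intro h4
      exact hx (mul_left_cancel₀ (mul_ne_zero h40 (pow_ne_zero 2 hδ0)) h4)
    obtain ⟨h6, e6⟩ := mk_add (4 * δ ^ 2 * x₁) (4 * δ ^ 3 * (2 * y₁ + 1)) (4 * δ ^ 2 * x₂)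
      (4 * δ ^ 3 * (2 * y₂ + 1)) (phi_eqn F hδ h₁) (phi_eqn F hδ h₂) hX
    have hx0 : x₁ - x₂ ≠ 0 := sub_ne_zero.2 hx
    have hs : (4 * δ ^ 3 * (2 * y₁ + 1) - 4 * δ ^ 3 * (2 * y₂ + 1)) /
        (4 * δ ^ 2 * x₁ - 4 * δ ^ 2 * x₂) = 2 * δ * ((y₁ - y₂) / (x₁ - x₂)) := by
      have h7 : 4 * δ ^ 2 * x₁ - 4 * δ ^ 2 * x₂ ≠ 0 := sub_ne_zero.2 hX
      rw [div_eq_iff h7]
      field_simp
      ring
    rw [e5, PhiA_mk, PhiA_mk, PhiA_mk, e6, mk_inj, hs]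
    constructor <;> ring

theorem phi_bij (δ : F) (hδ : 16 * δ ^ 6 = dD F) : Function.Bijective (phiF F δ hδ) := by
  have hδ0 : δ ≠ 0 := delta_ne F hδ
  have h20 : (2 : F) ≠ 0 := two_ne
  have h40 : (4 : F) ≠ 0 := by
    have h1 : (4 : F) = 2 * 2 := by norm_num
    rw [h1]
    exact mul_ne_zero h20 h20
  have hd2 : 4 * δ ^ 2 ≠ 0 := mul_ne_zero h40 (pow_ne_zero 2 hδ0)
  have hd3 : 4 * δ ^ 3 ≠ 0 := mul_ne_zero h40 (pow_ne_zero 3 hδ0)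
  have hcz : CharZero F := charZero_of_injective_algebraMap (algebraMap K F).injective
  constructor
  · intro P Q h
    rcases MP_1a91b9_ntT.DB.cases_pt P with rfl | ⟨x₁, y₁, h₁, rfl⟩
    · rcases MP_1a91b9_ntT.DB.cases_pt Q with rfl | ⟨x₂, y₂, h₂, rfl⟩
      · rfl
      · rw [PhiA_mk] at h
        exact absurd h.symm (mk_ne_zero _ _ _)
    · rcases MP_1a91b9_ntT.DB.cases_pt Q with rfl | ⟨x₂, y₂, h₂, rfl⟩
      · rw [PhiA_mk] at h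
        exact absurd h (mk_ne_zero _ _ _)
      · rw [PhiA_mk, PhiA_mk, mk_inj] at h
        rw [MP_1a91b9_ntT.DB.mk_inj]
        refine ⟨mul_left_cancel₀ hd2 h.1, ?_⟩
        have h3 := mul_left_cancel₀ hd3 h.2
        exact mul_left_cancel₀ h20 (add_right_cancel h3)
  · intro Q
    rcases cases_pt Q with rfl | ⟨X, Y, h, rfl⟩
    · exact ⟨0, rfl⟩
    · have h1 : ((Y / (4 * δ ^ 3) - 1) / 2) ^ 2 + (Y / (4 * δ ^ 3) - 1) / 2 =
          (X / (4 * δ ^ 2)) ^ 3 := by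
        have h2 : Y ^ 2 = X ^ 3 + 16 * δ ^ 6 := by rw [hδ]; exact h
        have h3 : ((Y / (4 * δ ^ 3) - 1) / 2) ^ 2 + (Y / (4 * δ ^ 3) - 1) / 2 =
            (Y ^ 2 - 16 * δ ^ 6) / (64 * δ ^ 6) := by
          field_simp
          ring
        rw [h3, h2]
        field_simp
        ring
      refine ⟨MP_1a91b9_ntT.DB.mkPt (X / (4 * δ ^ 2)) ((Y / (4 * δ ^ 3) - 1) / 2) h1, ?_⟩
      rw [PhiA_mk, mk_inj]
      constructor
      · field_simp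
      · field_simp
        ring

/-- the isomorphism -/
def phi (δ : F) (hδ : 16 * δ ^ 6 = dD F) : MP_1a91b9_ntT.DB.Pt F ≃+ Pt F :=
  AddEquiv.ofBijective
    (⟨⟨phiF F δ hδ, rfl⟩, phi_add F δ hδ⟩ : MP_1a91b9_ntT.DB.Pt F →+ Pt F) (phi_bij F δ hδ)

end

section
variable {F : Type*} [Field F] [Algebra K F] [DecidableEq F] {δ : F} (hδ : 16 * δ ^ 6 = dD F)

theorem phi_apply (P : MP_1a91b9_ntT.DB.Pt F) : phi F δ hδ P = phiF F δ hδ P := rfl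

theorem xc_phi (P : MP_1a91b9_ntT.DB.Pt F) :
    xc (phi F δ hδ P) = 4 * δ ^ 2 * MP_1a91b9_ntT.DB.xc P := by
  rw [phi_apply]
  rcases MP_1a91b9_ntT.DB.cases_pt P with rfl | ⟨x, y, h, rfl⟩
  · change (0 : F) = 4 * δ ^ 2 * 0
    rw [mul_zero]
  · rfl

theorem yc_phi {P : MP_1a91b9_ntT.DB.Pt F} (hP : P ≠ 0) :
    yc (phi F δ hδ P) = 4 * δ ^ 3 * (2 * MP_1a91b9_ntT.DB.yc P + 1) := by
  rw [phi_apply]
  rcases MP_1a91b9_ntT.DB.cases_pt P with rfl | ⟨x, y, h, rfl⟩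
  · exact absurd rfl hP
  · rfl

end

end

end Pool.Agent.Lib.MP_1a91b9_ntX.DB
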