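import Pool.Agent.Lib.MP_1a91b9_ntX.DB.DExt

/-!
# The curves `y² = x³ + D`: ramification in the field of the points killed by a prime element (port
of MP_1a91b9_ntT/DB/Ram.lean)

PROOF of `ker_of_val`, `v_tc` (the only ones open): `L` from `exists_delta_ext F F`, `δ : L`, `B` from `exists_val_ext v`
(`F' = L`), `v' = B.valuation`, `val_ext_lt`, `val_ext_eq`. `f : F →ₐ[K] L`, `R' = (phi L δ hδ).symm (pm f R)`, `Ord β R'` for the old curve
(`phi_ord`, `Ord.map`). `v' (bD L) = 1`, `v' β < 1`. The theorems `ker_of_val`, `v_tc` of `MP_1a91b9_ntT.DB` for `R'`, `phi_ker`,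
`v_tc_phi`: `Ker v' (pm f R)`, so `Ker v R` (`xc_pm`; `pm f R = 0` iff `R = 0`), and `v' (tc (pm f R) ^ (q - 1)) = v' β`, i.e.
`v' ((tc R)^(q-1)/β) = 1` in `L`, so `v (..) = 1` in `F` (`val_ext_eq`).
-/

set_option autoImplicit false

namespace Pool.Agent.Lib.MP_1a91b9_ntX.DB

open NumberField IsDedekindDomain WeierstrassCurve Pool.Agent.Lib.MP_1a91b9_ntT

universe u

variable [DD]

section
variable {k F : Type u} [Field k] [Algebra K k] [Field F] [Algebra K F] [Algebra k F]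
  [IsScalarTower K k F] [DecidableEq F] {β : 𝓞 K}

theorem ga_sm (σ : F ≃ₐ[k] F) (a : 𝓞 K) (P : Pt F) : ga σ (sm F a P) = sm F a (ga σ P) :=
  pm_sm _ a P

theorem xc_ga (σ : F ≃ₐ[k] F) (P : Pt F) : xc (ga σ P) = σ (xc P) :=
  xc_pm _ P

theorem yc_ga (σ : F ≃ₐ[k] F) (P : Pt F) : yc (ga σ P) = σ (yc P) :=
  yc_pm _ P

theorem ga_mul (σ τ : F ≃ₐ[k] F) (P : Pt F) : ga (σ * τ) P = ga σ (ga τ P) := by
  rcases cases_pt P with rfl | ⟨x, y, h, rfl⟩
  · rw [map_zero, map_zero, map_zero]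
  · rfl

theorem ga_one (P : Pt F) : ga (1 : F ≃ₐ[k] F) P = P := by
  rcases cases_pt P with rfl | ⟨x, y, h, rfl⟩
  · rw [map_zero]
  · rfl

end

section
variable {k F : Type u} [Field k] [NumberField k] [Algebra K k] [Field F] [NumberField F]
  [Algebra K F] [Algebra k F] [IsScalarTower K k F] [DecidableEq F] {β : 𝓞 K}

theorem gal_sm (hβ : β ≠ 0) {R : Pt F} (hR : Ord β R) (σ : Gal(F/k)) :
    ∃ c : 𝓞 K, IsCoprime c β ∧ ga σ R = sm F c R := by
  obtain ⟨f⟩ := exists_emb F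
  have h1 : sm F β (ga σ R) = 0 := by
    rw [← ga_sm, (hR β).2 dvd_rfl, map_zero]
  obtain ⟨c, hc⟩ := ord_cases f hβ hR h1
  refine ⟨c, hR.coprime hβ ?_, hc⟩
  rw [← hc]
  exact hR.ga σ

end

private theorem rab_inv {F : Type u} [Field F] [Algebra K F] [DecidableEq F] {β : 𝓞 K}
    (hβ : Prime β) {R : Pt F} (hR : Ord β R) {a : 𝓞 K} (ha : ¬ β ∣ a) :
    ∃ b : 𝓞 K, sm F b (sm F a R) = R := by
  have h1 : (Ideal.span {β}).IsPrime := (Ideal.span_singleton_prime hβ.ne_zero).2 hβ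
  have h2 : (Ideal.span {β}).IsMaximal :=
    h1.isMaximal (by rw [Ne, Ideal.span_singleton_eq_bot]; exact hβ.ne_zero)
  obtain ⟨y, i, hi, hyi⟩ := h2.exists_inv (x := a) (by rwa [Ideal.mem_span_singleton])
  rw [Ideal.mem_span_singleton] at hi
  refine ⟨y, ?_⟩
  have h3 : sm F (y * a + i) R = sm F y (sm F a R) + sm F i R := by
    rw [map_add, map_mul]
    rfl
  rw [hyi, map_one, (hR i).2 hi, add_zero] at h3
  exact h3.symm

private theorem Ram_ext (F : Type u) [Field F] [NumberField F] [Algebra K F] :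
    ∃ (L : Type u) (_ : Field L) (_ : NumberField L) (_ : Algebra K L) (_ : Algebra F L)
      (_ : IsScalarTower K F L), ∃ δ : L, 16 * δ ^ 6 = dD L := by
  obtain ⟨L, i1, i2, i3, i4, i5, i6, i7, i8, -, -, δ, hδ⟩ := exists_delta_ext F F
  exact ⟨L, i1, i2, i3, i5, i7, δ, hδ⟩

private theorem Ram_tr {F : Type u} [Field F] [NumberField F] [Algebra K F] [DecidableEq F]
    {β : 𝓞 K} {Γ : Type*} [LinearOrderedCommGroupWithZero Γ] (v : Valuation F Γ)
    (hβ : Prime β) (hβ1 : (3 : 𝓞 K) ∣ β - 1) {R : Pt F} (hR : Ord β R)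
    (hv : v (algebraMap K F (β : K)) < 1) (hb : v (bD F) = 1) : Ker v R ∧
    v (tc R) ^ (Ideal.absNorm (Ideal.span {β}) - 1) = v (algebraMap K F (β : K)) := by
  classical
  obtain ⟨L, i1, i2, i3, i4, i5, δ, hδ⟩ := Ram_ext F
  obtain ⟨B, h⟩ := exists_val_ext (F' := L) v
  set f : F →ₐ[K] L := IsScalarTower.toAlgHom K F L with hf
  have hfa : ∀ x : F, f x = algebraMap F L x := fun x => rfl
  set R' : MP_1a91b9_ntT.DB.Pt L := (phi L δ hδ).symm (pm f R) with hR'd
  have hRR : phi L δ hδ R' = pm f R := (phi L δ hδ).apply_symm_apply _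
  have hR' : MP_1a91b9_ntT.DB.Ord β R' := by
    refine (phi_ord hδ).1 ?_
    rw [hRR]
    exact (Ord.map f).2 hR
  have hb' : B.valuation (bD L) = 1 := by
    have e : bD L = algebraMap F L (bD F) := (map_intCast _ _).symm
    rw [e]
    exact (val_ext_eq v B.valuation h _).2 hb
  have hbe : algebraMap K L (β : K) = algebraMap F L (algebraMap K F (β : K)) :=
    IsScalarTower.algebraMap_apply K F L (β : K)
  have hv' : B.valuation (algebraMap K L (β : K)) < 1 := by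
    rw [hbe]
    exact (val_ext_lt v B.valuation h _).2 hv
  have k1 := MP_1a91b9_ntT.DB.ker_of_val B.valuation hβ hβ1 hR' hv'
  have k2 : Ker B.valuation (pm f R) := by
    rw [← hRR]
    exact (phi_ker hδ B.valuation hb' R').2 k1
  have k3 := MP_1a91b9_ntT.DB.v_tc B.valuation hβ hβ1 hR' hv'
  have k4 := v_tc_phi hδ B.valuation hb' k1
  rw [hRR, tc_pm] at k4
  rw [← k4] at k3
  have hβ0 : algebraMap K F (β : K) ≠ 0 := by
    rw [Ne, map_eq_zero_iff _ (algebraMap K F).injective]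
    intro h0
    exact hβ.ne_zero (RingOfIntegers.ext h0)
  have hβL : B.valuation (algebraMap F L (algebraMap K F (β : K))) ≠ 0 :=
    (Valuation.ne_zero_iff _).2 (by rwa [Ne, map_eq_zero])
  refine ⟨?_, ?_⟩
  · rcases k2 with k2 | k2
    · left
      apply pm_inj f
      rw [k2, map_zero]
    · right
      rw [xc_pm, hfa] at k2
      by_contra hc
      rw [not_lt] at hc
      exact absurd k2 (not_lt.2 ((h _).2 hc))
  · have h1 : B.valuation (algebraMap F L
        (tc R ^ (Ideal.absNorm (Ideal.span {β}) - 1) / algebraMap K F (β : K))) = 1 := by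
      rw [map_div₀, map_div₀, map_pow, map_pow, ← hfa (tc R), k3, hbe]
      exact div_self hβL
    have h2 := (val_ext_eq v B.valuation h _).1 h1
    rw [map_div₀, map_pow] at h2
    have h3 : v (algebraMap K F (β : K)) ≠ 0 := (Valuation.ne_zero_iff v).2 hβ0
    rwa [div_eq_one_iff_eq h3] at h2

section
variable {F : Type u} [Field F] [NumberField F] [Algebra K F] [DecidableEq F] {β : 𝓞 K}
  {Γ : Type*} [LinearOrderedCommGroupWithZero Γ] (v : Valuation F Γ)
  (hβ : Prime β) (hβ1 : (3 : 𝓞 K) ∣ β - 1) {R : Pt F} (hR : Ord β R)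
include hβ hβ1 hR

theorem ker_of_val (hv : v (algebraMap K F (β : K)) < 1) (hb : v (bD F) = 1) : Ker v R :=
  (Ram_tr v hβ hβ1 hR hv hb).1

omit [NumberField F] hβ1 in
theorem not_ker_of_val (hv : v (algebraMap K F (β : K)) = 1) : ¬ Ker v R := by
  refine not_ker_torsO v ?_ hv ((hR β).2 dvd_rfl)
  rintro rfl
  exact hβ.not_isUnit (isUnit_of_dvd_one ((hR 1).1 (map_zero _)))

theorem v_tc (hv : v (algebraMap K F (β : K)) < 1) (hb : v (bD F) = 1) :
    v (tc R) ^ (Ideal.absNorm (Ideal.span {β}) - 1) = v (algebraMap K F (β : K)) :=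
  (Ram_tr v hβ hβ1 hR hv hb).2

end

section
variable {k F : Type u} [Field k] [NumberField k] [Field F] [NumberField F] [Algebra k F]
  [Algebra K k] [Algebra K F] [IsScalarTower K k F] [DecidableEq F] {β : 𝓞 K}

private theorem rac_inj (hβ : Prime β) {R : Pt F} (hR : Ord β R)
    (hgen : ∀ σ : Gal(F/k), ga σ R = R → σ = 1) : ∃ T : Finset (𝓞 K), IsRes β T ∧
    T.card + 1 = Ideal.absNorm (Ideal.span {β}) ∧ ∃ f : Gal(F/k) → T, Function.Injective f ∧
      ∀ σ, ga σ R = sm F ((f σ : 𝓞 K)) R := by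
  obtain ⟨T, hT, hcard⟩ := exists_isRes hβ.ne_zero
  have h1 : ∀ σ : Gal(F/k), ∃ a : T, ga σ R = sm F (a : 𝓞 K) R := by
    intro σ
    obtain ⟨c, hc, e⟩ := gal_sm hβ.ne_zero hR σ
    have hn : ¬ β ∣ c := fun h => hβ.not_isUnit (hc.isUnit_of_dvd' h dvd_rfl)
    obtain ⟨a, ha, hd⟩ := hT.ex c hn
    exact ⟨⟨a, ha⟩, e.trans ((hR.sm_eq_iff c a).2 hd)⟩
  choose f hf using h1
  refine ⟨T, hT, hcard, f, ?_, hf⟩
  intro σ τ h
  have e : ga σ R = ga τ R := by rw [hf σ, hf τ, h]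
  have e2 : ga (τ⁻¹ * σ) R = R := by
    rw [ga_mul, e, ← ga_mul, inv_mul_cancel, ga_one]
  exact (inv_mul_eq_one.1 (hgen _ e2)).symm

private theorem rac_W (hβ : Prime β) (hβ1 : (3 : 𝓞 K) ∣ β - 1) {R : Pt F} (hR : Ord β R)
    (W : HeightOneSpectrum (𝓞 F)) (hW : od (W.under (𝓞 k)) (algebraMap K k (β : K)) = 1)
    (hb : W.valuation F (bD F) = 1) :
    ((Ideal.absNorm (Ideal.span {β}) - 1 : ℕ) : ℤ) * od W (tc R)
      = (W.asIdeal.ramificationIdx (𝓞 k) : ℤ) ∧ 1 ≤ od W (tc R) ∧ Ker (W.valuation F) R := by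
  have hbF : algebraMap K F (β : K) = algebraMap k F (algebraMap K k (β : K)) :=
    IsScalarTower.algebraMap_apply K k F (β : K)
  have hb0 : algebraMap K F (β : K) ≠ 0 := by
    rw [Ne, map_eq_zero_iff _ (algebraMap K F).injective]
    intro h
    exact hβ.ne_zero (RingOfIntegers.ext h)
  have h1 : od W (algebraMap K F (β : K)) = (W.asIdeal.ramificationIdx (𝓞 k) : ℤ) := by
    rw [hbF, od_map (k := k) W, hW, mul_one]
  have h2 : W.valuation F (algebraMap K F (β : K)) < 1 := by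
    rw [val_lt_one_iff W hb0, h1]
    exact_mod_cast ramIdx_pos (k := k) W
  have h3 := ker_of_val (W.valuation F) hβ hβ1 hR h2 hb
  have hR0 : R ≠ 0 := by
    intro h
    have h4 : sm F (1 : 𝓞 K) R = 0 := by rw [h, map_zero]
    exact hβ.not_isUnit (isUnit_of_dvd_one ((hR 1).1 h4))
  obtain ⟨t1, t2, -, -⟩ := ker_tc (W.valuation F) h3 hR0
  have ht0 : tc R ≠ 0 := by
    intro h
    rw [h, map_zero] at t2
    exact t2 rfl
  have h5 := v_tc (W.valuation F) hβ hβ1 hR h2 hb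
  refine ⟨?_, ?_, h3⟩
  · rw [← h1, ← od_pow]
    unfold od
    rw [map_pow, h5]
  · have := (val_lt_one_iff W ht0).1 t1
    omega

private theorem rac_num {m n g e f : ℕ} {t : ℤ} (h1 : (m : ℤ) * t = e) (ht : 1 ≤ t) (hn : 0 < n)
    (h2 : g * (e * f) = n) (h3 : n ≤ m) : e = n ∧ n = m ∧ t = 1 ∧ g = 1 ∧ f = 1 := by
  have hg : 0 < g := by
    rcases Nat.eq_zero_or_pos g with h | h
    · rw [h, zero_mul] at h2
      omega
    · exact h
  have hf : 0 < f := by
    rcases Nat.eq_zero_or_pos f with h | h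
    · rw [h, mul_zero, mul_zero] at h2
      omega
    · exact h
  have he : e ≤ n := by
    rw [← h2]
    calc e = 1 * (e * 1) := by ring
      _ ≤ g * (e * f) := Nat.mul_le_mul hg (Nat.mul_le_mul_left _ hf)
  have hm : (m : ℤ) ≤ e := by
    rw [← h1]
    nlinarith
  have hm' : m ≤ e := by exact_mod_cast hm
  have e1 : e = n := by omega
  have e2 : n = m := by omega
  have e3 : g * f = 1 := by
    have h5 : n * (g * f) = n * 1 := by
      rw [e1] at h2
      calc n * (g * f) = g * (n * f) := by ring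
        _ = n * 1 := by rw [h2, mul_one]
    exact Nat.eq_of_mul_eq_mul_left hn h5
  refine ⟨e1, e2, ?_, Nat.eq_one_of_mul_eq_one_right e3, Nat.eq_one_of_mul_eq_one_left e3⟩
  have hmp : (0 : ℤ) < m := by omega
  have h6 : (m : ℤ) * t = m * 1 := by
    rw [h1, e1, e2, mul_one]
  exact mul_left_cancel₀ hmp.ne' h6

end

section
variable {k F : Type u} [Field k] [NumberField k] [Field F] [NumberField F] [Algebra k F]

variable [Algebra K k] [Algebra K F] [IsScalarTower K k F] [DecidableEq F] {β : 𝓞 K}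
  [IsGalois k F] (hβ : Prime β) (hβ1 : (3 : 𝓞 K) ∣ β - 1) {R : Pt F} (hR : Ord β R)
  (hgen : ∀ σ : Gal(F/k), ga σ R = R → σ = 1)
include hβ hβ1 hR hgen

theorem card_gal_le : Module.finrank k F + 1 ≤ Ideal.absNorm (Ideal.span {β}) := by
  obtain ⟨T, -, hc, f, hf, -⟩ := rac_inj hβ hR hgen
  have h1 : Nat.card Gal(F/k) ≤ Nat.card T := Nat.card_le_card_of_injective f hf
  rw [IsGalois.card_aut_eq_finrank, Nat.card_eq_fintype_card, Fintype.card_coe] at h1
  omega

/-- total ramification -/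
theorem ram (v : HeightOneSpectrum (𝓞 k)) (hv : od v (algebraMap K k (β : K)) = 1)
    (hb : v.valuation k (bD k) = 1) :
    Module.finrank k F + 1 = Ideal.absNorm (Ideal.span {β}) ∧
    (∀ W : HeightOneSpectrum (𝓞 F), W.under (𝓞 k) = v →
      W.asIdeal.ramificationIdx (𝓞 k) = Module.finrank k F ∧
      W.asIdeal.inertiaDeg (𝓞 k) = 1 ∧ od W (tc R) = 1 ∧ Ker (W.valuation F) R ∧
      ∀ σ : Gal(F/k), gpl σ W = W) ∧
    ∀ c : 𝓞 K, ¬ β ∣ c → ∃ σ : Gal(F/k), ga σ R = sm F c R := by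
  have hle := card_gal_le hβ hβ1 hR hgen
  have hn : 0 < Module.finrank k F := Module.finrank_pos
  have hvm : v.asIdeal.IsMaximal := v.isMaximal
  have hfund := Ideal.ncard_primesOver_mul_ramificationIdxIn_mul_inertiaDegIn v.asIdeal (𝓞 F)
    Gal(F/k)
  rw [IsGalois.card_aut_eq_finrank] at hfund
  have key : ∀ W : HeightOneSpectrum (𝓞 F), W.under (𝓞 k) = v →
      (W.asIdeal.ramificationIdx (𝓞 k) = Module.finrank k F ∧
        Module.finrank k F = Ideal.absNorm (Ideal.span {β}) - 1 ∧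
        od W (tc R) = 1 ∧ (v.asIdeal.primesOver (𝓞 F)).ncard = 1 ∧
        W.asIdeal.inertiaDeg (𝓞 k) = 1) ∧ Ker (W.valuation F) R := by
    intro W hW
    have hlo : W.asIdeal.LiesOver v.asIdeal := ⟨by rw [← hW]; rfl⟩
    have hWp : W.asIdeal.IsPrime := W.isPrime
    obtain ⟨h1, h2, h3⟩ := rac_W (k := k) hβ hβ1 hR W (by rw [hW]; exact hv)
      (by
        have e : bD F = algebraMap k F (bD k) := (map_intCast _ _).symm
        rw [e, val_map_eq, hW]
        exact hb)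
    rw [Ideal.ramificationIdxIn_eq_ramificationIdx v.asIdeal W.asIdeal Gal(F/k),
      Ideal.inertiaDegIn_eq_inertiaDeg v.asIdeal W.asIdeal Gal(F/k)] at hfund
    refine ⟨?_, h3⟩
    exact rac_num h1 h2 hn hfund (by omega)
  obtain ⟨Q, hQ1, hQ2⟩ := (inferInstance : Nonempty (v.asIdeal.primesOver (𝓞 F)))
  have hQ0 : Q ≠ ⊥ := by
    intro h
    have h1 := hQ2.over
    rw [h] at h1
    exact v.ne_bot (h1.trans (Ideal.comap_bot_of_injective _
      (FaithfulSMul.algebraMap_injective (𝓞 k) (𝓞 F))))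
  let W0 : HeightOneSpectrum (𝓞 F) := ⟨Q, hQ1, hQ0⟩
  have hW0 : W0.under (𝓞 k) = v := HeightOneSpectrum.ext hQ2.over.symm
  obtain ⟨⟨-, hq, -, hg, -⟩, -⟩ := key W0 hW0
  have hq1 : Module.finrank k F + 1 = Ideal.absNorm (Ideal.span {β}) := by omega
  refine ⟨hq1, ?_, ?_⟩
  · intro W hW
    obtain ⟨⟨k1, -, k3, -, k5⟩, k6⟩ := key W hW
    refine ⟨k1, k5, k3, k6, fun σ => ?_⟩
    obtain ⟨P, hP⟩ := Set.ncard_eq_one.mp hg
    have hm : ∀ W' : HeightOneSpectrum (𝓞 F), W'.under (𝓞 k) = v → W'.asIdeal = P := by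
      intro W' hW'
      have h1 : W'.asIdeal ∈ v.asIdeal.primesOver (𝓞 F) :=
        ⟨W'.isPrime, ⟨by rw [← hW']; rfl⟩⟩
      rw [hP] at h1
      exact h1
    apply HeightOneSpectrum.ext
    rw [hm W hW, hm (gpl σ W) (by rw [gpl_under, hW])]
  · intro c hc
    obtain ⟨T, hT, hTc, f, hf, hfR⟩ := rac_inj hβ hR hgen
    have h1 : Nat.card Gal(F/k) = Nat.card T := by
      rw [IsGalois.card_aut_eq_finrank, Nat.card_eq_fintype_card, Fintype.card_coe]
      omega
    have hb : Function.Bijective f := by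
      rw [Nat.bijective_iff_injective_and_card]
      exact ⟨hf, h1⟩
    obtain ⟨a, ha, hd⟩ := hT.ex c hc
    obtain ⟨σ, hσ⟩ := hb.2 ⟨a, ha⟩
    refine ⟨σ, ?_⟩
    rw [hfR σ, hσ]
    exact ((hR.sm_eq_iff c a).2 hd).symm

/-- the inertia groups act trivially at the places prime to `6 D β` -/
theorem nos (W : HeightOneSpectrum (𝓞 F)) (hb : W.valuation F (bD F) = 1)
    (hW : W.valuation F (algebraMap K F (β : K)) = 1) (σ : Gal(F/k))
    (hσ : ∀ x : 𝓞 F, σ • x - x ∈ W.asIdeal) : σ = 1 := by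
  apply hgen
  by_contra hne
  have hQ : Ord β (ga σ R) := Ord.ga σ hR
  have hk1 := not_ker_of_val (W.valuation F) hβ hR hW
  have hk2 := not_ker_of_val (W.valuation F) hβ hQ hW
  obtain ⟨_, hx, hy⟩ := not_ker (W.valuation F) hk1
  have hker : Ker (W.valuation F) (R - ga σ R) := by
    apply red_inj (W.valuation F) hb hk1 hk2
    · rw [xc_ga]
      exact raD_val W σ hσ hx
    · rw [yc_ga]
      exact raD_val W σ hσ hy
  have h0 : sm F β (R - ga σ R) = 0 := by
    rw [map_sub, (hR β).2 dvd_rfl, (hQ β).2 dvd_rfl, sub_zero]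
  have hO : Ord β (R - ga σ R) := ord_of_prime hβ h0 (fun h => hne (sub_eq_zero.1 h).symm)
  exact not_ker_of_val (W.valuation F) hβ hO hW hker

theorem unram (W : HeightOneSpectrum (𝓞 F)) (hb : W.valuation F (bD F) = 1)
    (hW : W.valuation F (algebraMap K F (β : K)) = 1) :
    W.asIdeal.ramificationIdx (𝓞 k) = 1 := by
  have h1 : W.asIdeal.inertia Gal(F/k) = ⊥ := by
    rw [eq_bot_iff]
    intro σ hσ
    rw [Subgroup.mem_bot]
    exact nos hβ hβ1 hR hgen W hb hW σ (fun x => hσ x)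
  have hp0 : W.asIdeal.under (𝓞 k) ≠ ⊥ := (W.under (𝓞 k)).ne_bot
  have hfin : Finite (𝓞 k ⧸ W.asIdeal.under (𝓞 k)) :=
    Ring.HasFiniteQuotients.finiteQuotient hp0
  have h2 := Ideal.card_inertia_eq_ramificationIdxIn (G := Gal(F/k)) (W.asIdeal.under (𝓞 k))
    W.asIdeal
  rw [Ideal.ramificationIdxIn_eq_ramificationIdx _ W.asIdeal Gal(F/k)] at h2
  rw [← h2, h1]
  exact Nat.card_unique

end

end Pool.Agent.Lib.MP_1a91b9_ntX.DB
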