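import Pool.Agent.Lib.MP_1a91b9_ntX.DB.Tors

/-!
# Points of `y² = x³ + D` with annihilator `(β)` (port of MP_1a91b9_ntT/DB/Tor2.lean)
-/

set_option autoImplicit false

namespace Pool.Agent.Lib.MP_1a91b9_ntX.DB

open NumberField IsDedekindDomain WeierstrassCurve Pool.Agent.Lib.MP_1a91b9_ntT S3

variable [DD]

/-- the annihilator of `R` is `(β)` -/
def Ord {F : Type*} [Field F] [Algebra K F] [DecidableEq F] (β : 𝓞 K) (R : Pt F) : Prop :=
  ∀ c : 𝓞 K, sm F c R = 0 ↔ β ∣ c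

section
variable {F F' : Type*} [Field F] [Algebra K F] [DecidableEq F] [Field F'] [Algebra K F']
  [DecidableEq F'] {β : 𝓞 K}

private theorem t2a_pid : IsPrincipalIdealRing (𝓞 K) := IsCyclotomicExtension.Rat.three_pid K

private theorem t2a_mul (a b : 𝓞 K) (R : Pt F) : sm F (a * b) R = sm F a (sm F b R) := by
  rw [map_mul]
  rfl

private theorem t2a_add (a b : 𝓞 K) (R : Pt F) : sm F (a + b) R = sm F a R + sm F b R := by
  rw [map_add]
  rfl

private theorem t2a_sub (a b : 𝓞 K) (R : Pt F) : sm F (a - b) R = sm F a R - sm F b R := by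
  rw [map_sub]
  rfl

private theorem t2a_one (R : Pt F) : sm F 1 R = R := by
  rw [map_one]
  rfl

/-- a combination which is `1` -/
private theorem t2a_comb {R : Pt F} {x c y : 𝓞 K} (h : x * c + y * β = 1)
    (hR : sm F β R = 0) : sm F x (sm F c R) = R := by
  have h1 := t2a_one R
  rw [← h, t2a_add, t2a_mul, t2a_mul, hR, map_zero, add_zero] at h1
  exact h1

theorem ord_of_prime (hβ : Prime β) {R : Pt F} (hR : sm F β R = 0) (hR0 : R ≠ 0) : Ord β R := by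
  have := t2a_pid
  intro c
  constructor
  · intro hc
    by_contra hd
    obtain ⟨x, y, hxy⟩ := (hβ.irreducible.coprime_iff_not_dvd.2 hd).symm
    have h1 := t2a_comb hxy hR
    rw [hc, map_zero] at h1
    exact hR0 h1.symm
  · rintro ⟨d, rfl⟩
    rw [mul_comm, t2a_mul, hR, map_zero]

theorem Ord.sm_eq_iff {R : Pt F} (hR : Ord β R) (c d : 𝓞 K) :
    sm F c R = sm F d R ↔ β ∣ c - d := by
  rw [← hR (c - d), t2a_sub, sub_eq_zero]

theorem Ord.map (f : F →ₐ[K] F') {R : Pt F} : Ord β (pm f R) ↔ Ord β R := by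
  refine forall_congr' fun c => ?_
  rw [← pm_sm, map_eq_zero_iff _ (pm_inj f)]

theorem Ord.ga {k : Type*} [Field k] [Algebra K k] [Algebra k F] [IsScalarTower K k F]
    (σ : F ≃ₐ[k] F) {R : Pt F} (hR : Ord β R) : Ord β (ga σ R) :=
  (Ord.map ((σ : F →ₐ[k] F).restrictScalars K)).2 hR

theorem Ord.smul {R : Pt F} (hR : Ord β R) {c : 𝓞 K} (hc : IsCoprime c β) :
    Ord β (sm F c R) := by
  intro d
  rw [← t2a_mul, hR]
  exact ⟨fun h => hc.symm.dvd_of_dvd_mul_right h, fun h => Dvd.dvd.mul_right h c⟩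

/-- the annihilator of a multiple -/
theorem Ord.coprime {R : Pt F} (hR : Ord β R) (hβ0 : β ≠ 0) {c : 𝓞 K} (hc : Ord β (sm F c R)) :
    IsCoprime c β := by
  have := t2a_pid
  obtain ⟨a, b, hab⟩ := IsBezout.gcd_eq_sum c β
  obtain ⟨c', hc'⟩ := IsBezout.gcd_dvd_left c β
  obtain ⟨β', hβ'⟩ := IsBezout.gcd_dvd_right c β
  set g := IsBezout.gcd c β
  have h1 : β ∣ β' := by
    rw [← hc β', ← t2a_mul, hR]
    refine ⟨c', ?_⟩
    calc β' * c = β' * (g * c') := by rw [← hc']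
      _ = g * β' * c' := by ring
      _ = β * c' := by rw [← hβ']
  obtain ⟨t, ht⟩ := h1
  have hβ'0 : β' ≠ 0 := by
    intro h0
    rw [h0, mul_zero] at hβ'
    exact hβ0 hβ'
  have h2 : g * t = 1 := by
    apply mul_left_cancel₀ hβ'0
    calc β' * (g * t) = g * β' * t := by ring
      _ = β * t := by rw [← hβ']
      _ = β' * 1 := by rw [← ht, mul_one]
  exact ⟨t * a, t * b, by linear_combination t * hab + h2⟩

end

private theorem t2a_emb {β : 𝓞 K} (hβ : β ≠ 0) : embK (β : K) ≠ 0 := by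
  intro h0
  apply hβ
  apply RingOfIntegers.ext
  apply embK.toRingHom.injective
  change embK (β : K) = embK 0
  rw [h0, map_zero]

/-- the point `u (1 / β)` -/
private theorem t2a_ord {β : 𝓞 K} (hβ : β ≠ 0) [DecidableEq ℂ] (u : ℂ →+ Pt ℂ)
    (h0 : ∀ z, u z = 0 ↔ z ∈ PP.lattice)
    (h1 : ∀ (a : 𝓞 K) (z : ℂ), u (embK (a : K) * z) = sm ℂ a (u z)) :
    Ord β (u (1 / embK (β : K))) := by
  have hb := t2a_emb hβ
  intro c
  rw [← h1, h0, mem_PP_iff]
  constructor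
  · rintro ⟨a, ha⟩
    refine ⟨a, ?_⟩
    apply RingOfIntegers.ext
    apply embK.toRingHom.injective
    change embK (c : K) = embK ((β : K) * (a : K))
    rw [map_mul, ha]
    field_simp
  · rintro ⟨a, rfl⟩
    refine ⟨a, ?_⟩
    change embK (a : K) = embK ((β : K) * (a : K)) * (1 / embK (β : K))
    rw [map_mul]
    field_simp

theorem exists_ord_C [DecidableEq ℂ] {β : 𝓞 K} (hβ : β ≠ 0) : ∃ R : Pt ℂ, Ord β R := by
  obtain ⟨u, -, h0, -, -, h1⟩ := exists_uni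
  exact ⟨_, t2a_ord hβ u h0 h1⟩

theorem ord_cases {F : Type*} [Field F] [Algebra K F] [DecidableEq F] (f : F →ₐ[K] ℂ)
    {β : 𝓞 K} (hβ : β ≠ 0) {R Q : Pt F} (hR : Ord β R) (hQ : sm F β Q = 0) :
    ∃ c : 𝓞 K, Q = sm F c R := by
  classical
  obtain ⟨u, hs, h0, -, -, h1⟩ := exists_uni
  have hb := t2a_emb hβ
  have hu := t2a_ord hβ u h0 h1
  set U : Pt ℂ := u (1 / embK (β : K)) with hU
  have key : ∀ P : Pt ℂ, sm ℂ β P = 0 → ∃ a : 𝓞 K, P = sm ℂ a U := by
    intro P hP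
    obtain ⟨z, rfl⟩ := hs P
    rw [← h1, h0, mem_PP_iff] at hP
    obtain ⟨a, ha⟩ := hP
    refine ⟨a, ?_⟩
    rw [hU, ← h1, ha]
    congr 1
    field_simp
  have hR' : Ord β (pm f R) := (Ord.map f).2 hR
  obtain ⟨a, ha⟩ := key (pm f R) ((hR' β).2 dvd_rfl)
  obtain ⟨b, hb'⟩ := key (pm f Q) (by rw [← pm_sm, hQ, map_zero])
  rw [ha] at hR'
  obtain ⟨x, y, hxy⟩ := hu.coprime hβ hR'
  have h2 := t2a_comb hxy ((hu β).2 dvd_rfl)
  refine ⟨b * x, pm_inj f ?_⟩
  rw [pm_sm, hb', ha, t2a_mul, h2]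

end Pool.Agent.Lib.MP_1a91b9_ntX.DB
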