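import Pool.Agent.Lib.MP_1a91b9_ntX.DB.Uni

/-!
# The points of `y² = x³ + D` killed by a prime element of degree one (port of
MP_1a91b9_ntT/DB/Tors.lean)
-/

set_option autoImplicit false

namespace Pool.Agent.Lib.MP_1a91b9_ntX.DB

open NumberField IsDedekindDomain WeierstrassCurve Pool.Agent.Lib.MP_1a91b9_ntT S3

variable [DD]

section
variable {F : Type*} [Field F] [Algebra K F] [DecidableEq F] {β : 𝓞 K} {p : ℕ}

private theorem toa_dvd {R : Pt F} (hR : sm F β R = 0) {c : 𝓞 K} (hc : β ∣ c) :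
    sm F c R = 0 := by
  obtain ⟨d, rfl⟩ := hc
  rw [mul_comm, map_mul]
  change sm F d (sm F β R) = 0
  rw [hR, map_zero]

theorem sm_eq_int {R : Pt F} (hR : sm F β R = 0) {c : 𝓞 K} {k : ℤ} (hc : β ∣ c - k) :
    sm F c R = k • R := by
  have h1 := toa_dvd hR hc
  rw [map_sub] at h1
  have h2 : sm F c R - sm F (k : 𝓞 K) R = 0 := h1
  rw [sm_int] at h2
  exact sub_eq_zero.1 h2

theorem p_smul (h : Deg1 β p) {R : Pt F} (hR : sm F β R = 0) : p • R = 0 := by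
  have h1 : β ∣ ((p : ℤ) : 𝓞 K) := (h.dvd_int_iff p).2 dvd_rfl
  have h2 := toa_dvd hR h1
  rw [sm_int, natCast_zsmul] at h2
  exact h2

theorem smul_zero_iff (h : Deg1 β p) {R : Pt F} (hR : sm F β R = 0) (hR0 : R ≠ 0) (n : ℤ) :
    n • R = 0 ↔ (p : ℤ) ∣ n := by
  constructor
  · intro h1
    by_contra h2
    have hp : Prime (p : ℤ) := Nat.prime_iff_prime_int.1 h.prime
    have h3 : IsCoprime (p : ℤ) n := (hp.coprime_iff_not_dvd).2 h2
    obtain ⟨a, b, hab⟩ := h3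
    apply hR0
    have h4 := p_smul h hR
    calc R = (1 : ℤ) • R := (one_zsmul R).symm
      _ = (a * p + b * n) • R := by rw [hab]
      _ = a • ((p : ℤ) • R) + b • (n • R) := by rw [add_zsmul, mul_zsmul, mul_zsmul]
      _ = 0 := by rw [h1, natCast_zsmul, h4, zsmul_zero, zsmul_zero, add_zero]
  · rintro ⟨k, rfl⟩
    rw [mul_comm, mul_zsmul, natCast_zsmul, p_smul h hR, zsmul_zero]

end

private theorem tob_embK_inj {a b : 𝓞 K} (h : embK (a : K) = embK (b : K)) : a = b :=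
  RingOfIntegers.ext (embK.toRingHom.injective h)

private theorem tob_embK_ne {β : 𝓞 K} {p : ℕ} (h : Deg1 β p) : embK (β : K) ≠ 0 := by
  intro h0
  apply h.isPrime.ne_zero
  apply tob_embK_inj
  rw [h0]
  exact (map_zero embK).symm

private theorem tob_aux [DecidableEq ℂ] {β : 𝓞 K} {p : ℕ} (h : Deg1 β p) :
    ∃ R : Pt ℂ, R ≠ 0 ∧ sm ℂ β R = 0 ∧
      ∀ Q : Pt ℂ, sm ℂ β Q = 0 → ∃ k : ℕ, k < p ∧ Q = k • R := by
  obtain ⟨u, hsurj, hker, -, -, hsm⟩ := exists_uni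
  have hβ := tob_embK_ne h
  have hone : (1 : ℂ) ∈ PP.lattice := S3.mem_PP_iff.2 ⟨1, map_one embK⟩
  refine ⟨u (1 / embK (β : K)), ?_, ?_, ?_⟩
  · intro h0
    rw [hker] at h0
    obtain ⟨b, hb⟩ := S3.mem_PP_iff.1 h0
    apply h.isPrime.not_isUnit
    refine IsUnit.of_mul_eq_one b (tob_embK_inj ?_)
    have e1 : ((β * b : 𝓞 K) : K) = (β : K) * (b : K) := rfl
    rw [e1, map_mul, hb, mul_one_div_cancel hβ]
    exact (map_one embK).symm
  · rw [← hsm, mul_one_div_cancel hβ, hker]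
    exact hone
  · intro Q hQ
    obtain ⟨z, rfl⟩ := hsurj Q
    rw [← hsm, hker] at hQ
    obtain ⟨c, hc⟩ := S3.mem_PP_iff.1 hQ
    obtain ⟨k, hk, d, hd⟩ := h.exists_int c
    refine ⟨k, hk, ?_⟩
    have e1 : embK (c : K) = k + embK (β : K) * embK (d : K) := by
      have e2 : c = k + β * d := by rw [← hd]; ring
      have e3 : (c : K) = (k : K) + (β : K) * (d : K) := by
        rw [e2]
        change algebraMap (𝓞 K) K (k + β * d) = _
        rw [map_add, map_mul, map_natCast]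
      rw [e3, map_add, map_mul, map_natCast]
    have e2 : z = k • (1 / embK (β : K)) + embK (d : K) := by
      rw [nsmul_eq_mul]
      apply mul_left_cancel₀ hβ
      rw [← hc, e1]
      field_simp
    have e3 : u (embK (d : K)) = 0 := (hker _).2 (S3.embK_mem d)
    conv_lhs => rw [e2]
    rw [map_add, map_nsmul, e3, add_zero]

theorem exists_tors_C [DecidableEq ℂ] {β : 𝓞 K} {p : ℕ} (h : Deg1 β p) :
    ∃ R : Pt ℂ, R ≠ 0 ∧ sm ℂ β R = 0 := by
  obtain ⟨R, h0, h1, -⟩ := tob_aux h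
  exact ⟨R, h0, h1⟩

theorem tors_cases_C [DecidableEq ℂ] {β : 𝓞 K} {p : ℕ} (h : Deg1 β p) {R Q : Pt ℂ}
    (hR : sm ℂ β R = 0) (hR0 : R ≠ 0) (hQ : sm ℂ β Q = 0) : ∃ a : ℕ, a < p ∧ Q = a • R := by
  obtain ⟨R0, -, h1, h2⟩ := tob_aux h
  obtain ⟨j, -, hj⟩ := h2 R hR
  obtain ⟨k, -, hk⟩ := h2 Q hQ
  have hpR0 : p • R0 = 0 := p_smul h h1
  have hpR : p • R = 0 := p_smul h hR
  have hcop : Nat.Coprime j p := by
    rw [Nat.coprime_comm, Nat.Prime.coprime_iff_not_dvd h.prime]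
    rintro ⟨i, rfl⟩
    apply hR0
    rw [hj, mul_comm, mul_nsmul', hpR0, nsmul_zero]
  obtain ⟨i, -, hi⟩ := Nat.exists_mul_mod_eq_one_of_coprime hcop h.prime.one_lt
  have h3 : R0 = i • R := by
    rw [hj, ← mul_nsmul, nsmul_eq_mod_nsmul _ hpR0, hi, one_nsmul]
  refine ⟨(i * k) % p, Nat.mod_lt _ h.prime.pos, ?_⟩
  rw [← nsmul_eq_mod_nsmul _ hpR, hk, h3, ← mul_nsmul]

/-- the points killed by `β` are the multiples of one of them -/
theorem tors_cases {F : Type*} [Field F] [Algebra K F] [DecidableEq F] (f : F →ₐ[K] ℂ)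
    {β : 𝓞 K} {p : ℕ} (h : Deg1 β p) {R Q : Pt F} (hR : sm F β R = 0) (hR0 : R ≠ 0)
    (hQ : sm F β Q = 0) : ∃ a : ℕ, a < p ∧ Q = a • R := by
  classical
  have h1 : sm ℂ β (pm f R) = 0 := by rw [← pm_sm, hR, map_zero]
  have h2 : sm ℂ β (pm f Q) = 0 := by rw [← pm_sm, hQ, map_zero]
  have h3 : pm f R ≠ 0 := by
    intro h0
    apply hR0
    apply pm_inj f
    rw [h0, map_zero]
  obtain ⟨a, ha, hQa⟩ := tors_cases_C h h1 h3 h2
  refine ⟨a, ha, ?_⟩
  apply pm_inj f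
  rw [hQa, map_nsmul]

end Pool.Agent.Lib.MP_1a91b9_ntX.DB
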