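import Pool.Agent.Lib.MP_1a91b9_ntX.DB.Phi
import Pool.Agent.Lib.MP_1a91b9_ntT.DB.Uni

/-!
# The complex uniformisation of `y² = x³ + D` by the lattice of `y² + y = x³`

PROOF. `u = phi ∘ u_0`, `u_0` from `MP_1a91b9_ntT.DB.exists_uni`, `δ` from `exists_delta`: `xc_phi`, `yc_phi`
(`2 (Y z - 1)/2 + 1 = Y z`), `phi_omH`, `phi_sm`, bijectivity of `phi`.
-/

set_option autoImplicit false

namespace Pool.Agent.Lib.MP_1a91b9_ntX.DB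

open NumberField IsDedekindDomain WeierstrassCurve Pool.Agent.Lib.MP_1a91b9_ntT S3

variable [DD]

theorem exists_uni_delta [DecidableEq ℂ] (δ : ℂ) (hδ : 16 * δ ^ 6 = dD ℂ) :
    ∃ u : ℂ →+ Pt ℂ, Function.Surjective u ∧
    (∀ z, u z = 0 ↔ z ∈ PP.lattice) ∧
    (∀ z, z ∉ PP.lattice → xc (u z) = 4 * δ ^ 2 * X z ∧ yc (u z) = 4 * δ ^ 3 * Y z) ∧
    (∀ z, u (zt * z) = omH ℂ (u z)) ∧
    ∀ (a : 𝓞 K) (z : ℂ), u (embK (a : K) * z) = sm ℂ a (u z) := by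
  obtain ⟨u0, h1, h2, h3, h4, h5⟩ := MP_1a91b9_ntT.DB.exists_uni
  refine ⟨((phi ℂ δ hδ : MP_1a91b9_ntT.DB.Pt ℂ →+ Pt ℂ)).comp u0, ?_, ?_, ?_, ?_, ?_⟩
  · exact (phi ℂ δ hδ).surjective.comp h1
  · intro z
    rw [← h2 z]
    exact (phi ℂ δ hδ).map_eq_zero_iff
  · intro z hz
    have h0 : u0 z ≠ 0 := fun h => hz ((h2 z).1 h)
    obtain ⟨hx, hy⟩ := h3 z hz
    refine ⟨?_, ?_⟩
    · refine (xc_phi hδ (u0 z)).trans ?_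
      rw [hx]
    · refine (yc_phi hδ h0).trans ?_
      rw [hy]
      ring
  · intro z
    change phi ℂ δ hδ (u0 (zt * z)) = omH ℂ (phi ℂ δ hδ (u0 z))
    rw [h4, phi_omH]
  · intro a z
    change phi ℂ δ hδ (u0 (embK (a : K) * z)) = sm ℂ a (phi ℂ δ hδ (u0 z))
    rw [h5, phi_sm]

theorem exists_uni [DecidableEq ℂ] : ∃ u : ℂ →+ Pt ℂ, Function.Surjective u ∧
    (∀ z, u z = 0 ↔ z ∈ PP.lattice) ∧
    (∃ δ : ℂ, 16 * δ ^ 6 = dD ℂ ∧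
      ∀ z, z ∉ PP.lattice → xc (u z) = 4 * δ ^ 2 * X z ∧ yc (u z) = 4 * δ ^ 3 * Y z) ∧
    (∀ z, u (zt * z) = omH ℂ (u z)) ∧
    ∀ (a : 𝓞 K) (z : ℂ), u (embK (a : K) * z) = sm ℂ a (u z) := by
  obtain ⟨δ, hδ⟩ := exists_delta
  obtain ⟨u, h1, h2, h3, h4, h5⟩ := exists_uni_delta δ hδ
  exact ⟨u, h1, h2, ⟨δ, hδ, h3⟩, h4, h5⟩

end Pool.Agent.Lib.MP_1a91b9_ntX.DB
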