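import Pool.Agent.Lib.MP_1a91b9_ntX.DB.Free

/-!
# The kernel of reduction of `y² = x³ + D` at a valuation, basic facts (port of
MP_1a91b9_ntT/DB/ValA.lean)
-/

set_option autoImplicit false

namespace Pool.Agent.Lib.MP_1a91b9_ntX.DB

open NumberField IsDedekindDomain WeierstrassCurve Pool.Agent.Lib.MP_1a91b9_ntT


variable [DD]

section
variable {F : Type*} [Field F] [Algebra K F] {Γ : Type*} [LinearOrderedCommGroupWithZero Γ]
  (v : Valuation F Γ)

theorem v_dD_le : v (dD F) ≤ 1 := v_int_le v DD.D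

/-- the valuations of the coordinates of a point of the kernel of reduction -/
theorem ker_val {x y : F} (h : y ^ 2 = x ^ 3 + dD F) (hx : 1 < v x) :
    1 < v y ∧ v y ^ 2 = v x ^ 3 := by
  have hx3 : 1 < v x ^ 3 := one_lt_pow₀ hx (by norm_num)
  have h2 : v (x ^ 3 + dD F) = v x ^ 3 := by
    rw [← map_pow v x]
    refine v.map_add_eq_of_lt_left ?_
    rw [map_pow]
    exact lt_of_le_of_lt (v_dD_le v) hx3
  have h1 : v y ^ 2 = v x ^ 3 := by rw [← map_pow v y, h, h2]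
  refine ⟨?_, h1⟩
  by_contra hc
  rw [not_lt] at hc
  have h3 : v y ^ 2 ≤ 1 := pow_le_one₀ zero_le hc
  rw [h1] at h3
  exact absurd hx3 (not_lt.mpr h3)

theorem ker_iff_y {P : Pt F} (hP : P ≠ 0) : 1 < v (xc P) ↔ 1 < v (yc P) := by
  obtain ⟨h, -⟩ := exists_mk hP
  refine ⟨fun hx => (ker_val v h hx).1, fun hy => ?_⟩
  by_contra hc
  rw [not_lt] at hc
  have h5 : 1 < v (yc P) ^ 2 := one_lt_pow₀ hy (by norm_num)
  rw [← map_pow, h] at h5
  refine absurd h5 (not_lt.mpr ((v.map_add _ _).trans (max_le ?_ (v_dD_le v))))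
  rw [map_pow]
  exact pow_le_one₀ zero_le hc

theorem not_ker {P : Pt F} (hP : ¬ Ker v P) : P ≠ 0 ∧ v (xc P) ≤ 1 ∧ v (yc P) ≤ 1 := by
  have h0 : P ≠ 0 := fun h => hP (Or.inl h)
  have h1 : ¬ 1 < v (xc P) := fun h => hP (Or.inr h)
  have h2 : ¬ 1 < v (yc P) := fun h => h1 ((ker_iff_y v h0).mpr h)
  exact ⟨h0, not_lt.mp h1, not_lt.mp h2⟩

theorem ker_tc {P : Pt F} (h : Ker v P) (hP : P ≠ 0) : v (tc P) < 1 ∧ v (tc P) ≠ 0 ∧
    v (xc P) * v (tc P) ^ 2 = 1 ∧ v (yc P) * v (tc P) ^ 3 = 1 := by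
  have hx : 1 < v (xc P) := h.resolve_left hP
  obtain ⟨he, -⟩ := exists_mk hP
  obtain ⟨hy, hxy⟩ := ker_val v he hx
  have hx0 : v (xc P) ≠ 0 := (lt_trans zero_lt_one hx).ne'
  have hy0 : v (yc P) ≠ 0 := (lt_trans zero_lt_one hy).ne'
  have ht : v (tc P) = v (xc P) / v (yc P) := by
    unfold tc
    rw [map_div₀, v.map_neg]
  have h1 : v (xc P) * v (tc P) ^ 2 = 1 := by
    rw [ht, div_pow, hxy, mul_div_assoc', ← pow_succ', div_self (pow_ne_zero 3 hx0)]
  have h2 : v (yc P) * v (tc P) ^ 3 = 1 := by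
    rw [ht, div_pow, ← hxy, mul_div_assoc', ← pow_succ', div_self (pow_ne_zero 3 hy0)]
  have h3 : v (tc P) ≠ 0 := by
    rw [ht]
    exact div_ne_zero hx0 hy0
  refine ⟨?_, h3, h1, h2⟩
  by_contra hc
  rw [not_lt] at hc
  have h4 : 1 ≤ v (tc P) ^ 2 := one_le_pow₀ hc
  have h5 : 1 < v (xc P) * v (tc P) ^ 2 := lt_of_lt_of_le hx (le_mul_of_one_le_right zero_le h4)
  exact absurd h1 h5.ne'

theorem ker_tc_lt {P : Pt F} (h : Ker v P) : v (tc P) < 1 := by
  by_cases hP : P = 0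
  · rw [hP, tc_zero, map_zero]
    exact zero_lt_one
  · exact (ker_tc v h hP).1

theorem ker_tc_zero {P : Pt F} (h : Ker v P) (h0 : tc P = 0) : P = 0 := by
  by_contra hP
  have h1 := (ker_tc v h hP).2.1
  rw [h0, map_zero] at h1
  exact h1 rfl

/-- the second coordinate `w = - 1 / y` satisfies `w = t ^ 3 + D w ^ 3` -/
theorem ker_w {P : Pt F} (h : Ker v P) (hP : P ≠ 0) :
    -1 / yc P = tc P ^ 3 + dD F * (-1 / yc P) ^ 3 ∧ v (-1 / yc P) = v (tc P) ^ 3 ∧
      xc P = tc P / (-1 / yc P) := by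
  have hx : 1 < v (xc P) := h.resolve_left hP
  obtain ⟨he, -⟩ := exists_mk hP
  obtain ⟨hy, hxy⟩ := ker_val v he hx
  have hy0 : yc P ≠ 0 := by
    intro h0
    rw [h0, map_zero] at hy
    exact absurd hy (not_lt.mpr zero_le_one)
  obtain ⟨-, h3, h1, h2⟩ := ker_tc v h hP
  refine ⟨?_, ?_, ?_⟩
  · unfold tc
    field_simp
    linear_combination -he
  · rw [map_div₀, v.map_neg, map_one]
    exact (eq_one_div_of_mul_eq_one_right h2).symm
  · unfold tc
    field_simp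

theorem ker_neg {P : Pt F} (h : Ker v P) : Ker v (-P) := by
  rcases cases_pt P with rfl | ⟨x, y, he, rfl⟩
  · left
    exact Affine.Point.neg_zero
  · right
    rw [neg_mk, xc_mk]
    exact h.resolve_left (mk_ne_zero x y he)

variable [DecidableEq F]

theorem ker_omH {P : Pt F} : Ker v (omH F P) ↔ Ker v P := by
  have h1 : omH F P = 0 ↔ P = 0 := by
    constructor
    · intro h
      rcases cases_pt P with rfl | ⟨x, y, he, rfl⟩
      · rfl
      · exact absurd h (mk_ne_zero (omF F * x) y (by linear_combination he - x ^ 3 * omF_cube F))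
    · rintro rfl
      exact map_zero _
  unfold Ker
  rw [h1, xc_omH, map_mul, v_om, one_mul]

end

end Pool.Agent.Lib.MP_1a91b9_ntX.DB
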