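import Pool.Agent.Lib.MP_1a91b9_ntX.DB.ValB

/-!
# The curves `y² = x³ + D`: adding a point of the kernel of reduction, injectivity of the reduction
(port of MP_1a91b9_ntT/DB/ValC.lean)

PROOF. Port of ntT/DB/ValC.lean.
`add_ker`. `P = (x, y)`, `v x, v y ≤ 1`, `R = (x_R, y_R)`, `t = -x_R/y_R`, `w = -1/y_R`, `w (1 - D w^2) = t^3`, `x_R = t/w`.
Slope `m = (y_R - y)/(x_R - x) = - (1 + y w)/(t - x w)`; `q = w/t = t^2/(1 - D w^2)`, `t - x w = t (1 - x q)`, `v (1 - x q) = 1`,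
`x_R = 1/q`. `t^2 (x_3 + x)(1 - x q)^2 = (1 + y w)^2 - (1 - D w^2)(1 - x q)^2
 = 2 y t q + (y^2 + D) t^2 q^2 + 2 x t^2 - x^2 t^2 q`, so
`(x_3 - x)(1 - x q)^2 = 2 y t/(1 - D w^2) + (y^2 + D) q^2 + 3 x^2 q - 2 x^3 q^2`: `v (x_3 - x - 2 y t) ≤ v t^2`.
`y_3 = -(m (x_3 - x) + y)`, `m (x_3 - x) = - (1 + y w)(x_3 - x)/(t (1 - x q)) = - 2 y` modulo `v ≤ v t`: `v (y_3 - y) ≤ v t`.
`P + R ≠ 0` as `v x_R > 1`.
`red_inj`. `P + (-Q)`, `-Q = (x', -y')`. `x ≠ x'`: slope `m = (y + y')/(x - x')`, `m (y - y') = x^2 + x x' + x'^2`. If `v m ≤ 1` then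
`v (2 y) < 1`, `v (3 x^2) < 1`, so (`v 2 = v 3 = 1` as `v (6 D) = 1` and `v` of an integer is `≤ 1`) `v y < 1`, `v x < 1` and
`D = y^2 - x^3` has `v D < 1`, contradiction with `v D = 1`. `x = x'`, `y' = -y ≠ y`: `v (2 y) = v (y - y') < 1`, slope `3 x^2/(2 y)`.
`y_inj` as before (`x^3 - x'^3 = (y - y')(y + y')`). `x_inj`: `(y - y')(y + y') = x^3 - x'^3` has `v < 1`: `red_inj` for `Q` or `-Q`
(`v (y - y') < 1` or `v (y + y') < 1`).
`x_unit`: both abscissae are integral; if `v (x - x') < 1` then `x_inj`.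
-/

set_option autoImplicit false

namespace Pool.Agent.Lib.MP_1a91b9_ntX.DB

open NumberField IsDedekindDomain WeierstrassCurve Pool.Agent.Lib.MP_1a91b9_ntT

variable [DD]

section
variable {F : Type*} [Field F] [Algebra K F] [DecidableEq F] {Γ : Type*}
  [LinearOrderedCommGroupWithZero Γ] (v : Valuation F Γ)

/-- adding a point of the kernel of reduction does not change the reduction -/
theorem add_ker {P R : Pt F} (hP : ¬ Ker v P) (hR : Ker v R) : ¬ Ker v (P + R) ∧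
    v (xc (P + R) - xc P - 2 * yc P * tc R) ≤ v (tc R) ^ 2 ∧
    v (yc (P + R) - yc P) ≤ v (tc R) := by
  obtain ⟨hne, hx, hy⟩ := not_ker v hP
  rcases eq_or_ne R 0 with rfl | hR0
  · rw [add_zero, tc_zero]
    refine ⟨hP, ?_, ?_⟩ <;> simp
  obtain ⟨hw1, hw2, hw3⟩ := ker_w v hR hR0
  obtain ⟨ht1, ht2, ht3, ht4⟩ := ker_tc v hR hR0
  have hxR : 1 < v (xc R) := hR.resolve_left hR0
  obtain ⟨eP, hPe⟩ := exists_mk hne
  obtain ⟨eR, hRe⟩ := exists_mk hR0
  have hxne : xc P ≠ xc R := by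
    intro h
    rw [h] at hx
    exact absurd hxR (not_lt.2 hx)
  obtain ⟨h', hadd⟩ := mk_add (xc P) (yc P) (xc R) (yc R) eP eR hxne
  rw [← hPe, ← hRe] at hadd
  rw [hadd, xc_mk, yc_mk]
  have hyR : yc R ≠ 0 := by
    intro h
    rw [h, map_zero, zero_mul] at ht4
    exact zero_ne_one ht4
  have hKer : ∀ {X Y : F} (h : Y ^ 2 = X ^ 3 + dD F), v X ≤ 1 → ¬ Ker v (mkPt X Y h) := by
    rintro X Y h hX (h0 | h0)
    · exact mk_ne_zero _ _ _ h0
    · rw [xc_mk] at h0
      exact absurd h0 (not_lt.2 hX)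
  obtain ⟨x, hxd⟩ : ∃ x, x = xc P := ⟨_, rfl⟩
  obtain ⟨y, hyd⟩ : ∃ y, y = yc P := ⟨_, rfl⟩
  obtain ⟨X, hXd⟩ : ∃ X, X = xc R := ⟨_, rfl⟩
  obtain ⟨Y, hYd⟩ : ∃ Y, Y = yc R := ⟨_, rfl⟩
  obtain ⟨t, htd⟩ : ∃ t, t = tc R := ⟨_, rfl⟩
  obtain ⟨m, hmd⟩ : ∃ m, m = (yc P - yc R) / (xc P - xc R) := ⟨_, rfl⟩
  obtain ⟨x3, hx3⟩ : ∃ x3, x3 = m ^ 2 - xc P - xc R := ⟨_, rfl⟩
  have hv3 : v x3 ≤ 1 ∧ v (x3 - xc P - 2 * yc P * tc R) ≤ v (tc R) ^ 2 ∧
      v (-(m * (x3 - xc P) + yc P) - yc P) ≤ v (tc R) := by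
    have hm : m * (x - X) = y - Y := by
      rw [hmd, hxd, hyd, hXd, hYd]
      exact div_mul_cancel₀ _ (sub_ne_zero.2 hxne)
    rw [← hxd, ← hXd] at hx3
    rw [← hxd] at hx
    rw [← hyd] at hy
    rw [← htd, ← hYd] at hw1 hw2
    rw [← htd, ← hYd, ← hXd] at hw3
    rw [← htd] at ht1 ht2
    rw [← hYd] at hyR
    rw [← hxd, ← hyd, ← htd]
    have ht0 : t ≠ 0 := fun h => ht2 (by rw [h, map_zero])
    obtain ⟨w, hwd⟩ : ∃ w, w = -1 / Y := ⟨_, rfl⟩
    rw [← hwd] at hw1 hw2 hw3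
    have hwY : w * Y = -1 := by
      rw [hwd]
      exact div_mul_cancel₀ _ hyR
    have hw0 : w ≠ 0 := by
      intro h
      rw [h, zero_mul] at hwY
      exact (neg_ne_zero.2 one_ne_zero) hwY.symm
    obtain ⟨q, hqd⟩ : ∃ q, q = w / t := ⟨_, rfl⟩
    have hwq : w = t * q := by
      rw [hqd, mul_div_cancel₀ _ ht0]
    have hq0 : q ≠ 0 := by
      rw [hqd]
      exact div_ne_zero hw0 ht0
    have hvq : v q = v t ^ 2 := by
      have h1 : v t * v q = v t * v t ^ 2 := by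
        rw [← map_mul, ← hwq, hw2, pow_succ' (v t) 2]
      exact mul_left_cancel₀ ht2 h1
    obtain ⟨D, hDd⟩ : ∃ D, D = dD F := ⟨_, rfl⟩
    have hvD : v D ≤ 1 := by
      rw [hDd]
      exact v_dD_le v
    rw [← hDd] at hw1
    have hrel : q - t ^ 2 - D * t ^ 2 * q ^ 3 = 0 := by
      have h1 : t * (q - t ^ 2 - D * t ^ 2 * q ^ 3) = 0 := by
        rw [hwq] at hw1
        linear_combination hw1
      exact (mul_eq_zero.1 h1).resolve_left ht0
    have hXq : X * q = 1 := by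
      rw [hw3, hwq]
      field_simp
    have hYq : Y * (t * q) = -1 := by
      rw [← hwq, mul_comm]
      exact hwY
    have hXt : t ^ 2 * X = 1 - D * t ^ 2 * q ^ 2 := by
      linear_combination (1 - D * t ^ 2 * q ^ 2) * hXq - X * hrel
    have H1 : m * t * (1 - x * q) + (1 + y * (t * q)) = 0 := by
      linear_combination (-(t * q)) * hm + (-(m * t)) * hXq + hYq
    have key : (x3 - x - 2 * y * t) * (1 - x * q) ^ 2
        = (2 * y * D * t * q ^ 2 + (y ^ 2 + D) * q + 3 * x ^ 2 - 2 * x ^ 3 * q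
          + 2 * y * t * (2 * x - x ^ 2 * q)) * q := by
      have h1 : t ^ 2 * ((x3 - x - 2 * y * t) * (1 - x * q) ^ 2)
        = t ^ 2 * ((2 * y * D * t * q ^ 2 + (y ^ 2 + D) * q + 3 * x ^ 2 - 2 * x ^ 3 * q
          + 2 * y * t * (2 * x - x ^ 2 * q)) * q) := by
        rw [hx3]
        linear_combination (m * t * (1 - x * q) - (1 + y * (t * q))) * H1
          - (1 - x * q) ^ 2 * hXt + (2 * y * t + 2 * x - x ^ 2 * q) * hrel
      exact mul_left_cancel₀ (pow_ne_zero 2 ht0) h1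
    -- valuations
    have ht2le : v t ^ 2 ≤ v t := by
      rw [pow_two]
      exact mul_le_of_le_one_right zero_le ht1.le
    have ht2lt : v t ^ 2 < 1 := lt_of_le_of_lt ht2le ht1
    have hq1 : v q ≤ 1 := by rw [hvq]; exact ht2lt.le
    have hmul : ∀ {a b : F}, v a ≤ 1 → v b ≤ v t ^ 2 → v (a * b) ≤ v t ^ 2 := by
      intro a b ha hb
      rw [map_mul]
      calc v a * v b ≤ 1 * v t ^ 2 := mul_le_mul' ha hb
        _ = v t ^ 2 := one_mul _
    have hone : ∀ {a b : F}, v a ≤ 1 → v b ≤ 1 → v (a * b) ≤ 1 := by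
      intro a b ha hb
      rw [map_mul]
      exact mul_le_one' ha hb
    have hadd2 : ∀ {a b : F}, v a ≤ v t ^ 2 → v b ≤ v t ^ 2 → v (a + b) ≤ v t ^ 2 :=
      fun ha hb => (Valuation.map_add v _ _).trans (max_le ha hb)
    have ha1 : ∀ {a b : F}, v a ≤ 1 → v b ≤ 1 → v (a + b) ≤ 1 :=
      fun ha hb => (Valuation.map_add v _ _).trans (max_le ha hb)
    have hs1 : ∀ {a b : F}, v a ≤ 1 → v b ≤ 1 → v (a - b) ≤ 1 :=
      fun ha hb => (Valuation.map_sub v _ _).trans (max_le ha hb)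
    have hp1 : ∀ {a : F} (n : ℕ), v a ≤ 1 → v (a ^ n) ≤ 1 := by
      intro a n ha
      rw [map_pow]
      exact pow_le_one₀ zero_le ha
    have hnat : ∀ n : ℕ, v (n : F) ≤ 1 := fun n => v_nat_le v n
    have v2 : v (2 : F) ≤ 1 := by simpa using hnat 2
    have v3 : v (3 : F) ≤ 1 := by simpa using hnat 3
    have h2y : v (2 * y) ≤ 1 := hone v2 hy
    have hD : v (1 - x * q) = 1 := by
      have h1 : v (x * q) < v (1 : F) := by
        rw [map_one, map_mul, hvq]
        exact lt_of_le_of_lt (mul_le_of_le_one_left zero_le hx) ht2lt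
      rw [Valuation.map_sub_eq_of_lt_left v h1, map_one]
    have hq2 : v q ≤ v t ^ 2 := hvq.le
    have hE : v ((2 * y * D * t * q ^ 2 + (y ^ 2 + D) * q + 3 * x ^ 2 - 2 * x ^ 3 * q
          + 2 * y * t * (2 * x - x ^ 2 * q)) * q) ≤ v t ^ 2 := by
      refine hmul ?_ hq2
      refine ha1 (hs1 (ha1 (ha1 ?_ ?_) ?_) ?_) ?_
      · exact hone (hone (hone h2y hvD) ht1.le) (hp1 2 hq1)
      · exact hone (ha1 (hp1 2 hy) hvD) hq1
      · exact hone v3 (hp1 2 hx)
      · exact hone (hone v2 (hp1 3 hx)) hq1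
      · exact hone (hone h2y ht1.le) (hs1 (hone v2 hx) (hone (hp1 2 hx) hq1))
    have hδ : v (x3 - x - 2 * y * t) ≤ v t ^ 2 := by
      have h1 := hE
      rw [← key, map_mul, map_pow, hD, one_pow, mul_one] at h1
      exact h1
    refine ⟨?_, hδ, ?_⟩
    · have h1 : x3 = (x3 - x - 2 * y * t) + (x + 2 * y * t) := by ring
      rw [h1]
      refine (Valuation.map_add v _ _).trans (max_le (hδ.trans ht2lt.le) ?_)
      exact (Valuation.map_add v _ _).trans (max_le hx (hone h2y ht1.le))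
    · have h1 : t * (1 - x * q) * (-(m * (x3 - x) + y) - y)
          = (x3 - x - 2 * y * t) * (1 + y * (t * q))
            + 2 * y * t * (y * t + x) * q := by
        linear_combination (-(x3 - x)) * H1
      have h2 : v (t * (1 - x * q) * (-(m * (x3 - x) + y) - y)) ≤ v t ^ 2 := by
        rw [h1]
        refine hadd2 ?_ ?_
        · rw [mul_comm]
          refine hmul ?_ hδ
          refine (Valuation.map_add v _ _).trans (max_le (by rw [map_one]) ?_)
          exact hone hy (hone ht1.le hq1)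
        · refine hmul ?_ hq2
          refine hone (hone h2y ht1.le) ?_
          exact (Valuation.map_add v _ _).trans (max_le (hone hy ht1.le) hx)
      rw [map_mul, map_mul, hD, mul_one, pow_two] at h2
      exact le_of_mul_le_mul_left h2 (zero_lt_iff.2 ht2)
  subst hx3
  subst hmd
  exact ⟨hKer _ hv3.1, hv3.2.1, hv3.2.2⟩

omit [DD] [Algebra K F] [DecidableEq F] in
private theorem ValC_le_add {a b : F} (ha : v a ≤ 1) (hb : v b ≤ 1) : v (a + b) ≤ 1 :=
  (Valuation.map_add v a b).trans (max_le ha hb)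

omit [DD] [Algebra K F] [DecidableEq F] in
private theorem ValC_le_sub {a b : F} (ha : v a ≤ 1) (hb : v b ≤ 1) : v (a - b) ≤ 1 :=
  (Valuation.map_sub v a b).trans (max_le ha hb)

omit [DD] [Algebra K F] [DecidableEq F] in
private theorem ValC_le_mul {a b : F} (ha : v a ≤ 1) (hb : v b ≤ 1) : v (a * b) ≤ 1 := by
  rw [map_mul]
  exact mul_le_one' ha hb

omit [DD] [Algebra K F] [DecidableEq F] in
private theorem ValC_lt_add {a b : F} (ha : v a < 1) (hb : v b < 1) : v (a + b) < 1 :=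
  lt_of_le_of_lt (Valuation.map_add v a b) (max_lt ha hb)

omit [DD] [Algebra K F] [DecidableEq F] in
private theorem ValC_lt_sub {a b : F} (ha : v a < 1) (hb : v b < 1) : v (a - b) < 1 :=
  lt_of_le_of_lt (Valuation.map_sub v a b) (max_lt ha hb)

omit [DD] [Algebra K F] [DecidableEq F] in
private theorem ValC_lt_mul {a b : F} (ha : v a < 1) (hb : v b ≤ 1) : v (a * b) < 1 := by
  rw [map_mul]
  exact mul_lt_one_of_lt_of_le ha hb

omit [DD] [Algebra K F] [DecidableEq F] in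
private theorem ValC_lt_mul' {a b : F} (ha : v a ≤ 1) (hb : v b < 1) : v (a * b) < 1 := by
  rw [mul_comm]
  exact ValC_lt_mul v hb ha

omit [DecidableEq F] [DD] in
private theorem ValC_two_le : v (2 : F) ≤ 1 := by
  have h := v_nat_le v 2
  simpa using h

omit [DecidableEq F] [DD] in
private theorem ValC_three_le : v (3 : F) ≤ 1 := by
  have h := v_nat_le v 3
  simpa using h

omit [DecidableEq F] in
private theorem ValC_prod (hb : v (bD F) = 1) : v (2 : F) * (v (3 : F) * v (dD F)) = 1 := by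
  rw [← map_mul, ← map_mul]
  have e : (2 : F) * (3 * dD F) = bD F := by
    push_cast
    ring
  rw [e]
  exact hb

omit [DecidableEq F] in
theorem v_two (hb : v (bD F) = 1) : v (2 : F) = 1 := by
  have h := ValC_prod v hb
  have h2 := ValC_two_le v
  have h3 := ValC_three_le v
  have h4 := v_dD_le v
  refine le_antisymm h2 ?_
  rw [← h]
  exact mul_le_of_le_one_right zero_le (mul_le_one' h3 h4)

omit [DecidableEq F] in
theorem v_three (hb : v (bD F) = 1) : v (3 : F) = 1 := by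
  have h := ValC_prod v hb
  rw [v_two v hb, one_mul] at h
  refine le_antisymm (ValC_three_le v) ?_
  rw [← h]
  exact mul_le_of_le_one_right zero_le (v_dD_le v)

omit [DecidableEq F] in
theorem v_dD (hb : v (bD F) = 1) : v (dD F) = 1 := by
  have h := ValC_prod v hb
  rw [v_two v hb, v_three v hb, one_mul, one_mul] at h
  exact h

/-- the reduced curve is smooth -/
private theorem ValC_smooth (hb : v (bD F) = 1) {x y : F} (h : y ^ 2 = x ^ 3 + dD F)
    (h1 : v (2 * y) < 1) (h2 : v (3 * x ^ 2) < 1) : False := by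
  have hx : v x < 1 := by
    rw [map_mul, v_three v hb, one_mul, map_pow] at h2
    by_contra hc
    push Not at hc
    exact absurd (one_le_pow₀ hc) (not_le.2 h2)
  have hy : v y < 1 := by
    rw [map_mul, v_two v hb, one_mul] at h1
    exact h1
  have e : dD F = y * y - x * (x * x) := by
    linear_combination -h
  have h5 : v (dD F) < 1 := by
    rw [e]
    exact ValC_lt_sub v (ValC_lt_mul v hy hy.le) (ValC_lt_mul v hx (ValC_le_mul v hx.le hx.le))
  rw [v_dD v hb] at h5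
  exact lt_irrefl _ h5

/-- the abscissa of a sum with slope of large valuation -/
private theorem ValC_big {m x x' : F} (hm : 1 < v m) (hx : v x ≤ 1) (hx' : v x' ≤ 1) :
    1 < v (m ^ 2 - x - x') := by
  by_contra hc
  push Not at hc
  have e : m ^ 2 = (m ^ 2 - x - x') + x + x' := by ring
  have h1 : v (m ^ 2) ≤ 1 := by
    rw [e]
    exact ValC_le_add v (ValC_le_add v hc hx) hx'
  rw [map_pow] at h1
  exact absurd (one_lt_pow₀ hm (two_ne_zero)) (not_lt.2 h1)

/-- injectivity of the reduction at a place prime to `6 D` -/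
theorem red_inj (hb : v (bD F) = 1) {P Q : Pt F} (hP : ¬ Ker v P) (hQ : ¬ Ker v Q)
    (hx : v (xc P - xc Q) < 1) (hy : v (yc P - yc Q) < 1) : Ker v (P - Q) := by
  obtain ⟨hP0, hPx, hPy⟩ := not_ker v hP
  obtain ⟨hQ0, hQx, hQy⟩ := not_ker v hQ
  by_cases hPQ : P = Q
  · rw [hPQ, sub_self]
    exact Or.inl rfl
  obtain ⟨h, eP⟩ := exists_mk hP0
  obtain ⟨h', eQ⟩ := exists_mk hQ0
  obtain ⟨x, hxx⟩ : ∃ x, x = xc P := ⟨_, rfl⟩
  obtain ⟨y, hyy⟩ : ∃ y, y = yc P := ⟨_, rfl⟩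
  obtain ⟨x', hxx'⟩ : ∃ x', x' = xc Q := ⟨_, rfl⟩
  obtain ⟨y', hyy'⟩ : ∃ y', y' = yc Q := ⟨_, rfl⟩
  rw [← hxx] at hx hPx
  rw [← hxx'] at hx hQx
  rw [← hyy] at hy hPy
  rw [← hyy'] at hy hQy
  have hh : y ^ 2 = x ^ 3 + dD F := by rw [hxx, hyy]; exact h
  have hh' : y' ^ 2 = x' ^ 3 + dD F := by rw [hxx', hyy']; exact h'
  have eP' : P = mkPt x y hh := by
    rw [eP, mk_inj]
    exact ⟨by rw [hxx], by rw [hyy]⟩
  have eQ' : Q = mkPt x' y' hh' := by
    rw [eQ, mk_inj]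
    exact ⟨by rw [hxx'], by rw [hyy']⟩
  have key : (y - y') * (y + y') = (x - x') * (x ^ 2 + x * x' + x' ^ 2) := by
    linear_combination hh - hh'
  rw [sub_eq_add_neg, eP', eQ', neg_mk]
  by_cases hne : x = x'
  · -- the case of a tangent
    have hyne : y - y' ≠ 0 := by
      intro h0
      apply hPQ
      rw [eP', eQ', mk_inj]
      exact ⟨hne, sub_eq_zero.1 h0⟩
    have hy' : y' = -y := by
      have h1 : (y - y') * (y + y') = 0 := by rw [key, hne]; ring
      have h2 := (mul_eq_zero.1 h1).resolve_left hyne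
      linear_combination h2
    have h2y : 2 * y = y - y' := by rw [hy']; ring
    have h2y0 : 2 * y ≠ 0 := by rw [h2y]; exact hyne
    have hy0 : y ≠ 0 := right_ne_zero_of_mul h2y0
    have e2 : mkPt x' (-y') (by linear_combination hh') = mkPt x y hh := by
      rw [mk_inj]
      exact ⟨hne.symm, by rw [hy']; ring⟩
    rw [e2]
    obtain ⟨h'', e3⟩ := mk_dbl x y hh hy0
    rw [e3]
    refine Or.inr ?_
    rw [xc_mk]
    refine ValC_big v ?_ hPx hPx
    have h4 : v (2 * y) < 1 := by rw [h2y]; exact hy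
    have h5 : 1 ≤ v (3 * x ^ 2) := by
      by_contra hc
      push Not at hc
      exact ValC_smooth v hb hh h4 hc
    have h6 : v (2 * y) ≠ 0 := (Valuation.ne_zero_iff v).2 h2y0
    rw [map_div₀]
    by_contra hc
    push Not at hc
    have h7 : v (3 * x ^ 2) ≤ v (2 * y) := by
      have h8 := mul_le_mul_left hc (v (2 * y))
      rwa [div_mul_cancel₀ _ h6, one_mul] at h8
    exact absurd (lt_of_le_of_lt (h5.trans h7) h4) (lt_irrefl _)
  · obtain ⟨h'', e3⟩ := mk_add x y x' (-y') hh (by linear_combination hh') hne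
    rw [e3]
    refine Or.inr ?_
    rw [xc_mk]
    refine ValC_big v ?_ hPx hQx
    by_contra hc
    push Not at hc
    obtain ⟨m, hm⟩ : ∃ m, m = (y - (-y')) / (x - x') := ⟨_, rfl⟩
    rw [← hm] at hc
    have hxne : x - x' ≠ 0 := sub_ne_zero.2 hne
    have hm1 : y + y' = m * (x - x') := by
      rw [hm, div_mul_cancel₀ _ hxne]
      ring
    have hm2 : x ^ 2 + x * x' + x' ^ 2 = m * (y - y') := by
      apply mul_left_cancel₀ hxne
      rw [← key, hm1]
      ring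
    have h1 : v (y + y') < 1 := by rw [hm1]; exact ValC_lt_mul' v hc hx
    have h2 : v (x ^ 2 + x * x' + x' ^ 2) < 1 := by rw [hm2]; exact ValC_lt_mul' v hc hy
    refine ValC_smooth v hb hh ?_ ?_
    · have e : 2 * y = (y + y') + (y - y') := by ring
      rw [e]
      exact ValC_lt_add v h1 hy
    · have e : 3 * x ^ 2 = (x ^ 2 + x * x' + x' ^ 2) + (x - x') * (2 * x + x') := by ring
      rw [e]
      exact ValC_lt_add v h2 (ValC_lt_mul v hx
        (ValC_le_add v (ValC_le_mul v (ValC_two_le v) hPx) hQx))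

theorem y_inj (hb : v (bD F) = 1) {P Q : Pt F} (hP : ¬ Ker v P) (hQ : ¬ Ker v Q)
    (hy : v (yc P - yc Q) < 1) : Ker v (P - Q) ∨ Ker v (P - omH F Q) ∨
      Ker v (P - omH F (omH F Q)) := by
  obtain ⟨hP0, hPx, hPy⟩ := not_ker v hP
  obtain ⟨hQ0, hQx, hQy⟩ := not_ker v hQ
  obtain ⟨h, -⟩ := exists_mk hP0
  obtain ⟨h', -⟩ := exists_mk hQ0
  have hQ1 : ¬ Ker v (omH F Q) := fun hk => hQ ((ker_omH v).1 hk)
  have hQ2 : ¬ Ker v (omH F (omH F Q)) := fun hk => hQ1 ((ker_omH v).1 hk)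
  have key : (yc P - yc Q) * (yc P + yc Q) =
      (xc P - xc Q) * ((xc P - omF F * xc Q) * (xc P - omF F * (omF F * xc Q))) := by
    linear_combination h - h' + (xc P ^ 2 * xc Q - omF F * xc P * xc Q ^ 2) * omF_quad F +
      xc Q ^ 3 * omF_cube F
  have hlt : v ((xc P - xc Q) * ((xc P - omF F * xc Q) * (xc P - omF F * (omF F * xc Q)))) < 1 := by
    rw [← key]
    exact ValC_lt_mul v hy (ValC_le_add v hPy hQy)
  by_contra hc
  push Not at hc
  obtain ⟨hc0, hc1, hc2⟩ := hc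
  have h0 : 1 ≤ v (xc P - xc Q) := by
    by_contra hcc
    push Not at hcc
    exact hc0 (red_inj v hb hP hQ hcc hy)
  have h1 : 1 ≤ v (xc P - omF F * xc Q) := by
    by_contra hcc
    push Not at hcc
    refine hc1 (red_inj v hb hP hQ1 ?_ ?_)
    · rw [xc_omH]
      exact hcc
    · rw [yc_omH]
      exact hy
  have h2 : 1 ≤ v (xc P - omF F * (omF F * xc Q)) := by
    by_contra hcc
    push Not at hcc
    refine hc2 (red_inj v hb hP hQ2 ?_ ?_)
    · rw [xc_omH, xc_omH]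
      exact hcc
    · rw [yc_omH, yc_omH]
      exact hy
  rw [map_mul, map_mul] at hlt
  exact absurd (one_le_mul h0 (one_le_mul h1 h2)) (not_le.2 hlt)

theorem x_inj (hb : v (bD F) = 1) {P Q : Pt F} (hP : ¬ Ker v P) (hQ : ¬ Ker v Q)
    (hx : v (xc P - xc Q) < 1) : Ker v (P - Q) ∨ Ker v (P + Q) := by
  obtain ⟨hP0, hPx, hPy⟩ := not_ker v hP
  obtain ⟨hQ0, hQx, hQy⟩ := not_ker v hQ
  obtain ⟨h, -⟩ := exists_mk hP0
  obtain ⟨h', eQ⟩ := exists_mk hQ0
  have key : (yc P - yc Q) * (yc P + yc Q) =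
      (xc P - xc Q) * (xc P ^ 2 + xc P * xc Q + xc Q ^ 2) := by
    linear_combination h - h'
  have hp : ∀ {a : F} (n : ℕ), v a ≤ 1 → v (a ^ n) ≤ 1 := by
    intro a n ha
    rw [map_pow]
    exact pow_le_one₀ zero_le ha
  have hlt : v ((yc P - yc Q) * (yc P + yc Q)) < 1 := by
    rw [key]
    exact ValC_lt_mul v hx (ValC_le_add v (ValC_le_add v (hp 2 hPx) (ValC_le_mul v hPx hQx))
      (hp 2 hQx))
  by_cases hy : v (yc P - yc Q) < 1
  · exact Or.inl (red_inj v hb hP hQ hx hy)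
  right
  push Not at hy
  have hy2 : v (yc P + yc Q) < 1 := by
    by_contra hc
    push Not at hc
    rw [map_mul] at hlt
    exact absurd (one_le_mul hy hc) (not_le.2 hlt)
  have hxn : xc (-Q) = xc Q := by
    rw [eQ, neg_mk, xc_mk, xc_mk]
  have hyn : yc (-Q) = -yc Q := by
    rw [eQ, neg_mk, yc_mk, yc_mk]
  have hQn : ¬ Ker v (-Q) := by
    intro hk
    apply hQ
    have h1 := ker_neg v hk
    rwa [neg_neg] at h1
  have h1 : Ker v (P - -Q) := by
    refine red_inj v hb hP hQn ?_ ?_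
    · rw [hxn]
      exact hx
    · rw [hyn, sub_neg_eq_add]
      exact hy2
  rwa [sub_neg_eq_add] at h1

/-- the difference of two abscissae is a unit -/
theorem x_unit (hb : v (bD F) = 1) {P Q : Pt F} (hP : ¬ Ker v P) (hQ : ¬ Ker v Q)
    (h1 : ¬ Ker v (P - Q)) (h2 : ¬ Ker v (P + Q)) : v (xc P - xc Q) = 1 := by
  obtain ⟨-, hPx, -⟩ := not_ker v hP
  obtain ⟨-, hQx, -⟩ := not_ker v hQ
  refine le_antisymm (ValC_le_sub v hPx hQx) ?_
  by_contra hc
  push Not at hc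
  rcases x_inj v hb hP hQ hc with h3 | h3
  · exact h1 h3
  · exact h2 h3

end

end Pool.Agent.Lib.MP_1a91b9_ntX.DB
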