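import Pool.Agent.Lib.MP_1a91b9_ntX.DB.ValC

/-!
# The curves `y² = x³ + D`: the local parameter of the multiples `sm a P`, torsion and the kernel
(port of MP_1a91b9_ntT/DB/ValE.lean, and a replacement of ValD)

PROOF. `ker_sm_t`, `ker_sm_le`: port of ntT/DB/ValE.lean; here `tc (-P) = - tc P` exactly (`neg_mk`), so `vae_neg` is trivial.
`ker_torsO`: `P` in the kernel, `v a = 1`, `sm a P = 0`: by `ker_sm_t` `v (a t) ≤ v t^4`, so `v t ≤ v t^4`, `v t < 1`: `t = 0`,
`ker_tc_zero` (as `ker_tors`).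
`not_ker_mixO`: `x a + y b = 1`, so `v a = 1` or `v b = 1` (`v_alg_le`; otherwise `v 1 < 1`). If `v a = 1` and `S + Q` is in
the kernel, `sm b (S + Q) = sm b S` is in the kernel (`ker_sm`) and killed by `a`: it is `0` (`ker_torsO`), with `sm a S = 0`
and `x a + y b = 1` `S = 0`. Symmetric. `not_ker_mix`: the case of natural numbers (`sm_nat`, `Nat.isCoprime_iff_coprime`).
`not_ker_torsO`: `P ≠ 0` killed by `a` with `v a = 1` is not in the kernel (`ker_torsO`).
-/

set_option autoImplicit false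

namespace Pool.Agent.Lib.MP_1a91b9_ntX.DB

open NumberField IsDedekindDomain WeierstrassCurve Pool.Agent.Lib.MP_1a91b9_ntT

variable [DD]

section
variable {F : Type*} [Field F] [Algebra K F] [DecidableEq F] {Γ : Type*}
  [LinearOrderedCommGroupWithZero Γ] (v : Valuation F Γ)

omit [DD] [DecidableEq F] in
private theorem ValE_coords (a : 𝓞 K) : ∃ m n : ℤ, a = (m : 𝓞 K) + n * S3.omO ∧
    algebraMap K F (a : K) = m + n * omF F := by
  obtain ⟨m, n, h⟩ := S3.exists_coords a
  refine ⟨m, n, ?_, ?_⟩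
  · apply RingOfIntegers.coe_injective
    refine h.trans ?_
    change _ = algebraMap (𝓞 K) K ((m : 𝓞 K) + n * S3.omO)
    rw [map_add, map_mul, map_intCast, map_intCast]
    rfl
  · rw [h, map_add, map_mul, map_intCast, map_intCast]
    rfl

private theorem ValE_tc_omH (P : Pt F) : tc (omH F P) = omF F * tc P := by
  unfold tc
  rw [xc_omH, yc_omH]
  ring

private theorem ValE_pow_le {a : Γ} (ha : a ≤ 1) : a ^ 4 ≤ a := by
  calc a ^ 4 ≤ a ^ 1 := pow_le_pow_right_of_le_one' ha (by norm_num)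
    _ = a := pow_one a

omit [DecidableEq F] in
private theorem ValE_neg (P : Pt F) : tc (-P) = -tc P := by
  rcases cases_pt P with rfl | ⟨x, y, h, rfl⟩
  · have h1 : -(0 : Pt F) = 0 := Affine.Point.neg_zero
    rw [h1, tc_zero, neg_zero]
  · rw [neg_mk]
    unfold tc
    rw [xc_mk, yc_mk, xc_mk, yc_mk, div_neg]

private theorem ValE_nsmul {P : Pt F} (hP : Ker v P) (n : ℕ) : v (tc (n • P)) ≤ v (tc P) := by
  have h1 := (ker_nsmul v hP n).2
  have h2 : tc (n • P) = (tc (n • P) - n * tc P) + n * tc P := by ring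
  rw [h2]
  refine v.map_add_le (h1.trans (ValE_pow_le (ker_tc_lt v hP).le)) ?_
  rw [map_mul]
  exact mul_le_of_le_one_left zero_le (v_nat_le v n)

private theorem ValE_zsmul {P : Pt F} (hP : Ker v P) (n : ℤ) : Ker v (n • P) ∧
    v (tc (n • P) - n * tc P) ≤ v (tc P) ^ 4 ∧ v (tc (n • P)) ≤ v (tc P) := by
  have key : Ker v (n • P) ∧ v (tc (n • P) - n * tc P) ≤ v (tc P) ^ 4 := by
    obtain ⟨m, rfl | rfl⟩ := n.eq_nat_or_neg
    · rw [natCast_zsmul, Int.cast_natCast]
      exact ker_nsmul v hP m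
    · obtain ⟨h1, h2⟩ := ker_nsmul v hP m
      rw [neg_zsmul, natCast_zsmul, Int.cast_neg, Int.cast_natCast]
      refine ⟨ker_neg v h1, ?_⟩
      have h5 : tc (-(m • P)) - -(m : F) * tc P = -(tc (m • P) - m * tc P) := by
        rw [ValE_neg]
        ring
      rw [h5, v.map_neg]
      exact h2
  refine ⟨key.1, key.2, ?_⟩
  have h2 : tc (n • P) = (tc (n • P) - n * tc P) + n * tc P := by ring
  rw [h2]
  refine v.map_add_le (key.2.trans (ValE_pow_le (ker_tc_lt v hP).le)) ?_
  rw [map_mul]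
  exact mul_le_of_le_one_left zero_le (v_int_le v n)

theorem ker_sm_t {P : Pt F} (hP : Ker v P) (a : 𝓞 K) :
    v (tc (sm F a P) - algebraMap K F (a : K) * tc P) ≤ v (tc P) ^ 4 := by
  obtain ⟨m, n, h1, h2⟩ := ValE_coords (F := F) a
  have e1 : sm F a P = m • P + n • omH F P := by
    conv_lhs => rw [h1]
    rw [map_add, map_mul]
    change sm F (m : 𝓞 K) P + sm F (n : 𝓞 K) (sm F S3.omO P) = _
    rw [sm_int, sm_om, sm_int]
  have hO : Ker v (omH F P) := (ker_omH v).mpr hP
  have hvO : v (tc (omH F P)) = v (tc P) := by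
    rw [ValE_tc_omH, map_mul, v_om, one_mul]
  obtain ⟨a1, a2, a3⟩ := ValE_zsmul v hP m
  obtain ⟨b1, b2, b3⟩ := ValE_zsmul v hO n
  rw [hvO] at b2 b3
  have c1 := (ker_add v a1 b1).2
  have c2 : (max (v (tc (m • P))) (v (tc (n • omH F P)))) ^ 4 ≤ v (tc P) ^ 4 :=
    pow_le_pow_left' (max_le a3 b3) 4
  have e2 : tc (sm F a P) - algebraMap K F (a : K) * tc P =
      (tc (m • P + n • omH F P) - tc (m • P) - tc (n • omH F P)) +
        ((tc (m • P) - m * tc P) + (tc (n • omH F P) - n * tc (omH F P))) := by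
    rw [e1, h2, ValE_tc_omH]
    ring
  rw [e2]
  exact v.map_add_le (c1.trans c2) (v.map_add_le a2 b2)

theorem ker_sm_le {P : Pt F} (hP : Ker v P) (a : 𝓞 K) : v (tc (sm F a P)) ≤ v (tc P) := by
  have h1 := ker_sm_t v hP a
  have h2 : tc (sm F a P) = (tc (sm F a P) - algebraMap K F (a : K) * tc P) +
      algebraMap K F (a : K) * tc P := by ring
  rw [h2]
  refine v.map_add_le (h1.trans (ValE_pow_le (ker_tc_lt v hP).le)) ?_
  rw [map_mul]
  exact mul_le_of_le_one_left zero_le (v_alg_le v a)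

theorem ker_torsO {P : Pt F} (hP : Ker v P) {a : 𝓞 K} (ha : v (algebraMap K F (a : K)) = 1)
    (h : sm F a P = 0) : P = 0 := by
  by_contra h0
  obtain ⟨h1, h2, -, -⟩ := ker_tc v hP h0
  have h3 := ker_sm_t v hP a
  rw [h, tc_zero, zero_sub, v.map_neg, map_mul, ha, one_mul] at h3
  have h4 : v (tc P) ^ 4 < v (tc P) := by
    have h5 : v (tc P) ^ 3 < 1 := pow_lt_one₀ zero_le h1 (by norm_num)
    calc v (tc P) ^ 4 = v (tc P) * v (tc P) ^ 3 := pow_succ' _ _
      _ < v (tc P) * 1 := mul_lt_mul_of_pos_left h5 (zero_lt_iff.mpr h2)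
      _ = v (tc P) := mul_one _
  exact absurd h3 (not_le.mpr h4)

theorem not_ker_torsO {P : Pt F} (hP0 : P ≠ 0) {a : 𝓞 K} (ha : v (algebraMap K F (a : K)) = 1)
    (h : sm F a P = 0) : ¬ Ker v P := by
  exact fun hK => hP0 (ker_torsO v hK ha h)

private theorem ValE_mix {a b : 𝓞 K} (hab : IsCoprime a b) (ha : v (algebraMap K F (a : K)) = 1)
    {S Q : Pt F} (hS : sm F a S = 0) (hS0 : S ≠ 0) (hQ : sm F b Q = 0) : ¬ Ker v (S + Q) := by
  intro hK
  obtain ⟨x, y, hxy⟩ := hab
  have h1 : sm F b (S + Q) = sm F b S := by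
    rw [map_add, hQ, add_zero]
  have h2 : Ker v (sm F b S) := by
    rw [← h1]
    exact ker_sm v hK b
  have h3 : sm F a (sm F b S) = 0 := by
    have e1 : sm F a (sm F b S) = sm F (a * b) S := by
      rw [map_mul]
      rfl
    have e2 : sm F (b * a) S = sm F b (sm F a S) := by
      rw [map_mul]
      rfl
    rw [e1, mul_comm, e2, hS, map_zero]
  have h4 : sm F b S = 0 := ker_torsO v h2 ha h3
  apply hS0
  have e3 : sm F (x * a + y * b) S = sm F x (sm F a S) + sm F y (sm F b S) := by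
    rw [map_add, map_mul, map_mul]
    rfl
  rw [hxy, hS, h4, map_zero, map_zero, add_zero, map_one] at e3
  exact e3

/-- the sum of two torsion points of coprime orders is in no kernel of reduction -/
theorem not_ker_mixO {a b : 𝓞 K} (hab : IsCoprime a b) {S Q : Pt F} (hS : sm F a S = 0)
    (hS0 : S ≠ 0) (hQ : sm F b Q = 0) (hQ0 : Q ≠ 0) : ¬ Ker v (S + Q) := by
  rcases lt_or_eq_of_le (v_alg_le v a) with ha | ha
  · rcases lt_or_eq_of_le (v_alg_le v b) with hb | hb
    · exfalso
      obtain ⟨x, y, hxy⟩ := hab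
      have h1 : algebraMap K F (x : K) * algebraMap K F (a : K) +
          algebraMap K F (y : K) * algebraMap K F (b : K) = 1 := by
        have h2 := congrArg (fun z : 𝓞 K => algebraMap K F (z : K)) hxy
        have e1 : algebraMap K F ((x * a + y * b : 𝓞 K) : K) =
            algebraMap K F (x : K) * algebraMap K F (a : K) +
          algebraMap K F (y : K) * algebraMap K F (b : K) := by
          change algebraMap K F (algebraMap (𝓞 K) K (x * a + y * b)) = _
          rw [map_add, map_mul, map_mul, map_add, map_mul, map_mul]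
        have e2 : algebraMap K F ((1 : 𝓞 K) : K) = 1 := by
          change algebraMap K F (algebraMap (𝓞 K) K 1) = _
          rw [map_one, map_one]
        rw [← e1, ← e2]
        exact h2
      have h3 : v 1 < 1 := by
        rw [← h1]
        refine v.map_add_lt ?_ ?_
        · rw [map_mul]
          exact lt_of_le_of_lt (mul_le_of_le_one_left zero_le (v_alg_le v x)) ha
        · rw [map_mul]
          exact lt_of_le_of_lt (mul_le_of_le_one_left zero_le (v_alg_le v y)) hb
      rw [map_one] at h3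
      exact lt_irrefl _ h3
    · rw [add_comm]
      exact ValE_mix v hab.symm hb hQ hQ0 hS
  · exact ValE_mix v hab ha hS hS0 hQ

theorem not_ker_mix {m n : ℕ} (h : m.Coprime n) {S Q : Pt F} (hS : m • S = 0) (hS0 : S ≠ 0)
    (hQ : n • Q = 0) (hQ0 : Q ≠ 0) : ¬ Ker v (S + Q) := by
  have h1 : IsCoprime (m : 𝓞 K) (n : 𝓞 K) := Nat.Coprime.cast h
  refine not_ker_mixO v h1 ?_ hS0 ?_ hQ0
  · rw [sm_nat]
    exact hS
  · rw [sm_nat]
    exact hQ

end

end Pool.Agent.Lib.MP_1a91b9_ntX.DB
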